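import Pool.Agent.K9h82.HT.For
import Pool.Agent.K9h82.UC.Red

/-!
# Filtered cycles of the initial graph: schemes
-/

set_option autoImplicit false

namespace Pool.Agent.K9h82.HT

open Pool.Agent.TH625.LOG Pool.Agent.N819.LT
open Pool.Agent.K9h82.UC (locInd_of_injective locInd_int)
open Pool.Agent.N819.UD (chi chi_gen)

section

variable {V E : Type} [Fintype V] [Fintype E]

open Classical in
/-- the chain of a path -/
noncomputable def chn (n : ℕ) (f : ℕ → E) (s : ℕ → ℤ) (e : E) : ℚ :=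
  ∑ i ∈ Finset.range n, if f i = e then (s i : ℚ) else 0

theorem chn_sum (n : ℕ) (f : ℕ → E) (s : ℕ → ℤ) (w : E → ℚ) :
    ∑ e, chn n f s e * w e = ∑ i ∈ Finset.range n, (s i : ℚ) * w (f i) := by
  classical
  unfold chn
  simp only [Finset.sum_mul, ite_mul, zero_mul]
  rw [Finset.sum_comm]
  refine Finset.sum_congr rfl fun i _ => ?_
  rw [Finset.sum_ite_eq, if_pos (Finset.mem_univ _)]

theorem chn_bd (L : LOG V E) (n : ℕ) (P : ℕ → V) (f : ℕ → E) (s : ℕ → ℤ) (hP : P n = P 0)
    (hst : ∀ i < n, (s i = 1 ∧ L.ini (f i) = P i ∧ L.lab (f i) = P (i + 1)) ∨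
        (s i = -1 ∧ L.lab (f i) = P i ∧ L.ini (f i) = P (i + 1))) :
    (Bm L).mulVec (chn n f s) = 0 := by
  classical
  funext v
  change ∑ e, Bm L v e * chn n f s e = 0
  have h1 : ∑ e, Bm L v e * chn n f s e = ∑ e, chn n f s e * Bm L v e :=
    Finset.sum_congr rfl fun e _ => mul_comm _ _
  rw [h1, chn_sum]
  have h2 : ∀ i ∈ Finset.range n, (s i : ℚ) * Bm L v (f i) =
      (if P i = v then 1 else 0) - (if P (i + 1) = v then 1 else 0) := by
    intro i hi
    unfold Bm
    rcases hst i (Finset.mem_range.1 hi) with ⟨h3, h4, h5⟩ | ⟨h3, h4, h5⟩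
    · rw [h3, h4, h5]; push_cast; ring
    · rw [h3, h4, h5]; push_cast; ring
  rw [Finset.sum_congr rfl h2, Finset.sum_range_sub', hP, sub_self]

theorem chn_supp (n : ℕ) (f : ℕ → E) (s : ℕ → ℤ) (e : E) (h : chn n f s e ≠ 0) :
    ∃ i < n, f i = e := by
  classical
  by_contra hcon
  push Not at hcon
  apply h
  unfold chn
  refine Finset.sum_eq_zero fun i hi => if_neg (hcon i (Finset.mem_range.1 hi))

theorem chn_one (n : ℕ) (f : ℕ → E) (s : ℕ → ℤ) (hn : 0 < n) (h : ∀ i, 0 < i → i < n → f i ≠ f 0) :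
    chn n f s (f 0) = s 0 := by
  classical
  unfold chn
  rw [Finset.sum_eq_single_of_mem 0 (Finset.mem_range.2 hn), if_pos rfl]
  intro i hi h0
  exact if_neg (h i (by omega) (Finset.mem_range.1 hi))

/-- the level of an edge -/
def lev (L : LOG V E) (κ : V → ℕ) (e : E) : ℕ := max (κ (L.lab e)) (κ (L.ter e))

omit [Fintype V] [Fintype E] in
theorem lev_le {L : LOG V E} {κ : V → ℕ} {e : E} {k : ℕ} :
    lev L κ e ≤ k ↔ κ (L.lab e) ≤ k ∧ κ (L.ter e) ≤ k := max_le_iff

variable {L : LOG V E} {β : ℕ} {κ : V → ℕ}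

theorem Flt.kc (h : Flt L β κ) (e : E) : κ (L.ini e) = κ (L.lab e) :=
  (h.comp _ _).2 (Relation.EqvGen.rel _ _ ⟨e, rfl, rfl⟩)

/-- a closed path with a single edge outside `F` -/
theorem Flt.loop (h : Flt L β κ) {S' F : Set E}
    (hF : ∀ e ∈ S', e ∉ F → Relation.ReflTransGen (Stp L {e' | e' ∈ F ∧ lev L κ e' ≤ lev L κ e})
      (L.lab e) (L.ini e)) (e : E) (he : e ∈ S') (heF : e ∉ F) :
    ∃ (n : ℕ) (P : ℕ → V) (f : ℕ → E) (s : ℕ → ℤ), 0 < n ∧ P n = P 0 ∧ P 0 = L.ini e ∧ f 0 = e ∧ s 0 = 1 ∧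
      (∀ i, 0 < i → i < n → f i ∈ F ∧ lev L κ (f i) ≤ lev L κ e) ∧
      ∀ i < n, (s i = 1 ∧ L.ini (f i) = P i ∧ L.lab (f i) = P (i + 1)) ∨
        (s i = -1 ∧ L.lab (f i) = P i ∧ L.ini (f i) = P (i + 1)) := by
  obtain ⟨n, P, f, s, h1, h2, h3, h4⟩ := walk_of L _ e _ _ (hF e he heF)
  refine ⟨n + 1, fun i => if i = 0 then L.ini e else P (i - 1), fun i => if i = 0 then e else f (i - 1),
    fun i => if i = 0 then 1 else s (i - 1), by omega, ?_, rfl, rfl, rfl, ?_, ?_⟩
  · simp only [Nat.add_eq_zero_iff, one_ne_zero, and_false, if_false, Nat.add_sub_cancel, if_true]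
    exact h2
  · intro i hi0 hi
    simp only [show ¬ i = 0 by omega, if_false]
    exact h3 (i - 1) (by omega)
  · intro i hi
    rcases Nat.eq_zero_or_pos i with rfl | hi0
    · left
      refine ⟨rfl, rfl, ?_⟩
      simp only [if_true, zero_add, one_ne_zero, if_false, Nat.sub_self]
      exact h1.symm
    · have h5 : i - 1 + 1 = i := by omega
      have h6 := h4 (i - 1) (by omega)
      rw [h5] at h6
      simp only [show ¬ i = 0 by omega, if_false, show ¬ (i + 1 = 0) by omega, Nat.add_sub_cancel]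
      exact h6

/-- the scheme of a set of edges -/
theorem Flt.sch [Nonempty E] (h : Flt L β κ) (hcard : Fintype.card V = Fintype.card E + 1) (S' : Set E) :
    ∃ (r : V → ℕ) (F : Set E) (J : Set ℕ) (n : ℕ → ℕ) (P : ℕ → ℕ → V) (f : ℕ → ℕ → E) (s : ℕ → ℕ → ℤ),
      Sch L S' κ r F β J n P f s := by
  classical
  obtain ⟨F, hFS, hac, hF⟩ := exists_forest L S' (lev L κ)
  obtain ⟨r, hr1, hr2⟩ := exists_r L F.toFinset (by rw [Set.coe_toFinset]; exact hac)
  simp only [Set.mem_toFinset] at hr1 hr2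
  -- the chains
  have hchain : ∀ e ∈ S', e ∉ F → ∃ c ∈ Zk L κ (lev L κ e), c e = 1 ∧ ∀ e', e' ∉ F → e' ≠ e → c e' = 0 := by
    intro e he heF
    obtain ⟨n, P, f, s, h1, h2, h3, h4, h5, h6, h7⟩ := h.loop hF e he heF
    refine ⟨chn n f s, ⟨chn_bd L n P f s h2 h7, ?_⟩, ?_, ?_⟩
    · intro e' he'
      obtain ⟨i, hi, rfl⟩ := chn_supp n f s e' he'
      rcases Nat.eq_zero_or_pos i with rfl | hi0
      · rw [h4]; exact lev_le.1 le_rfl
      · exact lev_le.1 (h6 i hi0 hi).2
    · have h8 := chn_one n f s h1 (fun i hi0 hi heq => heF (by rw [← h4, ← heq]; exact (h6 i hi0 hi).1))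
      rw [h4, h5, Int.cast_one] at h8
      exact h8
    · intro e' he'F hne
      by_contra hcon
      obtain ⟨i, hi, rfl⟩ := chn_supp n f s e' hcon
      rcases Nat.eq_zero_or_pos i with rfl | hi0
      · exact hne h4
      · exact he'F (h6 i hi0 hi).1
  -- the levels are positive
  have hpos : ∀ e ∈ S', e ∉ F → 0 < lev L κ e := by
    intro e he heF
    by_contra hcon
    obtain ⟨c, hc, hc1, -⟩ := hchain e he heF
    have h1 : lev L κ e = 0 := by omega
    rw [h1] at hc
    rw [h.zero hcard c hc] at hc1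
    exact zero_ne_one hc1
  have hlevβ : ∀ e, lev L κ e ≤ β := fun e => lev_le.2 ⟨h.bd _, h.bd _⟩
  -- uniqueness
  have huniq : ∀ e ∈ S', e ∉ F → ∀ e' ∈ S', e' ∉ F → lev L κ e = lev L κ e' → e = e' := by
    intro e he heF e' he' heF' hll
    by_contra hne
    obtain ⟨c, hc, hc1, hc2⟩ := hchain e he heF
    obtain ⟨c', hc', hc1', hc2'⟩ := hchain e' he' heF'
    rw [← hll] at hc'
    have hp := hpos e he heF
    obtain ⟨k, hk⟩ : ∃ k, lev L κ e = k + 1 := ⟨lev L κ e - 1, by omega⟩
    rw [hk] at hc hc'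
    obtain ⟨z, hz, -, hstep⟩ := h.step hcard k (by have := hlevβ e; omega)
    obtain ⟨a, ha⟩ := hstep c hc
    obtain ⟨a', ha'⟩ := hstep c' hc'
    have h1 : a' • c - a • c' ∈ Zk L κ k := by
      have h2 : a' • c - a • c' = a' • (c - a • z) - a • (c' - a' • z) := by
        rw [smul_sub, smul_sub, smul_smul, smul_smul, mul_comm a' a]
        abel
      rw [h2]
      exact Submodule.sub_mem _ (Submodule.smul_mem _ _ ha) (Submodule.smul_mem _ _ ha')
    have ha'0 : a' = 0 := by
      by_contra h3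
      have h4 : (a' • c - a • c') e = a' := by
        rw [Pi.sub_apply, Pi.smul_apply, Pi.smul_apply, hc1, hc2' e heF hne, smul_zero, sub_zero,
          smul_eq_mul, mul_one]
      have h5 := lev_le.2 (h1.2 e (by rw [h4]; exact h3))
      omega
    rw [ha'0, zero_smul, sub_zero] at ha'
    have h5 := lev_le.2 (ha'.2 e' (by rw [hc1']; exact one_ne_zero))
    omega
  -- the special edges
  let J : Set ℕ := {j | ∃ e ∈ S', e ∉ F ∧ lev L κ e = j + 1}
  have hdata : ∀ j, ∃ (n : ℕ) (P : ℕ → V) (f : ℕ → E) (s : ℕ → ℤ), j ∈ J →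
      (f 0 ∈ S' ∧ f 0 ∉ F ∧ lev L κ (f 0) = j + 1 ∧ 0 < n ∧ P n = P 0 ∧ P 0 = L.ini (f 0) ∧ s 0 = 1 ∧
      (∀ i, 0 < i → i < n → f i ∈ F ∧ lev L κ (f i) ≤ j + 1) ∧
      ∀ i < n, (s i = 1 ∧ L.ini (f i) = P i ∧ L.lab (f i) = P (i + 1)) ∨
        (s i = -1 ∧ L.lab (f i) = P i ∧ L.ini (f i) = P (i + 1))) := by
    intro j
    by_cases hj : j ∈ J
    · obtain ⟨e, he, heF, hl⟩ := hj
      obtain ⟨n, P, f, s, h1, h2, h3, h4, h5, h6, h7⟩ := h.loop hF e he heF
      refine ⟨n, P, f, s, fun _ => ⟨?_, ?_, ?_, h1, h2, ?_, h5, ?_, h7⟩⟩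
      · rw [h4]; exact he
      · rw [h4]; exact heF
      · rw [h4]; exact hl
      · rw [h3, h4]
      · intro i hi0 hi
        rw [← hl]
        exact h6 i hi0 hi
    · obtain ⟨e⟩ := ‹Nonempty E›
      exact ⟨0, fun _ => L.ini e, fun _ => e, fun _ => 0, fun h1 => absurd h1 hj⟩
  choose n P f s hd using hdata
  refine ⟨r, F, J, n, P, f, s, ?_⟩
  constructor
  · exact h.bd
  · exact fun e _ => h.kc e
  · exact hFS
  · exact hr1
  · exact fun e he e' he' => hr2 e he e' he'
  · rintro j ⟨e, he, heF, hl⟩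
    have := hlevβ e
    omega
  · exact fun j hj => (hd j hj).2.2.2.1
  · exact fun j hj => (hd j hj).2.2.2.2.1
  · exact fun j hj => (hd j hj).2.2.2.2.2.2.2.2
  · intro j hj
    refine ⟨(hd j hj).1, (hd j hj).2.1, fun j' hj' hlt heq => ?_⟩
    have h1 := (hd j hj).2.2.1
    have h2 := (hd j' hj').2.2.1
    rw [heq] at h2
    omega
  · intro j hj i hi0 hi
    exact Or.inl ((hd j hj).2.2.2.2.2.2.2.1 i hi0 hi).1
  · intro e he
    by_cases heF : e ∈ F
    · exact Or.inl heF
    · right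
      have hp := hpos e he heF
      have hj : (lev L κ e - 1) ∈ J := ⟨e, he, heF, by omega⟩
      refine ⟨_, hj, huniq e he heF _ (hd _ hj).1 (hd _ hj).2.1 ?_⟩
      rw [(hd _ hj).2.2.1]
      omega
  · intro j hj
    obtain ⟨h1, h2, h3, h4, h5, h6, h7, h8, h9⟩ := hd j hj
    have h10 := lev_le.1 h3.le
    refine ⟨by rw [h6, h.kc]; exact h10.1, fun i hi => ?_⟩
    rcases Nat.eq_zero_or_pos i with rfl | hi0
    · exact h10.2
    · exact (lev_le.1 (h8 i hi0 hi).2).2
  · intro j hj
    obtain ⟨h1, h2, h3, h4, h5, h6, h7, h8, h9⟩ := hd j hj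
    have hjβ : j < β := by
      have := hlevβ (f j 0)
      omega
    have hkP : ∀ i, i ≤ n j → κ (P j i) = κ (P j 0) := by
      intro i
      induction i with
      | zero => exact fun _ => rfl
      | succ i ih =>
        intro hi
        have h11 := h.kc (f j i)
        rcases h9 i (by omega) with ⟨-, h12, h13⟩ | ⟨-, h12, h13⟩
        · rw [← h13, ← h11, h12]; exact ih (by omega)
        · rw [← h13, h11, h12]; exact ih (by omega)
    have hkl : ∀ i, i < n j → κ (L.lab (f j i)) = κ (P j 0) := by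
      intro i hi
      rcases h9 i hi with ⟨-, h12, h13⟩ | ⟨-, h12, h13⟩
      · rw [h13]; exact hkP _ (by omega)
      · rw [h12]; exact hkP _ (by omega)
    have hc : chn (n j) (f j) (s j) ∈ Zk L κ (j + 1) := by
      refine ⟨chn_bd L (n j) (P j) (f j) (s j) h5 h9, ?_⟩
      intro e' he'
      obtain ⟨i, hi, rfl⟩ := chn_supp _ _ _ e' he'
      rcases Nat.eq_zero_or_pos i with rfl | hi0
      · exact lev_le.1 h3.le
      · exact lev_le.1 (h8 i hi0 hi).2
    have hc1 : chn (n j) (f j) (s j) (f j 0) = 1 := by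
      rw [chn_one (n j) (f j) (s j) h4 (fun i hi0 hi heq => h2 (by rw [← heq]; exact (h8 i hi0 hi).1)),
        h7, Int.cast_one]
    obtain ⟨z, hz, ⟨g, hg⟩, hstep⟩ := h.step hcard j hjβ
    obtain ⟨a, ha⟩ := hstep _ hc
    have ha0 : a ≠ 0 := by
      rintro rfl
      rw [zero_smul, sub_zero] at ha
      have h11 := lev_le.2 (ha.2 (f j 0) (by rw [hc1]; exact one_ne_zero))
      omega
    have hcr : crq L κ (j + 1) (chn (n j) (f j) (s j)) g ≠ 0 := by
      have h11 := crq_lin L κ (j + 1) (chn (n j) (f j) (s j) - a • z) z a g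
      rw [sub_add_cancel, crq_zero ha, zero_add] at h11
      rw [h11]
      exact mul_ne_zero ha0 hg
    refine ⟨g, fun h0 => hcr ?_⟩
    have h11 : crq L κ (j + 1) (chn (n j) (f j) (s j)) g =
        ((cross L κ j (n j) (P j) (f j) (s j) g : ℤ) : ℚ) := by
      have h12 := chn_sum (n j) (f j) (s j) (fun e => if L.gen (L.lab e) = g then
        ((if κ (L.ter e) = j + 1 then 1 else 0) - (if κ (L.lab e) = j + 1 then 1 else 0)) else 0)
      unfold crq cross
      refine Eq.trans ?_ (h12.trans ?_)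
      · refine Finset.sum_congr rfl fun e _ => ?_
        rw [mul_ite, mul_zero]
      · rw [Int.cast_sum]
        refine Finset.sum_congr rfl fun i hi => ?_
        rw [hkl i (Finset.mem_range.1 hi)]
        push_cast
        rw [mul_ite, mul_zero]
    rw [h11, h0, Int.cast_zero]

omit [Fintype V] [Fintype E] in
/-- the group without relators on a single generator -/
theorem li_empty (L : LOG V E) (S' : Set E) (hV : ∀ v w : V, v = w) (v0 : V) :
    LocInd (sub L S').G := by
  refine locInd_of_injective locInd_int (chi (sub L S')) ?_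
  have h1 : (zpowersHom (sub L S').G ((sub L S').gen v0)).comp (chi (sub L S')) =
      MonoidHom.id _ := by
    apply PresentedGroup.ext
    intro v
    rw [hV v v0]
    change zpowersHom (sub L S').G ((sub L S').gen v0)
      (chi (sub L S') ((sub L S').gen v0)) = (sub L S').gen v0
    rw [chi_gen]
    change (sub L S').gen v0 ^ (1 : ℤ) = _
    rw [zpow_one]
  intro a b hab
  have h2 := congrArg (zpowersHom (sub L S').G ((sub L S').gen v0)) hab
  have h3 := DFunLike.congr_fun h1 a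
  have h4 := DFunLike.congr_fun h1 b
  rw [MonoidHom.comp_apply, MonoidHom.id_apply] at h3 h4
  rw [← h3, ← h4, h2]

/-- **Local indicability.** -/
theorem Flt.li (h : Flt L β κ) (hL : L.Conn) (hcard : Fintype.card V = Fintype.card E + 1)
    (S' : Set E) : LocInd (sub L S').G := by
  by_cases hE : Nonempty E
  · obtain ⟨r, F, J, n, P, f, s, hs⟩ := h.sch hcard S'
    exact sch_li hL hcard hs
  · rw [not_nonempty_iff] at hE
    have h1 : Fintype.card V = 1 := by rw [hcard, Fintype.card_eq_zero]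
    obtain ⟨v0, hv0⟩ := Fintype.card_eq_one_iff.1 h1
    exact li_empty L S' (fun v w => (hv0 v).trans (hv0 w).symm) v0

end

section rev

variable {V E : Type}

open Pool.Agent.K9h82.UC (revL)

/-- the isomorphism to the group of the reversed graph -/
def rvH (L : LOG V E) : L.G →* (revL L).G :=
  PresentedGroup.toGroup (f := fun v => ((revL L).gen v)⁻¹) (by
    rintro _ ⟨e, rfl⟩
    have h1 := Pool.Agent.N819.UD.gen_rel (revL L) e
    have h2 : (revL L).gen (L.ter e) * (revL L).gen (L.lab e) =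
      (revL L).gen (L.lab e) * (revL L).gen (L.ini e) := h1
    simp only [LOG.rel, map_mul, map_inv, FreeGroup.lift_apply_of, inv_inv]
    change ((revL L).gen (L.ini e))⁻¹ * ((revL L).gen (L.lab e))⁻¹ * (revL L).gen (L.ter e) *
      (revL L).gen (L.lab e) = 1
    rw [← mul_inv_rev, ← h2]
    group)

theorem rvH_gen (L : LOG V E) (v : V) : rvH L (L.gen v) = ((revL L).gen v)⁻¹ :=
  PresentedGroup.toGroup.of _

theorem rvH_inj (L : LOG V E) : Function.Injective (rvH L) := by
  have h1 : (rvH (revL L)).comp (rvH L) = MonoidHom.id L.G := by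
    apply PresentedGroup.ext
    intro v
    change rvH (revL L) (rvH L (L.gen v)) = L.gen v
    rw [rvH_gen, map_inv]
    have h2 := rvH_gen (revL L) v
    rw [h2, inv_inv]
    rfl
  intro a b hab
  have h2 := congrArg (rvH (revL L)) hab
  have h3 : rvH (revL L) (rvH L a) = a := DFunLike.congr_fun h1 a
  have h4 : rvH (revL L) (rvH L b) = b := DFunLike.congr_fun h1 b
  exact h3.symm.trans (h2.trans h4)

theorem li_rev (L : LOG V E) (S' : Set E) (h : LocInd (sub (revL L) S').G) :
    LocInd (sub L S').G :=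
  locInd_of_injective h (rvH (sub L S')) (rvH_inj (sub L S'))

end rev

section

variable {V E : Type} [Fintype V] [Fintype E]

open Pool.Agent.K9h82.UC (revL rev_conn)

/-- **The main theorem.** -/
theorem main (L : LOG V E) (hL : L.Conn) (hcard : Fintype.card V = Fintype.card E + 1)
    (h : ∃ (β : ℕ) (κ : V → ℕ), Flt L β κ ∨ Flt (revL L) β κ) (S' : Set E) :
    LocInd (sub L S').G ∧ ∀ c, (sub L S').bdry c = 0 → c = 0 := by
  classical
  have h1 : LocInd (sub L S').G := by
    obtain ⟨β, κ, h | h⟩ := h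
    · exact h.li hL hcard S'
    · exact li_rev L S' (h.li (rev_conn L hL) hcard S')
  exact ⟨h1, asph_of_li L hL hcard S' h1⟩

end

end Pool.Agent.K9h82.HT
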