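import Pool.Agent.K9h82.HT.Base5
import Pool.Agent.K9h82.UC.CoreU

/-!
# Asphericity from local indicability
-/

set_option autoImplicit false

namespace Pool.Agent.K9h82.HT

open Pool.Agent.TH625.LOG Pool.Agent.N819.LT
open Pool.Agent.K9h82.UC (fx fx_aug coeff_fx tree_inj cc_coeff)
open Pool.Agent.R655.LI (cc epk epk_inj aug_comp augk augk_single)
open Pool.Agent.H40R2.Zd (fs fs_single)
open Pool.Agent.K9h82.LW (bd_int)

theorem locInd_rat {Q : Type} [Group Q] (hQ : LocInd Q) :
    Pool.Agent.H26R2.IdemLI.LocInd ℚ (⊤ : Subgroup Q) := by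
  intro H _ hfg hne
  obtain ⟨ψ, hψ⟩ := hQ H hfg hne
  refine ⟨(AddMonoidHom.toMultiplicative (Int.castRingHom ℚ).toAddMonoidHom).comp ψ, ?_⟩
  intro h
  obtain ⟨x, hx⟩ := hψ (Multiplicative.ofAdd 1)
  have h1 := DFunLike.congr_fun h x
  rw [MonoidHom.comp_apply, hx] at h1
  have h2 : ((1 : ℤ) : ℚ) = 0 := congrArg Multiplicative.toAdd h1
  rw [Int.cast_one] at h2
  exact one_ne_zero h2

variable {V E : Type} [Fintype V] [Fintype E]

theorem asph_of_li (L : LOG V E) (hL : L.Conn) (hcard : Fintype.card V = Fintype.card E + 1)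
    (S' : Set E) (hli : LocInd (sub L S').G) (c : (S' × (sub L S').G) →₀ ℤ)
    (hc : (sub L S').bdry c = 0) : c = 0 := by
  classical
  let π : FreeGroup V →* (sub L S').G := QuotientGroup.mk' _
  have hrel : ∀ e, π ((sub L S').rel e) = 1 := fun e =>
    (QuotientGroup.eq_one_iff _).2 (Subgroup.subset_normalClosure ⟨e, rfl⟩)
  let b : S' → MonoidAlgebra ℤ (sub L S').G := fun e =>
    MonoidAlgebra.ofCoeff (c.comapDomain (fun g => (e, g)) (fun g _ g' _ h => (Prod.mk.inj h).2))
  have hb : ∀ e g, (b e).coeff g = c (e, g) := fun e g => rfl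
  have h1 : ∀ v, ∑ e, b e * fx (sub L S') π e v = 0 := by
    intro v
    ext g
    have h2 := bd_int (sub L S') c v g
    rw [hc] at h2
    have h3 : (∑ e, b e * fx (sub L S') π e v).coeff g = ∑ e, (b e * fx (sub L S') π e v).coeff g := by
      rw [MonoidAlgebra.coeff_sum, Finsupp.finset_sum_apply]
    rw [h3]
    refine Eq.trans ?_ h2.symm
    refine Finset.sum_congr rfl fun e _ => ?_
    rw [coeff_fx (sub L S') π e (hrel e)]
    rfl
  let A : Matrix S' V (MonoidAlgebra ℚ (sub L S').G) := fun e v => cc ℚ (sub L S').G (fx (sub L S') π e v)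
  let r : S' → MonoidAlgebra ℚ (sub L S').G := fun e => cc ℚ (sub L S').G (b e)
  have hker : (1 : (sub L S').G →* Unit).ker = ⊤ := MonoidHom.ker_one
  have hr : Matrix.vecMul r A = 0 := by
    funext v
    have h2 := congrArg (cc ℚ (sub L S').G) (h1 v)
    rw [map_sum, map_zero] at h2
    refine Eq.trans (Finset.sum_congr rfl fun e _ => ?_) h2
    rw [map_mul]
  have h0 := Pool.Agent.H26R2.IdemLI.inj_of_map (1 : (sub L S').G →* Unit)
    (by rw [hker]; exact locInd_rat hli) A ?_ r hr
  · ext ⟨e, g⟩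
    have h4 : (cc ℚ (sub L S').G (b e)).coeff g = 0 := by
      have h5 : cc ℚ (sub L S').G (b e) = 0 := congrFun h0 e
      rw [h5]; simp
    rw [cc_coeff, hb] at h4
    exact_mod_cast h4
  · intro x hx
    have h3 : ∀ v : V, ∑ e : S', epk ℚ (x e) * ((if L.ini e = v then 1 else 0) -
        (if L.ter e = v then 1 else 0)) = 0 := by
      intro v
      have h4 := congrArg (epk ℚ) (congrFun hx v)
      change epk ℚ (∑ e, x e * fs ℚ (1 : (sub L S').G →* Unit) (A e v)) = epk ℚ 0 at h4
      rw [map_sum, map_zero] at h4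
      refine Eq.trans (Finset.sum_congr rfl fun e _ => ?_) h4
      rw [map_mul, aug_comp, fx_aug (sub L S') π _ e (hrel e)]
      rfl
    have h5 := tree_inj L hL hcard (fun e => if h : e ∈ S' then epk ℚ (x ⟨e, h⟩) else 0) (by
      intro v
      refine Eq.trans (Eq.symm ?_) (h3 v)
      refine Fintype.sum_of_injective (fun e : S' => (e : E)) Subtype.val_injective _ _ ?_ ?_
      · intro e he
        have he' : e ∉ S' := fun h => he ⟨⟨e, h⟩, rfl⟩
        rw [dif_neg he', zero_mul]
      · intro e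
        rw [dif_pos e.2])
    funext e
    have h6 := h5 e.1
    rw [dif_pos e.2] at h6
    exact epk_inj _ _ h6

end Pool.Agent.K9h82.HT
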