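import Pool.Agent.K9h82.HT.Fox

/-!
# The split complexes: letters, heights, words
-/

set_option autoImplicit false

namespace Pool.Agent.K9h82.HT

variable {V : Type}

/-- the split graph: the vertices are numbers, the edge `v` runs from `κ v` to `0`, the edge `k` from `0`
to `k` -/
abbrev X0 (κ : V → ℕ) : Gr where
  V := ℕ
  E := V ⊕ ℕ
  src := Sum.elim κ fun _ => 0
  tgt := Sum.elim (fun _ => 0) id

/-- the path from `0` to `k` or back -/
def yl (V : Type) (k : ℕ) (b : Bool) : Option ((V ⊕ ℕ) × Bool) := if k = 0 then none else some (Sum.inr k, b)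

theorem adj_yl_t (κ : V → ℕ) (k : ℕ) : Adj (X0 κ) 0 (yl V k true) k := by
  unfold yl
  by_cases h : k = 0
  · rw [if_pos h, h]; rfl
  · rw [if_neg h]; exact ⟨rfl, rfl⟩

theorem adj_yl_f (κ : V → ℕ) (k : ℕ) : Adj (X0 κ) k (yl V k false) 0 := by
  unfold yl
  by_cases h : k = 0
  · rw [if_pos h, h]; rfl
  · rw [if_neg h]; exact ⟨rfl, rfl⟩

theorem adj_v_t (κ : V → ℕ) (v : V) : Adj (X0 κ) (κ v) (some (Sum.inl v, true)) 0 := ⟨rfl, rfl⟩

theorem adj_v_f (κ : V → ℕ) (v : V) : Adj (X0 κ) 0 (some (Sum.inl v, false)) (κ v) := ⟨rfl, rfl⟩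

/-- the letters of the cell of a tree edge -/
def tu (κ : V → ℕ) (i l t : V) : ℕ → Option ((V ⊕ ℕ) × Bool)
  | 0 => some (Sum.inl i, true)
  | 1 => yl V (κ l) true
  | 2 => some (Sum.inl l, true)
  | 3 => some (Sum.inl t, false)
  | 4 => yl V (κ t) false
  | _ => some (Sum.inl l, false)

/-- its vertices -/
def tv (κ : V → ℕ) (i l t : V) : ℕ → ℕ
  | 0 => κ i
  | 1 => 0
  | 2 => κ l
  | 3 => 0
  | 4 => κ t
  | _ => 0

/-- the cell of a tree edge -/
def Tc (κ : V → ℕ) (i l t : V) (h : κ i = κ l) : CP (X0 κ) :=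
  CP.ofFin 6 (by norm_num) (tv κ i l t) (tu κ i l t) (by
    intro x hx
    have hx' : x < 5 := by omega
    interval_cases x
    · exact adj_v_t κ i
    · exact adj_yl_t κ (κ l)
    · exact adj_v_t κ l
    · exact adj_v_f κ t
    · exact adj_yl_f κ (κ t)) (by
    show Adj (X0 κ) 0 (some (Sum.inl l, false)) (κ i)
    rw [h]
    exact adj_v_f κ l)

/-- the letters of a block -/
def db (κ : V → ℕ) (m : ℕ) (l t : V) : Bool → ℕ → Option ((V ⊕ ℕ) × Bool)
  | true, 0 => some (Sum.inl l, true)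
  | true, 1 => some (Sum.inl t, false)
  | true, 2 => yl V (κ t) false
  | true, _ => yl V m true
  | false, 0 => yl V m false
  | false, 1 => yl V (κ t) true
  | false, 2 => some (Sum.inl t, true)
  | false, _ => some (Sum.inl l, false)

/-- the vertices of a block -/
def dv (κ : V → ℕ) (m : ℕ) (t : V) : ℕ → ℕ
  | 0 => m
  | 1 => 0
  | 2 => κ t
  | _ => 0

theorem adj_db (κ : V → ℕ) (m : ℕ) (l t : V) (h : κ l = m) (b : Bool) (q : ℕ) (hq : q < 3) :
    Adj (X0 κ) (dv κ m t q) (db κ m l t b q) (dv κ m t (q + 1)) := by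
  subst h
  interval_cases q
  · cases b
    · exact adj_yl_f κ _
    · exact adj_v_t κ l
  · cases b
    · exact adj_yl_t κ _
    · exact adj_v_f κ t
  · cases b
    · exact adj_v_t κ t
    · exact adj_yl_f κ _

theorem adj_db3 (κ : V → ℕ) (m : ℕ) (l t : V) (h : κ l = m) (b : Bool) :
    Adj (X0 κ) (dv κ m t 3) (db κ m l t b 3) m := by
  subst h
  cases b
  · exact adj_v_f κ l
  · exact adj_yl_t κ _

/-- the letters of the cell of a cycle -/
def du (κ : V → ℕ) (m : ℕ) (l t : ℕ → V) (σ : ℕ → Bool) (x : ℕ) : Option ((V ⊕ ℕ) × Bool) :=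
  db κ m (l (x / 4)) (t (x / 4)) (σ (x / 4)) (x % 4)

theorem du_eq (κ : V → ℕ) (m : ℕ) (l t : ℕ → V) (σ : ℕ → Bool) (a q : ℕ) (hq : q < 4) :
    du κ m l t σ (4 * a + q) = db κ m (l a) (t a) (σ a) q := by
  unfold du
  have h1 : (4 * a + q) / 4 = a := by omega
  have h2 : (4 * a + q) % 4 = q := by omega
  rw [h1, h2]

/-- the cell of a cycle -/
def Dc (κ : V → ℕ) (m n : ℕ) (hn : 0 < n) (l t : ℕ → V) (σ : ℕ → Bool) (h : ∀ i < n, κ (l i) = m) :
    CP (X0 κ) :=
  CP.ofFin (4 * n) (by omega) (fun x => dv κ m (t (x / 4)) (x % 4)) (du κ m l t σ) (by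
    intro x hx
    have h1 : x / 4 < n := by omega
    by_cases h2 : x % 4 = 3
    · have h3 : (x + 1) % 4 = 0 := by omega
      unfold du
      rw [h2, h3]
      exact adj_db3 κ m _ _ (h _ h1) _
    · have h3 : (x + 1) % 4 = x % 4 + 1 := by omega
      have h4 : (x + 1) / 4 = x / 4 := by omega
      unfold du
      rw [h3, h4]
      exact adj_db κ m _ _ (h _ h1) _ _ (by omega)) (by
    have h2 : (4 * n - 1) % 4 = 3 := by omega
    have h1 : (4 * n - 1) / 4 < n := by omega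
    unfold du
    rw [h2]
    exact adj_db3 κ m _ _ (h _ h1) _)

/-- the height cochain -/
def del : V ⊕ ℕ → ℤ := Sum.elim (fun _ => 1) fun _ => 0

theorem La_yl {M : Type*} [AddCommGroup M] (φ : V ⊕ ℕ → M) (k : ℕ) (b : Bool)
    (h : k ≠ 0 → φ (Sum.inr k) = 0) : La φ (yl V k b) = 0 := by
  unfold yl
  by_cases h1 : k = 0
  · rw [if_pos h1]; rfl
  · rw [if_neg h1]
    cases b
    · show -φ (Sum.inr k) = 0
      rw [h h1, neg_zero]
    · exact h h1

theorem Lt_yl {Γ : Type*} [Group Γ] (φ : V ⊕ ℕ → Γ) (k : ℕ) (b : Bool)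
    (h : k ≠ 0 → φ (Sum.inr k) = 1) : Lt φ (yl V k b) = 1 := by
  unfold yl
  by_cases h1 : k = 0
  · rw [if_pos h1]; rfl
  · rw [if_neg h1]
    cases b
    · show (φ (Sum.inr k))⁻¹ = 1
      rw [h h1, inv_one]
    · exact h h1

theorem Lt_yl_inv {Γ : Type*} [Group Γ] (φ : V ⊕ ℕ → Γ) (k : ℕ) :
    Lt φ (yl V k false) = (Lt φ (yl V k true))⁻¹ := by
  unfold yl
  by_cases h1 : k = 0
  · rw [if_pos h1, if_pos h1]
    exact inv_one.symm
  · rw [if_neg h1, if_neg h1]
    rfl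

/-- the word of a cell of a tree edge -/
theorem Tc_Wd {Γ : Type*} [Group Γ] (κ : V → ℕ) (i l t : V) (h : κ i = κ l) (φ : V ⊕ ℕ → Γ) :
    Wd φ (Tc κ i l t h).w 0 (Tc κ i l t h).len = φ (Sum.inl i) * Lt φ (yl V (κ l) true) *
      φ (Sum.inl l) * (φ (Sum.inl t))⁻¹ * (Lt φ (yl V (κ t) true))⁻¹ * (φ (Sum.inl l))⁻¹ := by
  have h1 : Wd φ (Tc κ i l t h).w 0 (Tc κ i l t h).len = Wd φ (tu κ i l t) 0 6 :=
    Wd_seq φ fun x hx => by
      show tu κ i l t ((0 + x) % 6) = tu κ i l t (0 + x)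
      have hx' : x < 6 := hx
      rw [Nat.mod_eq_of_lt (by omega)]
  rw [h1, ← Lt_yl_inv]
  simp only [Wd_succ, Wd_zero, one_mul]
  rfl

theorem Tc_Sa {R : Type*} [AddCommGroup R] (κ : V → ℕ) (i l t : V) (h : κ i = κ l)
    (φ : V ⊕ ℕ → R) (k : ℕ) (hk : k ≤ 6) : Sa φ (Tc κ i l t h).w 0 k = Sa φ (tu κ i l t) 0 k := by
  unfold Sa
  refine Finset.sum_congr rfl fun x hx => ?_
  show La φ (tu κ i l t ((0 + x) % 6)) = _
  rw [Nat.mod_eq_of_lt (by have := Finset.mem_range.1 hx; omega)]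

theorem Dc_Wd {Γ : Type*} [Group Γ] (κ : V → ℕ) (m n : ℕ) (hn : 0 < n) (l t : ℕ → V)
    (σ : ℕ → Bool) (h : ∀ i < n, κ (l i) = m) (φ : V ⊕ ℕ → Γ) (k : ℕ) (hk : k ≤ 4 * n) :
    Wd φ (Dc κ m n hn l t σ h).w 0 k = Wd φ (du κ m l t σ) 0 k :=
  Wd_seq φ fun x hx => by
    show du κ m l t σ ((0 + x) % (4 * n)) = du κ m l t σ (0 + x)
    rw [Nat.mod_eq_of_lt (by omega)]

theorem Dc_Sa {R : Type*} [AddCommGroup R] (κ : V → ℕ) (m n : ℕ) (hn : 0 < n) (l t : ℕ → V)
    (σ : ℕ → Bool) (h : ∀ i < n, κ (l i) = m) (φ : V ⊕ ℕ → R) (k : ℕ) (hk : k ≤ 4 * n) :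
    Sa φ (Dc κ m n hn l t σ h).w 0 k = Sa φ (du κ m l t σ) 0 k := by
  unfold Sa
  refine Finset.sum_congr rfl fun x hx => ?_
  show La φ (du κ m l t σ ((0 + x) % (4 * n))) = _
  rw [Nat.mod_eq_of_lt (by have := Finset.mem_range.1 hx; omega)]

/-- the product of a block -/
theorem du_block {Γ : Type*} [Group Γ] (κ : V → ℕ) (m : ℕ) (l t : ℕ → V) (σ : ℕ → Bool)
    (φ : V ⊕ ℕ → Γ) (a : ℕ) : Wd φ (du κ m l t σ) (4 * a) 4 =
      if σ a = true then φ (Sum.inl (l a)) * (φ (Sum.inl (t a)))⁻¹ *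
        (Lt φ (yl V (κ (t a)) true))⁻¹ * Lt φ (yl V m true)
      else (Lt φ (yl V m true))⁻¹ * Lt φ (yl V (κ (t a)) true) * φ (Sum.inl (t a)) *
        (φ (Sum.inl (l a)))⁻¹ := by
  rw [← Lt_yl_inv, ← Lt_yl_inv]
  have e0 := du_eq κ m l t σ a 0 (by norm_num)
  have e1 := du_eq κ m l t σ a 1 (by norm_num)
  have e2 := du_eq κ m l t σ a 2 (by norm_num)
  have e3 := du_eq κ m l t σ a 3 (by norm_num)
  simp only [Wd_succ, Wd_zero, one_mul, e0, e1, e2, e3]
  cases σ a
  · rfl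
  · rfl

theorem du_Sblock {R : Type*} [AddCommGroup R] (κ : V → ℕ) (m : ℕ) (l t : ℕ → V) (σ : ℕ → Bool)
    (φ : V ⊕ ℕ → R) (a : ℕ) : Sa φ (du κ m l t σ) (4 * a) 4 =
      La φ (db κ m (l a) (t a) (σ a) 0) + La φ (db κ m (l a) (t a) (σ a) 1) +
        La φ (db κ m (l a) (t a) (σ a) 2) + La φ (db κ m (l a) (t a) (σ a) 3) := by
  have e0 := du_eq κ m l t σ a 0 (by norm_num)
  have e1 := du_eq κ m l t σ a 1 (by norm_num)
  have e2 := du_eq κ m l t σ a 2 (by norm_num)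
  have e3 := du_eq κ m l t σ a 3 (by norm_num)
  simp only [Sa_succ, Sa_zero, zero_add, e0, e1, e2, e3]

theorem del_block (κ : V → ℕ) (m : ℕ) (l t : V) (σ : Bool) :
    La del (db κ m l t σ 0) + La del (db κ m l t σ 1) + La del (db κ m l t σ 2) +
      La del (db κ m l t σ 3) = 0 := by
  have hy : ∀ k b, La del (yl V k b) = 0 := fun k b => La_yl _ k b fun _ => rfl
  cases σ
  · show La del (yl V m false) + La del (yl V (κ t) true) + 1 + -1 = 0
    rw [hy, hy]; ring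
  · show (1 : ℤ) + -1 + La del (yl V (κ t) false) + La del (yl V m true) = 0
    rw [hy, hy]; ring

theorem del_du (κ : V → ℕ) (m : ℕ) (l t : ℕ → V) (σ : ℕ → Bool) (a : ℕ) :
    Sa del (du κ m l t σ) 0 (4 * a) = 0 := by
  induction a with
  | zero => rfl
  | succ a ih =>
    have h1 : 4 * (a + 1) = 4 * a + 4 := by ring
    rw [h1, Sa_add, ih, Nat.zero_add, du_Sblock, del_block, add_zero]

theorem del_Dc (κ : V → ℕ) (m n : ℕ) (hn : 0 < n) (l t : ℕ → V)
    (σ : ℕ → Bool) (h : ∀ i < n, κ (l i) = m) :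
    Sa del (Dc κ m n hn l t σ h).w 0 (Dc κ m n hn l t σ h).len = 0 :=
  (Dc_Sa κ m n hn l t σ h del _ le_rfl).trans (del_du κ m l t σ n)

theorem del_Tc (κ : V → ℕ) (i l t : V) (h : κ i = κ l) :
    Sa del (Tc κ i l t h).w 0 (Tc κ i l t h).len = 0 := by
  have hy : ∀ k b, La del (yl V k b) = 0 := fun k b => La_yl _ k b fun _ => rfl
  refine (Tc_Sa κ i l t h del 6 le_rfl).trans ?_
  simp only [Sa_succ, Sa_zero]
  show 0 + 1 + La del (yl V (κ l) true) + 1 + -1 + La del (yl V (κ t) false) + -1 = 0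
  rw [hy, hy]; ring

/-- the edges of a lift of a cell of a tree edge -/
theorem occ_T (κ : V → ℕ) (i l t : V) (h : κ i = κ l) (m : ℤ) (x : (V ⊕ ℕ) × ℤ)
    (hx : Occ ((Tc κ i l t h).lift del (del_Tc κ i l t h) m) x) :
    (x = (Sum.inl i, m)) ∨ (x = (Sum.inl l, m)) ∨
      (x.2 = m + 1 ∧ (x.1 = Sum.inl l ∨ x.1 = Sum.inl t ∨ (x.1 = Sum.inr (κ l) ∧ κ l ≠ 0) ∨
        (x.1 = Sum.inr (κ t) ∧ κ t ≠ 0))) := by
  have hy : ∀ k b, La del (yl V k b) = 0 := fun k b => La_yl _ k b fun _ => rfl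
  obtain ⟨e, k⟩ := x
  obtain ⟨p, hp, b, hu, hk⟩ := occ_shift.1 hx
  have hp' : p < 6 := hp
  rw [Tc_Sa κ i l t h del p hp'.le] at hk
  have hu' : tu κ i l t (p % 6) = some (e, b) := hu
  have hw : (Tc κ i l t h).w p = tu κ i l t p := by
    show tu κ i l t (p % 6) = _
    rw [Nat.mod_eq_of_lt hp']
  rw [Nat.mod_eq_of_lt hp'] at hu'
  rw [hw, hu'] at hk
  interval_cases p
  · obtain ⟨h1, h2⟩ : Sum.inl i = e ∧ true = b := Prod.mk.inj (Option.some.inj hu')
    subst h1 h2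
    left
    rw [hk]
    show (_, m + Sa del (tu κ i l t) 0 0) = _
    rw [Sa_zero, add_zero]
  · have h1 : yl V (κ l) true = some (e, b) := hu'
    unfold yl at h1
    by_cases h2 : κ l = 0
    · rw [if_pos h2] at h1
      exact absurd h1 (by simp)
    · rw [if_neg h2] at h1
      obtain ⟨h3, h4⟩ : Sum.inr (κ l) = e ∧ true = b := Prod.mk.inj (Option.some.inj h1)
      subst h3 h4
      right; right
      refine ⟨?_, Or.inr (Or.inr (Or.inl ⟨rfl, h2⟩))⟩
      rw [hk]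
      show m + Sa del (tu κ i l t) 0 1 = m + 1
      simp only [Sa_succ, Sa_zero]
      show m + (0 + 1) = m + 1
      ring
  · obtain ⟨h1, h2⟩ : Sum.inl l = e ∧ true = b := Prod.mk.inj (Option.some.inj hu')
    subst h1 h2
    right; right
    refine ⟨?_, Or.inl rfl⟩
    rw [hk]
    show m + Sa del (tu κ i l t) 0 2 = m + 1
    simp only [Sa_succ, Sa_zero]
    show m + (0 + 1 + La del (yl V (κ l) true)) = m + 1
    rw [hy]
    ring
  · obtain ⟨h1, h2⟩ : Sum.inl t = e ∧ false = b := Prod.mk.inj (Option.some.inj hu')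
    subst h1 h2
    right; right
    refine ⟨?_, Or.inr (Or.inl rfl)⟩
    rw [hk]
    show m + (Sa del (tu κ i l t) 0 3 - 1) = m + 1
    simp only [Sa_succ, Sa_zero]
    show m + (0 + 1 + La del (yl V (κ l) true) + 1 - 1) = m + 1
    rw [hy]
    ring
  · have h1 : yl V (κ t) false = some (e, b) := hu'
    unfold yl at h1
    by_cases h2 : κ t = 0
    · rw [if_pos h2] at h1
      exact absurd h1 (by simp)
    · rw [if_neg h2] at h1
      obtain ⟨h3, h4⟩ : Sum.inr (κ t) = e ∧ false = b := Prod.mk.inj (Option.some.inj h1)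
      subst h3 h4
      right; right
      refine ⟨?_, Or.inr (Or.inr (Or.inr ⟨rfl, h2⟩))⟩
      rw [hk]
      show m + (Sa del (tu κ i l t) 0 4 - 0) = m + 1
      simp only [Sa_succ, Sa_zero]
      show m + (0 + 1 + La del (yl V (κ l) true) + 1 + -1 - 0) = m + 1
      rw [hy]
      ring
  · obtain ⟨h1, h2⟩ : Sum.inl l = e ∧ false = b := Prod.mk.inj (Option.some.inj hu')
    subst h1 h2
    right; left
    rw [hk]
    show (_, m + (Sa del (tu κ i l t) 0 5 - 1)) = _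
    simp only [Sa_succ, Sa_zero]
    show (_, m + (0 + 1 + La del (yl V (κ l) true) + 1 + -1 + La del (yl V (κ t) false) - 1)) = _
    rw [hy, hy]
    congr 1
    ring

/-- the signs of the lowest edges of a cell of a tree edge -/
theorem sgn_T (κ : V → ℕ) (i l t : V) (h : κ i = κ l) (m : ℤ) (p : ℕ) (x : V) (b : Bool)
    (hu : ((Tc κ i l t h).lift del (del_Tc κ i l t h) m).w p = some ((Sum.inl x, m), b)) :
    (x = i ∧ b = true) ∨ (x = l ∧ b = false) := by
  have hy : ∀ k b, La del (yl V k b) = 0 := fun k b => La_yl _ k b fun _ => rfl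
  have hper := per_mul ((Tc κ i l t h).lift del (del_Tc κ i l t h) m).perw (p / 6) (p % 6)
  have hl : ((Tc κ i l t h).lift del (del_Tc κ i l t h) m).len = 6 := rfl
  rw [hl, Nat.mul_comm, Nat.mod_add_div, hu] at hper
  have hp' : p % 6 < 6 := Nat.mod_lt _ (by norm_num)
  generalize p % 6 = q at hper hp'
  obtain ⟨h1, h2⟩ := liftL_eq hper.symm
  have hw : (Tc κ i l t h).w q = tu κ i l t q := by
    show tu κ i l t (q % 6) = _
    rw [Nat.mod_eq_of_lt hp']
  rw [hw] at h1 h2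
  rw [ht, Tc_Sa κ i l t h del q hp'.le, h1] at h2
  interval_cases q
  · obtain ⟨h3, h4⟩ : Sum.inl i = Sum.inl x ∧ true = b := Prod.mk.inj (Option.some.inj h1)
    exact Or.inl ⟨(Sum.inl.inj h3).symm, h4.symm⟩
  · exfalso
    have h3 : yl V (κ l) true = some (Sum.inl x, b) := h1
    unfold yl at h3
    split_ifs at h3
    simp at h3
  · exfalso
    obtain ⟨h3, h4⟩ : Sum.inl l = Sum.inl x ∧ true = b := Prod.mk.inj (Option.some.inj h1)
    subst h4
    have h5 : m = m + Sa del (tu κ i l t) 0 2 := h2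
    simp only [Sa_succ, Sa_zero] at h5
    have h6 : m = m + (0 + 1 + La del (yl V (κ l) true)) := h5
    rw [hy] at h6
    omega
  · exfalso
    obtain ⟨h3, h4⟩ : Sum.inl t = Sum.inl x ∧ false = b := Prod.mk.inj (Option.some.inj h1)
    subst h4
    have h5 : m = m + Sa del (tu κ i l t) 0 3 - 1 := h2
    simp only [Sa_succ, Sa_zero] at h5
    have h6 : m = m + (0 + 1 + La del (yl V (κ l) true) + 1) - 1 := h5
    rw [hy] at h6
    omega
  · exfalso
    have h3 : yl V (κ t) false = some (Sum.inl x, b) := h1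
    unfold yl at h3
    split_ifs at h3
    simp at h3
  · obtain ⟨h3, h4⟩ : Sum.inl l = Sum.inl x ∧ false = b := Prod.mk.inj (Option.some.inj h1)
    exact Or.inr ⟨(Sum.inl.inj h3).symm, h4.symm⟩

/-- the edges of a lift of a cell of a cycle -/
theorem occ_D (κ : V → ℕ) (m0 n : ℕ) (hn : 0 < n) (l t : ℕ → V) (σ : ℕ → Bool)
    (h : ∀ i < n, κ (l i) = m0) (m : ℤ) (x : (V ⊕ ℕ) × ℤ)
    (hx : Occ ((Dc κ m0 n hn l t σ h).lift del (del_Dc κ m0 n hn l t σ h) m) x) :
    x.2 = m ∧ ((∃ v, x.1 = Sum.inl v) ∨ x.1 = Sum.inr m0 ∨ ∃ i < n, x.1 = Sum.inr (κ (t i))) := by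
  have hy : ∀ k b, La del (yl V k b) = 0 := fun k b => La_yl _ k b fun _ => rfl
  obtain ⟨e, k⟩ := x
  obtain ⟨p, hp, b, hu, hk⟩ := occ_shift.1 hx
  have hp' : p < 4 * n := hp
  rw [Dc_Sa κ m0 n hn l t σ h del p hp'.le] at hk
  have hu' : du κ m0 l t σ (p % (4 * n)) = some (e, b) := hu
  have hw : (Dc κ m0 n hn l t σ h).w p = du κ m0 l t σ p := by
    show du κ m0 l t σ (p % (4 * n)) = _
    rw [Nat.mod_eq_of_lt hp']
  rw [Nat.mod_eq_of_lt hp'] at hu'
  rw [hw, hu'] at hk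
  obtain ⟨a, q, hq, rfl⟩ : ∃ a q, q < 4 ∧ p = 4 * a + q := ⟨p / 4, p % 4, by omega, by omega⟩
  have ha : a < n := by omega
  rw [Sa_add, del_du, zero_add, Nat.zero_add] at hk
  rw [du_eq κ m0 l t σ a q hq] at hu'
  have e0 := du_eq κ m0 l t σ a 0 (by norm_num)
  have e1 := du_eq κ m0 l t σ a 1 (by norm_num)
  have e2 := du_eq κ m0 l t σ a 2 (by norm_num)
  have hyl : ∀ k0 b0, yl V k0 b0 = some (e, b) → e = Sum.inr k0 := by
    intro k0 b0 h1
    unfold yl at h1
    split_ifs at h1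
    exact (Prod.mk.inj (Option.some.inj h1)).1.symm
  interval_cases q
  · have hs : Sa del (du κ m0 l t σ) (4 * a) 0 = 0 := rfl
    rw [hs] at hk
    revert hu'
    cases hσ : σ a
    · intro hu'
      have h1 := hyl _ _ hu'
      subst h1
      refine ⟨?_, Or.inr (Or.inl rfl)⟩
      show k = m
      rw [hk]
      cases b
      · show m + (0 - 0) = m
        ring
      · show m + 0 = m
        ring
    · intro hu'
      obtain ⟨h1, h2⟩ : Sum.inl (l a) = e ∧ true = b := Prod.mk.inj (Option.some.inj hu')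
      subst h1 h2
      refine ⟨?_, Or.inl ⟨_, rfl⟩⟩
      show k = m
      rw [hk]
      show m + 0 = m
      ring
  · have hs : Sa del (du κ m0 l t σ) (4 * a) 1 = La del (db κ m0 (l a) (t a) (σ a) 0) := by
      simp only [Sa_succ, Sa_zero, zero_add, e0]
    rw [hs] at hk
    revert hu' hk
    cases hσ : σ a
    · intro hk hu'
      have h1 := hyl _ _ hu'
      subst h1
      refine ⟨?_, Or.inr (Or.inr ⟨a, ha, rfl⟩)⟩
      show k = m
      rw [hk]
      have hz : La del (db κ m0 (l a) (t a) false 0) = 0 := hy _ _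
      rw [hz]
      cases b
      · show m + (0 - 0) = m
        ring
      · show m + 0 = m
        ring
    · intro hk hu'
      obtain ⟨h1, h2⟩ : Sum.inl (t a) = e ∧ false = b := Prod.mk.inj (Option.some.inj hu')
      subst h1 h2
      refine ⟨?_, Or.inl ⟨_, rfl⟩⟩
      show k = m
      rw [hk]
      show m + (1 - 1) = m
      ring
  · have hs : Sa del (du κ m0 l t σ) (4 * a) 2 = La del (db κ m0 (l a) (t a) (σ a) 0) +
        La del (db κ m0 (l a) (t a) (σ a) 1) := by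
      simp only [Sa_succ, Sa_zero, zero_add, e0, e1]
    rw [hs] at hk
    revert hu' hk
    cases hσ : σ a
    · intro hk hu'
      obtain ⟨h1, h2⟩ : Sum.inl (t a) = e ∧ true = b := Prod.mk.inj (Option.some.inj hu')
      subst h1 h2
      refine ⟨?_, Or.inl ⟨_, rfl⟩⟩
      show k = m
      rw [hk]
      have hz : La del (db κ m0 (l a) (t a) false 0) = 0 := hy _ _
      have hz' : La del (db κ m0 (l a) (t a) false 1) = 0 := hy _ _
      rw [hz, hz']
      show m + (0 + 0) = m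
      ring
    · intro hk hu'
      have h1 := hyl _ _ hu'
      subst h1
      refine ⟨?_, Or.inr (Or.inr ⟨a, ha, rfl⟩)⟩
      show k = m
      rw [hk]
      cases b
      · show m + (1 + -1 - 0) = m
        ring
      · show m + (1 + -1) = m
        ring
  · have hs : Sa del (du κ m0 l t σ) (4 * a) 3 = La del (db κ m0 (l a) (t a) (σ a) 0) +
        La del (db κ m0 (l a) (t a) (σ a) 1) + La del (db κ m0 (l a) (t a) (σ a) 2) := by
      simp only [Sa_succ, Sa_zero, zero_add, e0, e1, e2]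
    rw [hs] at hk
    revert hu' hk
    cases hσ : σ a
    · intro hk hu'
      obtain ⟨h1, h2⟩ : Sum.inl (l a) = e ∧ false = b := Prod.mk.inj (Option.some.inj hu')
      subst h1 h2
      refine ⟨?_, Or.inl ⟨_, rfl⟩⟩
      show k = m
      rw [hk]
      have hz : La del (db κ m0 (l a) (t a) false 0) = 0 := hy _ _
      have hz' : La del (db κ m0 (l a) (t a) false 1) = 0 := hy _ _
      rw [hz, hz']
      show m + (0 + 0 + 1 - 1) = m
      ring
    · intro hk hu'
      have h1 := hyl _ _ hu'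
      subst h1
      refine ⟨?_, Or.inr (Or.inl rfl)⟩
      show k = m
      rw [hk]
      have hz : La del (db κ m0 (l a) (t a) true 2) = 0 := hy _ _
      rw [hz]
      cases b
      · show m + (1 + -1 + 0 - 0) = m
        ring
      · show m + (1 + -1 + 0) = m
        ring

end Pool.Agent.K9h82.HT
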