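import Pool.Agent.K9h82.HT.Sch

/-!
# Schemes: normal closures and independence
-/

set_option autoImplicit false

namespace Pool.Agent.K9h82.HT

open Pool.Agent.TH625.LOG Pool.Agent.N819.LT

variable {V E : Type} {L : LOG V E} {S' : Set E} {κ r : V → ℕ} {F : Set E} {β : ℕ} {J : Set ℕ}
  {n : ℕ → ℕ} {P : ℕ → ℕ → V} {f : ℕ → ℕ → E} {s : ℕ → ℕ → ℤ}

section rel

variable (h : Sch L S' κ r F β J n P f s)

/-- the normal subgroup of the cells -/
def MM (h : Sch L S' κ r F β J n P f s) : Subgroup (FreeGroup (X0 κ).E) :=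
  Subgroup.normalClosure (Set.range fun c => word (d0 h c))

instance MM_normal : (MM h).Normal := Subgroup.normalClosure_normal

/-- the letters in the quotient -/
def ph (h : Sch L S' κ r F β J n P f s) : V ⊕ ℕ → FreeGroup (X0 κ).E ⧸ MM h := fun e =>
  QuotientGroup.mk' (MM h) (FreeGroup.of (show (X0 κ).E from e))

/-- the generators in the quotient -/
def xq (h : Sch L S' κ r F β J n P f s) (v : V) : FreeGroup (X0 κ).E ⧸ MM h :=
  Lt (ph h) (yl V (κ v) true) * ph h (Sum.inl v)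

theorem ph_word (c : C0 F J) : Wd (ph h) (d0 h c).w 0 (d0 h c).len = 1 := by
  have h1 : QuotientGroup.mk' (MM h) (word (d0 h c)) = 1 :=
    (QuotientGroup.eq_one_iff _).2 (Subgroup.subset_normalClosure ⟨c, rfl⟩)
  rw [← h1]
  unfold word
  rw [Wd_hom]
  rfl

theorem rel_F (e : E) (he : e ∈ F) : xq h (L.ini e) * xq h (L.lab e) =
    xq h (L.lab e) * xq h (L.ter e) := by
  have h1 := ph_word h (Sum.inl ⟨e, he⟩)
  have h2 : Wd (ph h) (Tc κ (L.ini e) (L.lab e) (L.ter e) (h.comp e (h.FS he))).w 0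
      (Tc κ (L.ini e) (L.lab e) (L.ter e) (h.comp e (h.FS he))).len = 1 := h1
  rw [Tc_Wd] at h2
  have h3 : ph h (Sum.inl (L.ini e)) * Lt (ph h) (yl V (κ (L.lab e)) true) * ph h (Sum.inl (L.lab e)) =
      ph h (Sum.inl (L.lab e)) * Lt (ph h) (yl V (κ (L.ter e)) true) * ph h (Sum.inl (L.ter e)) := by
    rw [mul_inv_eq_one, mul_inv_eq_iff_eq_mul, mul_inv_eq_iff_eq_mul] at h2
    exact h2
  unfold xq
  rw [h.comp e (h.FS he)]
  calc _ = Lt (ph h) (yl V (κ (L.lab e)) true) * (ph h (Sum.inl (L.ini e)) *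
        Lt (ph h) (yl V (κ (L.lab e)) true) * ph h (Sum.inl (L.lab e))) := by group
    _ = _ := by rw [h3]; group

/-- the cycle in the quotient -/
theorem cyc_q (j : ℕ) (hj : j ∈ J)
    (hr : ∀ i, 0 < i → i < n j → xq h (L.ini (f j i)) * xq h (L.lab (f j i)) =
      xq h (L.lab (f j i)) * xq h (L.ter (f j i))) : ∀ a, 1 ≤ a → a ≤ n j →
    Lt (ph h) (yl V (κ (P j 0)) true) * Wd (ph h) (du κ (κ (P j 0)) (fun i => L.lab (f j i))
      (fun i => L.ter (f j i)) (fun i => decide (s j i = 1))) 0 (4 * a) *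
        (Lt (ph h) (yl V (κ (P j 0)) true))⁻¹ =
      (if s j 0 = 1 then xq h (L.lab (f j 0)) * (xq h (L.ter (f j 0)))⁻¹
        else xq h (L.ter (f j 0)) * (xq h (L.lab (f j 0)))⁻¹) * (xq h (P j 1))⁻¹ * xq h (P j a) := by
  have hblk : ∀ a, a < n j → Lt (ph h) (yl V (κ (P j 0)) true) * Wd (ph h) (du κ (κ (P j 0))
      (fun i => L.lab (f j i)) (fun i => L.ter (f j i)) (fun i => decide (s j i = 1))) (4 * a) 4 *
        (Lt (ph h) (yl V (κ (P j 0)) true))⁻¹ =
      if s j a = 1 then xq h (L.lab (f j a)) * (xq h (L.ter (f j a)))⁻¹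
        else xq h (L.ter (f j a)) * (xq h (L.lab (f j a)))⁻¹ := by
    intro a ha
    rw [du_block]
    unfold xq
    rw [h.kl j hj a ha]
    by_cases h1 : s j a = 1
    · rw [if_pos (by simp [h1]), if_pos h1]
      group
    · rw [if_neg (by simp [h1]), if_neg h1]
      group
  intro a
  induction a with
  | zero => intro h0; exact absurd h0 (by norm_num)
  | succ a ih =>
    intro _ ha
    rcases Nat.eq_zero_or_pos a with h0 | h0
    · subst h0
      have h1 := hblk 0 (by omega)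
      rw [Nat.mul_zero] at h1
      rw [show 4 * (0 + 1) = 4 from rfl, h1]
      group
    · have h1 : 4 * (a + 1) = 4 * a + 4 := by ring
      have h2 := hblk a (by omega)
      have h3 := ih h0 (by omega)
      have h4 := hr a h0 (by omega)
      have h5 : (if s j a = 1 then xq h (L.lab (f j a)) * (xq h (L.ter (f j a)))⁻¹
          else xq h (L.ter (f j a)) * (xq h (L.lab (f j a)))⁻¹) =
            (xq h (P j a))⁻¹ * xq h (P j (a + 1)) := by
        rcases h.step j hj a (by omega) with ⟨e1, e2, e3⟩ | ⟨e1, e2, e3⟩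
        · rw [if_pos e1, ← e3]
          rw [e2] at h4
          rw [eq_inv_mul_iff_mul_eq, ← mul_assoc, h4, mul_inv_cancel_right]
        · rw [if_neg (by rw [e1]; norm_num), ← e2]
          rw [e3] at h4
          rw [eq_inv_mul_iff_mul_eq, ← mul_assoc, ← h4, mul_inv_cancel_right]
      rw [h1, Wd_add, Nat.zero_add]
      calc _ = (Lt (ph h) (yl V (κ (P j 0)) true) * Wd (ph h) (du κ (κ (P j 0))
            (fun i => L.lab (f j i)) (fun i => L.ter (f j i)) (fun i => decide (s j i = 1))) 0 (4 * a) *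
            (Lt (ph h) (yl V (κ (P j 0)) true))⁻¹) *
            (Lt (ph h) (yl V (κ (P j 0)) true) * Wd (ph h) (du κ (κ (P j 0))
            (fun i => L.lab (f j i)) (fun i => L.ter (f j i)) (fun i => decide (s j i = 1))) (4 * a) 4 *
            (Lt (ph h) (yl V (κ (P j 0)) true))⁻¹) := by group
        _ = _ := by rw [h3, h2, h5]; group

theorem g1 {G : Type} [Group G] {B p q : G} (h : 1 = B * q⁻¹ * p) : B = p⁻¹ * q := by
  have h1 : B = (B * q⁻¹ * p) * p⁻¹ * q := by group
  rw [h1, ← h, one_mul]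

theorem g2 {G : Type} [Group G] {l t i : G} (h : l * t⁻¹ = i⁻¹ * l) : i * l = l * t := by
  have h1 : i * l = i * (l * t⁻¹) * t := by group
  rw [h1, h]; group

theorem g3 {G : Type} [Group G] {l t i : G} (h : t * l⁻¹ = l⁻¹ * i) : i * l = l * t := by
  have h1 : l * t = l * (t * l⁻¹) * l := by group
  rw [h1, h]; group

theorem rel_J : ∀ (N j : ℕ), j < N → j ∈ J → xq h (L.ini (f j 0)) * xq h (L.lab (f j 0)) =
    xq h (L.lab (f j 0)) * xq h (L.ter (f j 0)) := by
  intro N
  induction N with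
  | zero => intro j hj; exact absurd hj (Nat.not_lt_zero _)
  | succ N ih =>
    intro j hjN hj
    have hpos := h.pos j hj
    have h1 := cyc_q h j hj (by
      intro i h0 hi
      rcases h.rest j hj i h0 hi with h2 | ⟨j', hj', hlt, h2⟩
      · exact rel_F h _ h2
      · rw [h2]; exact ih j' (by omega) hj') (n j) hpos le_rfl
    have h2 : Wd (ph h) (du κ (κ (P j 0)) (fun i => L.lab (f j i))
        (fun i => L.ter (f j i)) (fun i => decide (s j i = 1))) 0 (4 * n j) = 1 := by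
      have h3 := ph_word h (Sum.inr ⟨j, hj⟩)
      rw [← h3]
      exact (Dc_Wd κ _ (n j) (h.pos j hj) _ _ _ (h.kl j hj) (ph h) _ le_rfl).symm
    rw [h2, mul_one, mul_inv_cancel, h.closed j hj] at h1
    have h3 := g1 h1
    rcases h.step j hj 0 hpos with ⟨e1, e2, e3⟩ | ⟨e1, e2, e3⟩
    · rw [if_pos e1, ← e2] at h3
      have e3' : P j 1 = L.lab (f j 0) := e3.symm
      rw [e3'] at h3
      exact g2 h3
    · rw [if_neg (by rw [e1]; norm_num), ← e2] at h3
      have e3' : P j 1 = L.ini (f j 0) := e3.symm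
      rw [e3'] at h3
      exact g3 h3

theorem rel_all (e : E) (he : e ∈ S') : xq h (L.ini e) * xq h (L.lab e) =
    xq h (L.lab e) * xq h (L.ter e) := by
  rcases h.cover e he with h1 | ⟨j, hj, rfl⟩
  · exact rel_F h e h1
  · exact rel_J h _ j (Nat.lt_succ_self _) hj

theorem tht_mem (u : FreeGroup V)
    (hu : (QuotientGroup.mk' (Subgroup.normalClosure (Set.range (sub L S').rel))) u = 1) :
    tht κ u ∈ Subgroup.normalClosure (Set.range fun c => word (d0 h c)) := by
  have h1 : (QuotientGroup.mk' (MM h)).comp (tht κ) = FreeGroup.lift (xq h) := by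
    apply FreeGroup.ext_hom
    intro v
    show QuotientGroup.mk' (MM h) (tht κ (FreeGroup.of v)) = _
    unfold tht
    rw [FreeGroup.lift_apply_of, FreeGroup.lift_apply_of, map_mul]
    unfold xq
    congr 1
    unfold yl
    by_cases h2 : κ v = 0
    · rw [if_pos h2]; rfl
    · rw [if_neg h2]; rfl
  have h2 : u ∈ Subgroup.normalClosure (Set.range (sub L S').rel) := (QuotientGroup.eq_one_iff u).1 hu
  have h3 : Subgroup.normalClosure (Set.range (sub L S').rel) ≤ (FreeGroup.lift (xq h)).ker := by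
    refine Subgroup.normalClosure_le_normal ?_
    rintro _ ⟨e, rfl⟩
    show FreeGroup.lift (xq h) ((sub L S').rel e) = 1
    unfold LOG.rel
    rw [map_mul, map_mul, map_mul, map_inv, map_inv, FreeGroup.lift_apply_of,
      FreeGroup.lift_apply_of, FreeGroup.lift_apply_of, mul_inv_eq_one, mul_inv_eq_iff_eq_mul]
    exact rel_all h e.1 e.2
  have h4 := h3 h2
  have h5 : (QuotientGroup.mk' (MM h)) (tht κ u) = 1 := by
    have := DFunLike.congr_fun h1 u
    exact this.trans h4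
  exact (QuotientGroup.eq_one_iff _).1 h5

end rel

section ind

variable (h : Sch L S' κ r F β J n P f s)

theorem dl_inl (u v : V) : dl ℤ (Sum.inl v : V ⊕ ℕ) (Sum.inl u) = dl ℤ v u := by
  by_cases h1 : u = v
  · subst h1; rw [dl_self, dl_self]
  · rw [dl_ne h1, dl_ne fun h2 => h1 (Sum.inl.inj h2)]

theorem dl_inr (k : ℕ) (v : V) : dl ℤ (Sum.inl v : V ⊕ ℕ) (Sum.inr k) = 0 := dl_ne (by simp)

theorem ex_T (e : {e // e ∈ F}) (v : V) : ex (d0 h (Sum.inl e)) (Sum.inl v) =
    dl ℤ v (L.ini e.1) - dl ℤ v (L.ter e.1) := by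
  have hy : ∀ k b, La (dl ℤ (Sum.inl v : V ⊕ ℕ)) (yl V k b) = 0 := fun k b =>
    La_yl _ k b fun _ => dl_inr k v
  refine (Tc_Sa κ _ _ _ (h.comp e.1 (h.FS e.2)) (dl ℤ (Sum.inl v : V ⊕ ℕ)) 6 le_rfl).trans ?_
  simp only [Sa_succ, Sa_zero]
  show 0 + dl ℤ (Sum.inl v : V ⊕ ℕ) (Sum.inl (L.ini e.1)) + La _ (yl V (κ (L.lab e.1)) true) +
    dl ℤ (Sum.inl v : V ⊕ ℕ) (Sum.inl (L.lab e.1)) + -dl ℤ (Sum.inl v : V ⊕ ℕ) (Sum.inl (L.ter e.1)) +
    La _ (yl V (κ (L.ter e.1)) false) + -dl ℤ (Sum.inl v : V ⊕ ℕ) (Sum.inl (L.lab e.1)) = _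
  rw [hy, hy, dl_inl, dl_inl, dl_inl]
  ring

theorem ex_D (j : {j // j ∈ J}) (v : V) : ex (d0 h (Sum.inr j)) (Sum.inl v) =
    ∑ i ∈ Finset.range (n j.1), s j.1 i * (dl ℤ v (L.ini (f j.1 i)) - dl ℤ v (L.ter (f j.1 i))) := by
  have hy : ∀ k b, La (dl ℤ (Sum.inl v : V ⊕ ℕ)) (yl V k b) = 0 := fun k b =>
    La_yl _ k b fun _ => dl_inr k v
  refine (Dc_Sa κ _ _ (h.pos j.1 j.2) _ _ _ (h.kl j.1 j.2) (dl ℤ (Sum.inl v : V ⊕ ℕ)) _ le_rfl).trans ?_
  have key : ∀ a, a ≤ n j.1 → Sa (dl ℤ (Sum.inl v : V ⊕ ℕ)) (du κ (κ (P j.1 0))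
      (fun i => L.lab (f j.1 i)) (fun i => L.ter (f j.1 i)) (fun i => decide (s j.1 i = 1))) 0 (4 * a) =
      ∑ i ∈ Finset.range a, s j.1 i * (dl ℤ v (L.ini (f j.1 i)) - dl ℤ v (L.ter (f j.1 i))) +
        (dl ℤ v (P j.1 a) - dl ℤ v (P j.1 0)) := by
    intro a
    induction a with
    | zero => intro _; rw [sub_self, Finset.sum_range_zero, add_zero]; rfl
    | succ a ih =>
      intro ha
      have h1 : 4 * (a + 1) = 4 * a + 4 := by ring
      rw [h1, Sa_add, ih (by omega), Nat.zero_add, du_Sblock, Finset.sum_range_succ]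
      rcases h.step j.1 j.2 a (by omega) with ⟨e1, e2, e3⟩ | ⟨e1, e2, e3⟩
      · have h2 : decide (s j.1 a = 1) = true := by simp [e1]
        rw [h2]
        show _ + (dl ℤ (Sum.inl v : V ⊕ ℕ) (Sum.inl (L.lab (f j.1 a))) +
          -dl ℤ (Sum.inl v : V ⊕ ℕ) (Sum.inl (L.ter (f j.1 a))) + La _ (yl V _ false) +
            La _ (yl V _ true)) = _
        rw [hy, hy, dl_inl, dl_inl, e1, e2, e3]
        ring
      · have h2 : decide (s j.1 a = 1) = false := by simp [e1]
        rw [h2]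
        show _ + (La _ (yl V _ false) + La _ (yl V _ true) +
          dl ℤ (Sum.inl v : V ⊕ ℕ) (Sum.inl (L.ter (f j.1 a))) +
          -dl ℤ (Sum.inl v : V ⊕ ℕ) (Sum.inl (L.lab (f j.1 a)))) = _
        rw [hy, hy, dl_inl, dl_inl, e1, e2, e3]
        ring
  refine (key (n j.1) le_rfl).trans ?_
  rw [h.closed j.1 j.2]
  ring

open Classical in
/-- the coefficients of the cells -/
noncomputable def cf (_h : Sch L S' κ r F β J n P f s) (c : C0 F J) (e : E) : ℤ :=
  match c with
  | Sum.inl e' => if e'.1 = e then 1 else 0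
  | Sum.inr j => ∑ i ∈ Finset.range (n j.1), if f j.1 i = e then s j.1 i else 0

theorem ex_cf [Fintype E] (c : C0 F J) (v : V) : ex (d0 h c) (Sum.inl v) =
    ∑ e, cf h c e * (dl ℤ v (L.ini e) - dl ℤ v (L.ter e)) := by
  classical
  rcases c with e' | j
  · rw [ex_T, Finset.sum_eq_single_of_mem e'.1 (Finset.mem_univ _)]
    · show _ = (if e'.1 = e'.1 then 1 else 0) * _
      rw [if_pos rfl, one_mul]
    · intro e _ hne
      show (if e'.1 = e then 1 else 0) * _ = (0 : ℤ)
      rw [if_neg fun h => hne h.symm, zero_mul]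
  · rw [ex_D]
    show _ = ∑ e, (∑ i ∈ Finset.range (n j.1), if f j.1 i = e then s j.1 i else 0) * _
    simp_rw [Finset.sum_mul]
    rw [Finset.sum_comm]
    refine Finset.sum_congr rfl fun i _ => ?_
    rw [Finset.sum_eq_single_of_mem (f j.1 i) (Finset.mem_univ _)]
    · rw [if_pos rfl]
    · intro e _ hne
      rw [if_neg fun h => hne h.symm, zero_mul]

theorem d0_ind [Fintype V] [Fintype E] (hL : L.Conn) (hcard : Fintype.card V = Fintype.card E + 1)
    (p : ℕ) [Fact p.Prime] : LinearIndependent (ZMod p)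
      (fun c : C0 F J => fun e : (X0 κ).E => ((ex (d0 h c) e : ℤ) : ZMod p)) := by
  classical
  rw [linearIndependent_iff']
  intro t g hg
  have h1 : ∀ e, ∑ c ∈ t, g c * ((cf h c e : ℤ) : ZMod p) = 0 := by
    refine Pool.Agent.K9h82.UC.tree_inj L hL hcard _ ?_
    intro v
    have h2 := congrFun hg (Sum.inl v)
    rw [Finset.sum_apply, Pi.zero_apply] at h2
    refine Eq.trans ?_ h2
    simp_rw [Finset.sum_mul]
    rw [Finset.sum_comm]
    refine Finset.sum_congr rfl fun c _ => ?_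
    show _ = g c * ((ex (d0 h c) (Sum.inl v) : ℤ) : ZMod p)
    rw [ex_cf, Int.cast_sum, Finset.mul_sum]
    refine Finset.sum_congr rfl fun e _ => ?_
    have h3 : ∀ u : V, ((dl ℤ v u : ℤ) : ZMod p) = if u = v then 1 else 0 := by
      intro u
      by_cases h4 : u = v
      · rw [if_pos h4, h4, dl_self, Int.cast_one]
      · rw [if_neg h4, dl_ne h4, Int.cast_zero]
    rw [Int.cast_mul, Int.cast_sub, h3, h3, mul_assoc]
  -- the cells of the cycles
  have hJ : ∀ j : {j // j ∈ J}, Sum.inr j ∈ t → g (Sum.inr j) = 0 := by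
    by_contra hcon
    push Not at hcon
    obtain ⟨j0, hj0, hne⟩ := hcon
    obtain ⟨c1, hc1, hmax⟩ := Finset.exists_max_image
      (t.filter fun c => c.isRight = true ∧ g c ≠ 0)
      (fun c => Sum.elim (fun _ => 0) (fun j : {j // j ∈ J} => j.1) c)
      ⟨Sum.inr j0, Finset.mem_filter.2 ⟨hj0, rfl, hne⟩⟩
    rw [Finset.mem_filter] at hc1
    obtain ⟨hc1t, hc1r, hc1g⟩ := hc1
    rcases c1 with e1 | j1
    · exact absurd hc1r (by simp)
    have hfirst := h.first j1.1 j1.2
    have h2 := h1 (f j1.1 0)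
    rw [Finset.sum_eq_single_of_mem (Sum.inr j1) hc1t] at h2
    · have h3 : cf h (Sum.inr j1) (f j1.1 0) = s j1.1 0 := by
        show ∑ i ∈ Finset.range (n j1.1), (if f j1.1 i = f j1.1 0 then s j1.1 i else 0) = _
        rw [Finset.sum_eq_single_of_mem 0 (Finset.mem_range.2 (h.pos j1.1 j1.2)), if_pos rfl]
        intro i hi hi0
        refine if_neg fun h4 => ?_
        rcases h.rest j1.1 j1.2 i (Nat.pos_of_ne_zero hi0) (Finset.mem_range.1 hi) with h5 | ⟨j', hj', hlt, h5⟩
        · exact hfirst.2.1 (h4 ▸ h5)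
        · exact hfirst.2.2 j' hj' hlt (by rw [← h5, h4])
      rw [h3] at h2
      rcases h.step j1.1 j1.2 0 (h.pos j1.1 j1.2) with ⟨e1, -⟩ | ⟨e1, -⟩
      · rw [e1, Int.cast_one, mul_one] at h2
        exact hc1g h2
      · rw [e1, Int.cast_neg, Int.cast_one, mul_neg, mul_one, neg_eq_zero] at h2
        exact hc1g h2
    · intro c hc hne
      by_cases hgc : g c = 0
      · rw [hgc, zero_mul]
      · have h3 : cf h c (f j1.1 0) = 0 := by
          rcases c with e2 | j2
          · exact if_neg fun h4 : e2.1 = f j1.1 0 => hfirst.2.1 (h4 ▸ e2.2)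
          · have h4 : j2.1 ≤ j1.1 := hmax (Sum.inr j2) (Finset.mem_filter.2 ⟨hc, rfl, hgc⟩)
            have h5 : j2.1 ≠ j1.1 := fun h6 => hne (congrArg Sum.inr (Subtype.ext h6))
            refine Finset.sum_eq_zero fun i hi => if_neg fun h6 => ?_
            rcases Nat.eq_zero_or_pos i with h7 | h7
            · subst h7
              exact hfirst.2.2 j2.1 j2.2 (by omega) h6
            · rcases h.rest j2.1 j2.2 i h7 (Finset.mem_range.1 hi) with h8 | ⟨j', hj', hlt, h8⟩
              · exact hfirst.2.1 (h6 ▸ h8)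
              · exact hfirst.2.2 j' hj' (by omega) (by rw [← h8, h6])
        rw [h3, Int.cast_zero, mul_zero]
  intro c hc
  rcases c with e | j
  · have h2 := h1 e.1
    rw [Finset.sum_eq_single_of_mem (Sum.inl e) hc] at h2
    · have h3 : cf h (Sum.inl e) e.1 = 1 := if_pos rfl
      rw [h3, Int.cast_one, mul_one] at h2
      exact h2
    · intro c' hc' hne
      rcases c' with e2 | j2
      · have h3 : cf h (Sum.inl e2) e.1 = 0 := if_neg fun h4 => hne (congrArg Sum.inl (Subtype.ext h4))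
        rw [h3, Int.cast_zero, mul_zero]
      · rw [hJ j2 hc', zero_mul]
  · exact hJ j hc

end ind

end Pool.Agent.K9h82.HT
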