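import Pool.Agent.K9h82.HT.Base2

/-!
# Schemes: ranks, and local indicability
-/

set_option autoImplicit false

namespace Pool.Agent.K9h82.HT

open Pool.Agent.TH625.LOG Pool.Agent.N819.LT

variable {V E : Type} {L : LOG V E} {S' : Set E} {κ r : V → ℕ} {F : Set E} {β : ℕ} {J : Set ℕ}
  {n : ℕ → ℕ} {P : ℕ → ℕ → V} {f : ℕ → ℕ → E} {s : ℕ → ℕ → ℤ}

section rank

variable (h : Sch L S' κ r F β J n P f s) (R T : ℤ)

/-- the lifts of the cells -/
noncomputable def lft (h : Sch L S' κ r F β J n P f s) (c : C0 F J) (m : ℤ) : CP (cov (X0 κ) del) :=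
  (d0 h c).lift del (d0_del h c) m

/-- ranks of the edges -/
def re (r : V → ℕ) (R T : ℤ) (x : (V ⊕ ℕ) × ℤ) : ℤ :=
  -x.2 * T + Sum.elim (fun v => (r v : ℤ)) (fun k => R + k) x.1

/-- ranks of the cells -/
def rc (L : LOG V E) (F : Set E) (J : Set ℕ) (r : V → ℕ) (R T : ℤ) (c : C0 F J) (m : ℤ) : ℤ :=
  -m * T + Sum.elim (fun e : {e // e ∈ F} => (r (ch L r e.1) : ℤ))
    (fun j : {j // j ∈ J} => R + (j.1 + 1)) c

/-- the edges of the cells -/
def ye (L : LOG V E) (F : Set E) (J : Set ℕ) (r : V → ℕ) (c : C0 F J) (m : ℤ) : (V ⊕ ℕ) × ℤ :=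
  (Sum.elim (fun e : {e // e ∈ F} => Sum.inl (ch L r e.1))
    (fun j : {j // j ∈ J} => Sum.inr (j.1 + 1)) c, m)

theorem re_l (v : V) (m : ℤ) : re r R T (Sum.inl v, m) = -m * T + r v := rfl
theorem re_r (k : ℕ) (m : ℤ) : re r R T (Sum.inr k, m) = -m * T + (R + k) := rfl
theorem rc_l (e : {e // e ∈ F}) (m : ℤ) : rc L F J r R T (Sum.inl e) m = -m * T + r (ch L r e.1) := rfl
theorem rc_r (j : {j // j ∈ J}) (m : ℤ) : rc L F J r R T (Sum.inr j) m = -m * T + (R + (j.1 + 1)) := rfl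

theorem ch_ge (e : E) : r (L.ini e) ≤ r (ch L r e) ∧ r (L.lab e) ≤ r (ch L r e) := by
  unfold ch
  split_ifs with h1
  · exact ⟨h1.le, le_rfl⟩
  · exact ⟨le_rfl, not_lt.1 h1⟩

theorem ch_or (e : E) : ch L r e = L.ini e ∨ ch L r e = L.lab e := by
  unfold ch
  split_ifs with h1
  · exact Or.inr rfl
  · exact Or.inl rfl

include h in
theorem ch_lt (e : E) (he : e ∈ F) (x : V) (hx : x = L.ini e ∨ x = L.lab e) :
    x = ch L r e ∨ r x < r (ch L r e) := by
  have h1 := h.rne e he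
  unfold ch
  split_ifs with h2
  · rcases hx with rfl | rfl
    · exact Or.inr h2
    · exact Or.inl rfl
  · rcases hx with rfl | rfl
    · exact Or.inl rfl
    · right
      omega

theorem occ_l (e : {e // e ∈ F}) (m : ℤ) (x : (V ⊕ ℕ) × ℤ) (hx : Occ (lft h (Sum.inl e) m) x) :
    (x = (Sum.inl (L.ini e.1), m)) ∨ (x = (Sum.inl (L.lab e.1), m)) ∨
      (x.2 = m + 1 ∧ ((∃ v, x.1 = Sum.inl v) ∨ ∃ k, x.1 = Sum.inr k ∧ k ≤ β)) := by
  rcases occ_T κ _ _ _ (h.comp e.1 (h.FS e.2)) m x hx with h1 | h1 | ⟨h1, h2⟩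
  · exact Or.inl h1
  · exact Or.inr (Or.inl h1)
  · refine Or.inr (Or.inr ⟨h1, ?_⟩)
    rcases h2 with h2 | h2 | ⟨h2, -⟩ | ⟨h2, -⟩
    · exact Or.inl ⟨_, h2⟩
    · exact Or.inl ⟨_, h2⟩
    · exact Or.inr ⟨_, h2, h.bd _⟩
    · exact Or.inr ⟨_, h2, h.bd _⟩

theorem occ_r (j : {j // j ∈ J}) (m : ℤ) (x : (V ⊕ ℕ) × ℤ) (hx : Occ (lft h (Sum.inr j) m) x) :
    x.2 = m ∧ ((∃ v, x.1 = Sum.inl v) ∨ ∃ k, x.1 = Sum.inr k ∧ k ≤ j.1 + 1) := by
  obtain ⟨h1, h2⟩ := occ_D κ _ (n j.1) (h.pos j.1 j.2) _ _ _ (h.kl j.1 j.2) m x hx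
  refine ⟨h1, ?_⟩
  rcases h2 with h2 | h2 | ⟨i, hi, h2⟩
  · exact Or.inl h2
  · exact Or.inr ⟨_, h2, (h.tri j.1 j.2).1⟩
  · exact Or.inr ⟨_, h2, (h.tri j.1 j.2).2 i hi⟩

theorem le_rank (hR : ∀ v, (r v : ℤ) ≤ R) (hT : R + β + 1 = T) (c : C0 F J) (m : ℤ)
    (x : (V ⊕ ℕ) × ℤ) (hx : Occ (lft h c m) x) : re r R T x ≤ rc L F J r R T c m := by
  obtain ⟨x1, x2⟩ := x
  rcases c with e | j
  · rw [rc_l]
    rcases occ_l h e m _ hx with h1 | h1 | ⟨h1, h2⟩
    · rw [h1, re_l]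
      have := (ch_ge (L := L) (r := r) e.1).1
      omega
    · rw [h1, re_l]
      have := (ch_ge (L := L) (r := r) e.1).2
      omega
    · have h1' : x2 = m + 1 := h1
      subst h1'
      rcases h2 with ⟨v, h2⟩ | ⟨k, h2, h3⟩
      · have h2' : x1 = Sum.inl v := h2
        subst h2'
        rw [re_l]
        have := hR v
        have h4 : -(m + 1) * T = -m * T - T := by ring
        rw [h4]
        omega
      · have h2' : x1 = Sum.inr k := h2
        subst h2'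
        rw [re_r]
        have h4 : -(m + 1) * T = -m * T - T := by ring
        rw [h4]
        omega
  · rw [rc_r]
    obtain ⟨h1, h2⟩ := occ_r h j m _ hx
    have h1' : x2 = m := h1
    subst h1'
    rcases h2 with ⟨v, h2⟩ | ⟨k, h2, h3⟩
    · have h2' : x1 = Sum.inl v := h2
      subst h2'
      rw [re_l]
      have := hR v
      omega
    · have h2' : x1 = Sum.inr k := h2
      subst h2'
      rw [re_r]
      omega

theorem fresh_rank (hR : ∀ v, (r v : ℤ) ≤ R) (hR0 : 0 ≤ R) (hT : R + β + 1 = T) (c c' : C0 F J)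
    (m m' : ℤ) (hne : ¬ (c' = c ∧ m' = m)) (hle : rc L F J r R T c' m' ≤ rc L F J r R T c m)
    (hocc : Occ (lft h c' m') (ye L F J r c m)) : False := by
  rcases c with e | j
  · rcases c' with e' | j'
    · rw [rc_l, rc_l] at hle
      have key : ∀ x, (x = L.ini e'.1 ∨ x = L.lab e'.1) → m = m' → ch L r e.1 = x → False := by
        intro x hx hm hx'
        subst hm
        rcases ch_lt h e'.1 e'.2 x hx with h1 | h1
        · apply hne
          refine ⟨?_, rfl⟩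
          congr 1
          exact Subtype.ext (h.inj e'.1 e'.2 e.1 e.2 (by rw [hx', h1]))
        · rw [← hx'] at h1
          omega
      rcases occ_l h e' m' _ hocc with h1 | h1 | ⟨h1, h2⟩
      · obtain ⟨h3, h4⟩ : Sum.inl (ch L r e.1) = (Sum.inl (L.ini e'.1) : V ⊕ ℕ) ∧ m = m' := Prod.mk.inj h1
        exact key _ (Or.inl rfl) h4 (Sum.inl.inj h3)
      · obtain ⟨h3, h4⟩ : Sum.inl (ch L r e.1) = (Sum.inl (L.lab e'.1) : V ⊕ ℕ) ∧ m = m' := Prod.mk.inj h1
        exact key _ (Or.inr rfl) h4 (Sum.inl.inj h3)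
      · have h1' : m = m' + 1 := h1
        subst h1'
        have h4 : -(m' + 1) * T = -m' * T - T := by ring
        rw [h4] at hle
        have := hR (ch L r e.1)
        omega
    · rw [rc_l, rc_r] at hle
      obtain ⟨h1, -⟩ := occ_r h j' m' _ hocc
      have h1' : m = m' := h1
      subst h1'
      have := hR (ch L r e.1)
      omega
  · have hj := h.Jlt j.1 j.2
    rcases c' with e' | j'
    · rw [rc_r, rc_l] at hle
      rcases occ_l h e' m' _ hocc with h1 | h1 | ⟨h1, h2⟩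
      · obtain ⟨h3, -⟩ : Sum.inr (j.1 + 1) = (Sum.inl (L.ini e'.1) : V ⊕ ℕ) ∧ m = m' := Prod.mk.inj h1
        exact absurd h3 (by simp)
      · obtain ⟨h3, -⟩ : Sum.inr (j.1 + 1) = (Sum.inl (L.lab e'.1) : V ⊕ ℕ) ∧ m = m' := Prod.mk.inj h1
        exact absurd h3 (by simp)
      · have h1' : m = m' + 1 := h1
        subst h1'
        have h4 : -(m' + 1) * T = -m' * T - T := by ring
        rw [h4] at hle
        omega
    · rw [rc_r, rc_r] at hle
      obtain ⟨h1, h2⟩ := occ_r h j' m' _ hocc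
      have h1' : m = m' := h1
      subst h1'
      rcases h2 with ⟨v, h2⟩ | ⟨k, h2, h3⟩
      · have h2' : Sum.inr (j.1 + 1) = (Sum.inl v : V ⊕ ℕ) := h2
        exact absurd h2' (by simp)
      · have h2' : Sum.inr (j.1 + 1) = (Sum.inr k : V ⊕ ℕ) := h2
        have h4 : j.1 + 1 = k := Sum.inr.inj h2'
        apply hne
        refine ⟨?_, rfl⟩
        congr 1
        exact Subtype.ext (by omega)

theorem only_rank (hR : ∀ v, (r v : ℤ) ≤ R) (j : {j // j ∈ J}) (m : ℤ)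
    (x : (V ⊕ ℕ) × ℤ) (hx : Occ (lft h (Sum.inr j) m) x)
    (hr : re r R T x = rc L F J r R T (Sum.inr j) m) : x = ye L F J r (Sum.inr j) m := by
  obtain ⟨x1, x2⟩ := x
  obtain ⟨h1, h2⟩ := occ_r h j m _ hx
  have h1' : x2 = m := h1
  subst h1'
  rw [rc_r] at hr
  rcases h2 with ⟨v, h2⟩ | ⟨k, h2, h3⟩
  · have h2' : x1 = Sum.inl v := h2
    subst h2'
    rw [re_l] at hr
    have := hR v
    omega
  · have h2' : x1 = Sum.inr k := h2
    subst h2'
    rw [re_r] at hr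
    have h4 : k = j.1 + 1 := by omega
    rw [h4]
    rfl

theorem nred_rank (hR : ∀ v, (r v : ℤ) ≤ R) (hR0 : 0 ≤ R) (hT : R + β + 1 = T) (e : {e // e ∈ F})
    (m : ℤ) (i k : ℕ) (y : (V ⊕ ℕ) × ℤ) (b : Bool) (h1 : (lft h (Sum.inl e) m).w i = some (y, b))
    (h2 : (lft h (Sum.inl e) m).w k = some (y, !b))
    (hr : re r R T y = rc L F J r R T (Sum.inl e) m) : False := by
  have hne := h.rne e.1 e.2
  have hy : ∃ x, y = (Sum.inl x, m) := by
    rcases occ_l h e m y ⟨i, b, h1⟩ with h3 | h3 | ⟨h3, h4⟩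
    · exact ⟨_, h3⟩
    · exact ⟨_, h3⟩
    · exfalso
      obtain ⟨y1, y2⟩ := y
      have h3' : y2 = m + 1 := h3
      subst h3'
      have h5 : -(m + 1) * T = -m * T - T := by ring
      rw [rc_l] at hr
      rcases h4 with ⟨v, h4⟩ | ⟨q, h4, h6⟩
      · have h4' : y1 = Sum.inl v := h4
        subst h4'
        rw [re_l, h5] at hr
        have := hR v
        omega
      · have h4' : y1 = Sum.inr q := h4
        subst h4'
        rw [re_r, h5] at hr
        omega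
  obtain ⟨x, rfl⟩ := hy
  rcases sgn_T κ _ _ _ (h.comp e.1 (h.FS e.2)) m i x b h1 with ⟨h3, h4⟩ | ⟨h3, h4⟩ <;>
    rcases sgn_T κ _ _ _ (h.comp e.1 (h.FS e.2)) m k x (!b) h2 with ⟨h5, h6⟩ | ⟨h5, h6⟩
  · rw [h4] at h6; exact absurd h6 (by decide)
  · exact hne (by rw [← h3, ← h5])
  · exact hne (by rw [← h5, ← h3])
  · rw [h4] at h6; exact absurd h6 (by decide)

theorem top_T (e : {e // e ∈ F}) (m : ℤ) : Occ (lft h (Sum.inl e) m) (ye L F J r (Sum.inl e) m) := by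
  have hy : ∀ k b, La del (yl V k b) = 0 := fun k b => La_yl _ k b fun _ => rfl
  rcases ch_or (L := L) (r := r) e.1 with h1 | h1
  · refine ⟨0, true, ?_⟩
    show liftL del (some (Sum.inl (L.ini e.1), true)) (m + Sa del _ 0 0) =
      some ((Sum.inl (ch L r e.1), m), true)
    rw [Sa_zero, add_zero, h1]
    rfl
  · refine ⟨5, false, ?_⟩
    have h2 : Sa del (Tc κ (L.ini e.1) (L.lab e.1) (L.ter e.1) (h.comp e.1 (h.FS e.2))).w 0 5 = 1 := by
      rw [Tc_Sa _ _ _ _ _ _ 5 (by norm_num)]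
      simp only [Sa_succ, Sa_zero]
      show 0 + 1 + La del (yl V (κ (L.lab e.1)) true) + 1 + -1 +
        La del (yl V (κ (L.ter e.1)) false) = 1
      rw [hy, hy]; ring
    show liftL del (some (Sum.inl (L.lab e.1), false))
      (m + Sa del (Tc κ (L.ini e.1) (L.lab e.1) (L.ter e.1) (h.comp e.1 (h.FS e.2))).w 0 5) =
      some ((Sum.inl (ch L r e.1), m), false)
    rw [h2, h1]
    show some ((Sum.inl (L.lab e.1), m + 1 - 1), false) = some ((Sum.inl (L.lab e.1), m), false)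
    rw [add_sub_cancel_right]

end rank

end Pool.Agent.K9h82.HT
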