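import Pool.Agent.K9h82.HT.Base3
import Pool.Agent.K9h82.LW.Fin

/-!
# Schemes: the crossing elements
-/

set_option autoImplicit false

namespace Pool.Agent.K9h82.HT

open Pool.Agent.TH625.LOG Pool.Agent.N819.LT

variable {V E : Type} {L : LOG V E} {S' : Set E} {κ r : V → ℕ} {F : Set E} {β : ℕ} {J : Set ℕ}
  {n : ℕ → ℕ} {P : ℕ → ℕ → V} {f : ℕ → ℕ → E} {s : ℕ → ℕ → ℤ}

section fox

variable {Γ : Type} [Group Γ] (x : V → Γ) (g0 : Γ)

open Classical in
theorem fo_yl (q k : ℕ) (hq : q ≠ 0) (b : Bool) (w : Γ) :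
    fo (xc x) (Sum.inr q) g0 (yl V k b) w =
      (if b = true then 1 else -1) * (if k = q ∧ w = g0 then 1 else 0) := by
  unfold yl
  by_cases h1 : k = 0
  · have h2 : ¬ (k = q ∧ w = g0) := fun h2 => hq (by rw [← h2.1, h1])
    rw [if_pos h1, if_neg h2, mul_zero]
    rfl
  · rw [if_neg h1]
    cases b
    · rw [fo_f]
      have h3 : xc x (Sum.inr k) = 1 := rfl
      rw [h3, inv_one, mul_one]
      by_cases h2 : k = q ∧ w = g0
      · have h4 : (Sum.inr k : V ⊕ ℕ) = Sum.inr q ∧ w = g0 := ⟨congrArg Sum.inr h2.1, h2.2⟩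
        rw [if_pos h2, if_pos h4]; simp
      · have h4 : ¬ ((Sum.inr k : V ⊕ ℕ) = Sum.inr q ∧ w = g0) := fun h3 => h2 ⟨Sum.inr.inj h3.1, h3.2⟩
        rw [if_neg h2, if_neg h4]; simp
    · rw [fo_t]
      by_cases h2 : k = q ∧ w = g0
      · have h4 : (Sum.inr k : V ⊕ ℕ) = Sum.inr q ∧ w = g0 := ⟨congrArg Sum.inr h2.1, h2.2⟩
        rw [if_pos h2, if_pos h4]; simp
      · have h4 : ¬ ((Sum.inr k : V ⊕ ℕ) = Sum.inr q ∧ w = g0) := fun h3 => h2 ⟨Sum.inr.inj h3.1, h3.2⟩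
        rw [if_neg h2, if_neg h4]; simp

theorem fo_inl (q : ℕ) (v : V) (b : Bool) (w : Γ) :
    fo (xc x) (Sum.inr q) g0 (some (Sum.inl v, b)) w = 0 := by
  classical
  cases b
  · rw [fo_f, if_neg (by simp), neg_zero]
  · rw [fo_t, if_neg (by simp)]

open Classical in
theorem fox_du (h : Sch L S' κ r F β J n P f s) (hx : Rl L S' x) (j : ℕ) (hj : j ∈ J) :
    ∀ a, a ≤ n j → Fs (xc x) (Sum.inr (j + 1)) g0 (du κ (κ (P j 0)) (fun i => L.lab (f j i))
      (fun i => L.ter (f j i)) (fun i => decide (s j i = 1))) (x (P j 0)) (4 * a) =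
      -∑ i ∈ Finset.range a, if x (L.lab (f j i)) = g0 then
        s j i * ((if κ (L.ter (f j i)) = j + 1 then 1 else 0) - (if κ (P j 0) = j + 1 then 1 else 0))
        else 0 := by
  intro a
  induction a with
  | zero => intro _; rfl
  | succ a ih =>
    intro ha
    set u := du κ (κ (P j 0)) (fun i => L.lab (f j i)) (fun i => L.ter (f j i))
      (fun i => decide (s j i = 1)) with hu
    have e0 := du_eq κ (κ (P j 0)) (fun i => L.lab (f j i)) (fun i => L.ter (f j i))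
      (fun i => decide (s j i = 1)) a 0 (by norm_num)
    have e1 := du_eq κ (κ (P j 0)) (fun i => L.lab (f j i)) (fun i => L.ter (f j i))
      (fun i => decide (s j i = 1)) a 1 (by norm_num)
    have e2 := du_eq κ (κ (P j 0)) (fun i => L.lab (f j i)) (fun i => L.ter (f j i))
      (fun i => decide (s j i = 1)) a 2 (by norm_num)
    have e3 := du_eq κ (κ (P j 0)) (fun i => L.lab (f j i)) (fun i => L.ter (f j i))
      (fun i => decide (s j i = 1)) a 3 (by norm_num)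
    rw [← hu] at e0 e1 e2 e3
    rw [Nat.add_zero] at e0
    have hW := xc_du x h hx j hj (κ (P j 0)) a (by omega)
    rw [← hu] at hW
    have hrel := hx _ (h.fS j hj a (by omega))
    have hFs : Fs (xc x) (Sum.inr (j + 1)) g0 u (x (P j 0)) (4 * (a + 1)) =
        Fs (xc x) (Sum.inr (j + 1)) g0 u (x (P j 0)) (4 * a) +
          fo (xc x) (Sum.inr (j + 1)) g0 (u (4 * a)) (x (P j 0) * Wd (xc x) u 0 (4 * a)) +
          fo (xc x) (Sum.inr (j + 1)) g0 (u (4 * a + 1)) (x (P j 0) * Wd (xc x) u 0 (4 * a + 1)) +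
          fo (xc x) (Sum.inr (j + 1)) g0 (u (4 * a + 2)) (x (P j 0) * Wd (xc x) u 0 (4 * a + 2)) +
          fo (xc x) (Sum.inr (j + 1)) g0 (u (4 * a + 3)) (x (P j 0) * Wd (xc x) u 0 (4 * a + 3)) := by
      unfold Fs
      have h4 : 4 * (a + 1) = 4 * a + 1 + 1 + 1 + 1 := by ring
      rw [h4, Finset.sum_range_succ, Finset.sum_range_succ, Finset.sum_range_succ,
        Finset.sum_range_succ]
    have w1 : Wd (xc x) u 0 (4 * a + 1) = Wd (xc x) u 0 (4 * a) * Lt (xc x) (u (4 * a)) := by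
      rw [Wd_succ, Nat.zero_add]
    have w2 : Wd (xc x) u 0 (4 * a + 2) = Wd (xc x) u 0 (4 * a + 1) * Lt (xc x) (u (4 * a + 1)) := by
      rw [Wd_succ, Nat.zero_add]
    have w3 : Wd (xc x) u 0 (4 * a + 3) = Wd (xc x) u 0 (4 * a + 2) * Lt (xc x) (u (4 * a + 2)) := by
      rw [Wd_succ, Nat.zero_add]
    have hy : ∀ k b, Lt (xc x) (yl V k b) = 1 := fun k b => Lt_yl (xc x) k b fun _ => rfl
    rw [hFs, ih (by omega), Finset.sum_range_succ, w3, w2, w1, hW, e0, e1, e2, e3]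
    have hq : j + 1 ≠ 0 := by omega
    rcases h.step j hj a (by omega) with ⟨h1, h2, h3⟩ | ⟨h1, h2, h3⟩
    · have h4 : decide (s j a = 1) = true := by simp [h1]
      have f0 : fo (xc x) (Sum.inr (j + 1)) g0 (db κ (κ (P j 0)) (L.lab (f j a)) (L.ter (f j a))
          true 0) (x (P j 0) * ((x (P j 0))⁻¹ * x (P j a))) = 0 := fo_inl x g0 _ _ _ _
      have f1 : ∀ w, fo (xc x) (Sum.inr (j + 1)) g0 (db κ (κ (P j 0)) (L.lab (f j a)) (L.ter (f j a))
          true 1) w = 0 := fun w => fo_inl x g0 _ _ _ _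
      have f2 : ∀ w, fo (xc x) (Sum.inr (j + 1)) g0 (db κ (κ (P j 0)) (L.lab (f j a)) (L.ter (f j a))
          true 2) w = (if false = true then 1 else -1) * (if κ (L.ter (f j a)) = j + 1 ∧ w = g0 then 1 else 0) :=
        fun w => fo_yl x g0 _ _ hq _ _
      have f3 : ∀ w, fo (xc x) (Sum.inr (j + 1)) g0 (db κ (κ (P j 0)) (L.lab (f j a)) (L.ter (f j a))
          true 3) w = (if true = true then 1 else -1) * (if κ (P j 0) = j + 1 ∧ w = g0 then 1 else 0) :=
        fun w => fo_yl x g0 _ _ hq _ _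
      have l0 : Lt (xc x) (db κ (κ (P j 0)) (L.lab (f j a)) (L.ter (f j a)) true 0) =
        x (L.lab (f j a)) := rfl
      have l1 : Lt (xc x) (db κ (κ (P j 0)) (L.lab (f j a)) (L.ter (f j a)) true 1) =
        (x (L.ter (f j a)))⁻¹ := rfl
      have l2 : Lt (xc x) (db κ (κ (P j 0)) (L.lab (f j a)) (L.ter (f j a)) true 2) = 1 := hy _ _
      have p2 : x (P j 0) * ((x (P j 0))⁻¹ * x (P j a) * x (L.lab (f j a)) * (x (L.ter (f j a)))⁻¹) =
          x (L.lab (f j a)) := by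
        rw [h2] at hrel
        have : x (P j 0) * ((x (P j 0))⁻¹ * x (P j a) * x (L.lab (f j a)) * (x (L.ter (f j a)))⁻¹) =
            (x (P j a) * x (L.lab (f j a))) * (x (L.ter (f j a)))⁻¹ := by group
        rw [this, hrel, mul_inv_cancel_right]
      rw [h4, f0, f1, f2, f3, l0, l1, l2, h1]
      simp only [mul_one, p2]
      by_cases c1 : x (L.lab (f j a)) = g0
      · by_cases c2 : κ (L.ter (f j a)) = j + 1 <;> by_cases c3 : κ (P j 0) = j + 1 <;>
          simp [c1, c2, c3] <;> ring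
      · simp [c1]
    · have h4 : decide (s j a = 1) = false := by simp [h1]
      have f0 : ∀ w, fo (xc x) (Sum.inr (j + 1)) g0 (db κ (κ (P j 0)) (L.lab (f j a)) (L.ter (f j a))
          false 0) w = (if false = true then 1 else -1) * (if κ (P j 0) = j + 1 ∧ w = g0 then 1 else 0) :=
        fun w => fo_yl x g0 _ _ hq _ _
      have f1 : ∀ w, fo (xc x) (Sum.inr (j + 1)) g0 (db κ (κ (P j 0)) (L.lab (f j a)) (L.ter (f j a))
          false 1) w = (if true = true then 1 else -1) * (if κ (L.ter (f j a)) = j + 1 ∧ w = g0 then 1 else 0) :=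
        fun w => fo_yl x g0 _ _ hq _ _
      have f2 : ∀ w, fo (xc x) (Sum.inr (j + 1)) g0 (db κ (κ (P j 0)) (L.lab (f j a)) (L.ter (f j a))
          false 2) w = 0 := fun w => fo_inl x g0 _ _ _ _
      have f3 : ∀ w, fo (xc x) (Sum.inr (j + 1)) g0 (db κ (κ (P j 0)) (L.lab (f j a)) (L.ter (f j a))
          false 3) w = 0 := fun w => fo_inl x g0 _ _ _ _
      have l0 : Lt (xc x) (db κ (κ (P j 0)) (L.lab (f j a)) (L.ter (f j a)) false 0) = 1 := hy _ _
      have p0 : x (P j 0) * ((x (P j 0))⁻¹ * x (P j a)) = x (L.lab (f j a)) := by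
        rw [h2, mul_inv_cancel_left]
      rw [h4, f0, f1, f2, f3, l0, h1]
      simp only [mul_one, p0, add_zero]
      by_cases c1 : x (L.lab (f j a)) = g0
      · by_cases c2 : κ (L.ter (f j a)) = j + 1 <;> by_cases c3 : κ (P j 0) = j + 1 <;>
          simp [c1, c2, c3] <;> ring
      · simp [c1]

theorem Fs_lift (h : Sch L S' κ r F β J n P f s) (j : {j // j ∈ J}) (m : ℤ) (q : ℕ) (v : Γ) (k : ℕ) :
    Fs (fun e : (V ⊕ ℕ) × ℤ => xc x e.1) (Sum.inr q, m) g0 (lft h (Sum.inr j) m).w v k =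
      Fs (xc x) (Sum.inr q) g0 (d0 h (Sum.inr j)).w v k := by
  classical
  unfold Fs
  refine Finset.sum_congr rfl fun i _ => ?_
  have h1 : Wd (fun e : (V ⊕ ℕ) × ℤ => xc x e.1) (lft h (Sum.inr j) m).w 0 i =
      Wd (xc x) (d0 h (Sum.inr j)).w 0 i :=
    Wd_lift (xc x) (d0 h (Sum.inr j)) del (d0_del h (Sum.inr j)) m 0 i
  rw [h1]
  rcases hu : (d0 h (Sum.inr j)).w i with _ | ⟨e, b⟩
  · have h2 : (lft h (Sum.inr j) m).w i = none := by
      show liftL del ((d0 h (Sum.inr j)).w i) _ = none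
      rw [hu]; rfl
    rw [h2]
    rfl
  · obtain ⟨k', h2⟩ : ∃ k', (lft h (Sum.inr j) m).w i = some ((e, k'), b) := by
      refine ⟨hl del (some (e, b)) (ht (d0 h (Sum.inr j)) del m i), ?_⟩
      show liftL del ((d0 h (Sum.inr j)).w i) _ = _
      rw [hu, liftL_some]
    have h3 : k' = m := (occ_r h j m _ ⟨i, b, h2⟩).1
    subst h3
    rw [h2]
    have h4 : ((e, k') : (V ⊕ ℕ) × ℤ) = (Sum.inr q, k') ↔ e = Sum.inr q :=
      ⟨fun h5 => (Prod.mk.inj h5).1, fun h5 => by rw [h5]⟩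
    cases b
    · rw [fo_f, fo_f]
      congr 1
      exact if_congr (and_congr_left' h4) rfl rfl
    · rw [fo_t, fo_t]
      exact if_congr (and_congr_left' h4) rfl rfl

end fox

theorem rl_gen (L : LOG V E) (S' : Set E) : Rl L S' L.gen := fun e _ =>
  Pool.Agent.N819.UD.gen_rel L e

theorem rl_sub (L : LOG V E) (S' : Set E) : Rl L S' (sub L S').gen := fun e he =>
  Pool.Agent.N819.UD.gen_rel (sub L S') ⟨e, he⟩

/-- the top edge cannot be removed -/
theorem fox_D (h : Sch L S' κ r F β J n P f s) (j : {j // j ∈ J}) (m : ℤ)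
    (S : Set (CP (cov (X0 κ) del))) (N : Subgroup (FreeGroup (cov (X0 κ) del).E)) [N.Normal]
    (hN : N ≤ Subgroup.normalClosure (word '' S))
    (hS : ∀ c ∈ S, Wd (fun e : (V ⊕ ℕ) × ℤ => xc L.gen e.1) c.w 0 c.len = 1 ∧
      ¬ Occ c (ye L F J r (Sum.inr j) m)) (γ : CP (cov (X0 κ) del))
    (hc : IsConj (QuotientGroup.mk' N (word γ)) (QuotientGroup.mk' N (word (lft h (Sum.inr j) m)))) :
    Occ γ (ye L F J r (Sum.inr j) m) := by
  classical
  by_contra hγ
  obtain ⟨g0, hg0⟩ := h.cr j.1 j.2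
  have h1 := fox_main (fun e : (V ⊕ ℕ) × ℤ => xc L.gen e.1) (ye L F J r (Sum.inr j) m) S N hN hS γ
    (lft h (Sum.inr j) m) hγ ((Wd_lift (xc L.gen) (d0 h (Sum.inr j)) del (d0_del h (Sum.inr j)) m 0 _).trans
      (xc_d0 L.gen h (rl_gen L S') _)) hc g0
    (L.gen (P j.1 0))
  have h2 := (Fs_lift L.gen g0 h j m (j.1 + 1) (L.gen (P j.1 0)) (lft h (Sum.inr j) m).len).symm.trans h1
  have h3 : Fs (xc L.gen) (Sum.inr (j.1 + 1)) g0 (d0 h (Sum.inr j)).w (L.gen (P j.1 0))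
      (lft h (Sum.inr j) m).len = Fs (xc L.gen) (Sum.inr (j.1 + 1)) g0
        (du κ (κ (P j.1 0)) (fun i => L.lab (f j.1 i)) (fun i => L.ter (f j.1 i))
          (fun i => decide (s j.1 i = 1))) (L.gen (P j.1 0)) (4 * n j.1) := by
    unfold Fs
    refine Finset.sum_congr rfl fun i hi => ?_
    have hi' : i < 4 * n j.1 := Finset.mem_range.1 hi
    have h4 : (d0 h (Sum.inr j)).w i = du κ (κ (P j.1 0)) (fun i => L.lab (f j.1 i))
        (fun i => L.ter (f j.1 i)) (fun i => decide (s j.1 i = 1)) i := by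
      show du κ (κ (P j.1 0)) (fun i => L.lab (f j.1 i)) (fun i => L.ter (f j.1 i))
        (fun i => decide (s j.1 i = 1)) (i % (4 * n j.1)) = _
      rw [Nat.mod_eq_of_lt hi']
    have h5 : Wd (xc L.gen) (d0 h (Sum.inr j)).w 0 i = Wd (xc L.gen) (du κ (κ (P j.1 0))
        (fun i => L.lab (f j.1 i)) (fun i => L.ter (f j.1 i)) (fun i => decide (s j.1 i = 1))) 0 i :=
      Dc_Wd κ _ (n j.1) (h.pos j.1 j.2) _ _ _ (h.kl j.1 j.2) _ i hi'.le
    rw [h4, h5]
  rw [h3, fox_du L.gen g0 h (rl_gen L S') j.1 j.2 (n j.1) le_rfl] at h2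
  exact hg0 (neg_eq_zero.1 h2)

end Pool.Agent.K9h82.HT
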