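import Pool.Agent.K9h82.HT.Base4

/-!
# Schemes: the groups are locally indicable
-/

set_option autoImplicit false

namespace Pool.Agent.K9h82.HT

open Pool.Agent.TH625.LOG Pool.Agent.N819.LT

variable {V E : Type} {L : LOG V E} {S' : Set E} {κ r : V → ℕ} {F : Set E} {β : ℕ} {J : Set ℕ}
  {n : ℕ → ℕ} {P : ℕ → ℕ → V} {f : ℕ → ℕ → E} {s : ℕ → ℕ → ℤ}

/-- the cells of the covering whose special cells have levels at most `0` -/
abbrev C1 (h : Sch L S' κ r F β J n P f s) : Type :=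
  {x : CC (d0 h) del // x.1.1.isRight = true → x.2 ≤ 0}

/-- their boundaries -/
noncomputable def d1 (h : Sch L S' κ r F β J n P f s) (c : C1 h) : CP (cov (X0 κ) del) :=
  dc (d0 h) del c.1

/-- their ranks -/
noncomputable def rk1 (h : Sch L S' κ r F β J n P f s) (R T : ℤ) (c : C1 h) : ℤ :=
  rc L F J r R T c.1.1.1 c.1.2

theorem d1_eq (h : Sch L S' κ r F β J n P f s) (c : C1 h) : d1 h c = lft h c.1.1.1 c.1.2 := rfl

theorem c1_ne (h : Sch L S' κ r F β J n P f s) (c c' : C1 h) (hne : c' ≠ c) :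
    ¬ (c'.1.1.1 = c.1.1.1 ∧ c'.1.2 = c.1.2) := by
  rintro ⟨h1, h2⟩
  exact hne (Subtype.ext (Prod.ext (Subtype.ext h1) h2))

theorem d1_coc {Γ : Type} [Group Γ] (x : V → Γ) (h : Sch L S' κ r F β J n P f s) (hx : Rl L S' x)
    (c : C1 h) : Wd (fun e : (V ⊕ ℕ) × ℤ => xc x e.1) (d1 h c).w 0 (d1 h c).len = 1 :=
  (Wd_lift (xc x) (d0 h c.1.1.1) del c.1.1.2 c.1.2 0 _).trans (xc_d0 x h hx _)

theorem fox1 (h : Sch L S' κ r F β J n P f s) (R T : ℤ) (hR : ∀ v, (r v : ℤ) ≤ R) (hR0 : 0 ≤ R)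
    (hT : R + β + 1 = T) (c : C1 h) (hc : c.1.1.1.isRight = true) (γ : CP (cov (X0 κ) del))
    (hcj : CJ (d1 h) (rk1 h R T) c γ) :
    Occ γ (ye L F J r c.1.1.1 c.1.2) := by
  obtain ⟨⟨⟨c0, h0⟩, m⟩, hm⟩ := c
  rcases c0 with e | j
  · exact absurd hc (by simp)
  · have hN : (NN (d1 h) (rk1 h R T) (rk1 h R T ⟨⟨⟨Sum.inr j, h0⟩, m⟩, hm⟩)).Normal := NN_normal _ _ _
    refine fox_D (r := r) h j m (d1 h '' {c' | rk1 h R T c' < rk1 h R T ⟨⟨⟨Sum.inr j, h0⟩, m⟩, hm⟩})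
      (NN (d1 h) (rk1 h R T) (rk1 h R T ⟨⟨⟨Sum.inr j, h0⟩, m⟩, hm⟩)) ?_ ?_ γ hcj
    · refine Subgroup.normalClosure_mono ?_
      rintro _ ⟨c', hc', rfl⟩
      exact ⟨d1 h c', ⟨c', hc', rfl⟩, rfl⟩
    · rintro _ ⟨c', hc', rfl⟩
      refine ⟨d1_coc L.gen h (rl_gen L S') c', ?_⟩
      intro hocc
      have hlt : rk1 h R T c' < rk1 h R T ⟨⟨⟨Sum.inr j, h0⟩, m⟩, hm⟩ := hc'
      refine fresh_rank h R T hR hR0 hT (Sum.inr j) c'.1.1.1 m c'.1.2 ?_ hlt.le hocc
      rintro ⟨h1, h2⟩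
      have h3 : rk1 h R T c' = rk1 h R T ⟨⟨⟨Sum.inr j, h0⟩, m⟩, hm⟩ := by
        show rc L F J r R T c'.1.1.1 c'.1.2 = rc L F J r R T (Sum.inr j) m
        rw [h1, h2]
      omega

theorem d1_ind [Fintype V] [Fintype E] (hL : L.Conn)
    (hcard : Fintype.card V = Fintype.card E + 1) (h : Sch L S' κ r F β J n P f s)
    (p : ℕ) [Fact p.Prime] : LinearIndependent (ZMod p)
      (fun c : C1 h => fun e : (cov (X0 κ) del).E => ((ex (d1 h c) e : ℤ) : ZMod p)) := by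
  have h1 := ind_cov (d := d0 h) del p (d0_ind h hL hcard p)
  have h2 := h1.comp (fun c : C1 h => c.1) Subtype.val_injective
  exact h2

set_option maxHeartbeats 400000 in
/-- the complex with special cells -/
noncomputable def pre [Fintype V] [Fintype E] (hL : L.Conn)
    (hcard : Fintype.card V = Fintype.card E + 1) (h : Sch L S' κ r F β J n P f s) (R T : ℤ)
    (hR : ∀ v, (r v : ℤ) ≤ R) (hR0 : 0 ≤ R) (hT : R + β + 1 = T) :
    Pre (cov (X0 κ) del) (C1 h) (d1 h) where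
  rkE := re r R T
  rkC := rk1 h R T
  yc c := ye L F J r c.1.1.1 c.1.2
  Sp c := c.1.1.1.isRight = true
  le c e he := le_rank h R T hR hT c.1.1.1 c.1.2 e he
  top c := by
    by_cases hc : c.1.1.1.isRight = true
    · exact fox1 h R T hR hR0 hT c hc (d1 h c) (CJ_refl _ _ _)
    · obtain ⟨⟨⟨c0, h0⟩, m⟩, hm⟩ := c
      rcases c0 with e | j
      · exact top_T h e m
      · exact absurd rfl hc
  rky c := by
    obtain ⟨⟨⟨c0, h0⟩, m⟩, hm⟩ := c
    rcases c0 with e | j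
    · rfl
    · show -m * T + (R + ((j.1 + 1 : ℕ) : ℤ)) = -m * T + (R + ((j.1 : ℤ) + 1))
      push_cast
      rfl
  fresh c c' hne hle hocc := fresh_rank h R T hR hR0 hT c.1.1.1 c'.1.1.1 c.1.2 c'.1.2
    (c1_ne h c c' hne) hle hocc
  only c hc e he hr := by
    obtain ⟨⟨⟨c0, h0⟩, m⟩, hm⟩ := c
    rcases c0 with e0 | j
    · exact absurd hc (by simp)
    · exact only_rank h R T hR j m e he hr
  ind p _ := d1_ind hL hcard h p
  spec c hc := by
    obtain ⟨⟨⟨c0, h0⟩, m⟩, hm⟩ := c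
    rcases c0 with e0 | j
    · exact absurd hc (by simp)
    · have hm' : m ≤ 0 := hm rfl
      show 0 ≤ -m * T + (R + ((j.1 : ℤ) + 1))
      have h1 : 0 ≤ -m * T := mul_nonneg (by omega) (by omega)
      omega
  nred c hc i k y b h1 h2 hr := by
    obtain ⟨⟨⟨c0, h0⟩, m⟩, hm⟩ := c
    rcases c0 with e0 | j
    · exact nred_rank h R T hR hR0 hT e0 m i k y b h1 h2 hr
    · exact hc rfl
  fox c hc γ _ hcj := fox1 h R T hR hR0 hT c hc γ hcj

/-- **The group of a scheme is locally indicable.** -/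
theorem sch_li [Fintype V] [Fintype E] (hL : L.Conn)
    (hcard : Fintype.card V = Fintype.card E + 1) (h : Sch L S' κ r F β J n P f s) :
    LocInd (sub L S').G := by
  classical
  obtain ⟨R, hR, hR0⟩ : ∃ R : ℤ, (∀ v, (r v : ℤ) ≤ R) ∧ 0 ≤ R := by
    refine ⟨((Finset.univ.sup r : ℕ) : ℤ), fun v => ?_, Int.natCast_nonneg _⟩
    exact_mod_cast Finset.le_sup (f := r) (Finset.mem_univ v)

  let K := pre hL hcard h R (R + β + 1) hR hR0 rfl
  refine locInd_base (QuotientGroup.mk' (Subgroup.normalClosure (Set.range (sub L S').rel)))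
    (QuotientGroup.mk'_surjective _) (X0 κ) (C0 F J) (d0 h) del (xc (sub L S').gen) (d0_del h)
    (tht κ) ?_ (tht_mem h) (fun c => c.isRight = true) (C1 h) (rd K) K.cls ?_ ?_
  · intro u
    refine ⟨pc κ u.toWord, ?_, ?_⟩
    · have h1 := pc_Wd κ u.toWord (fun e => (FreeGroup.of e : FreeGroup (V ⊕ ℕ)))
      rw [FreeGroup.mk_toWord] at h1
      exact h1
    · have h1 := pc_Wd κ u.toWord (xc (sub L S').gen)
      rw [FreeGroup.mk_toWord] at h1
      rw [h1]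
      have h2 : (FreeGroup.lift fun v => Lt (xc (sub L S').gen) (yl V (κ v) true) *
          (xc (sub L S').gen) (Sum.inl v)) =
          QuotientGroup.mk' (Subgroup.normalClosure (Set.range (sub L S').rel)) := by
        apply FreeGroup.ext_hom
        intro v
        rw [FreeGroup.lift_apply_of, Lt_yl _ _ _ fun _ => rfl, one_mul]
        rfl
      exact DFunLike.congr_fun h2 u
  · intro c m hm
    exact rd_ncl' K ⟨(⟨c, d0_del h c⟩, m), hm⟩
  · exact rd_coc K _ (d1_coc (sub L S').gen h (rl_sub L S'))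

end Pool.Agent.K9h82.HT
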