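import Pool.Agent.K9h82.HT.MC2

/-!
# Infinite cyclic coverings
-/

set_option autoImplicit false

namespace Pool.Agent.K9h82.HT

/-- the infinite cyclic covering of a graph -/
abbrev cov (X : Gr) (φ : X.E → ℤ) : Gr where
  V := X.V × ℤ
  E := X.E × ℤ
  src e := (X.src e.1, e.2)
  tgt e := (X.tgt e.1, e.2 + φ e.1)

section

variable {E : Type}

/-- the height of the lift of a letter which starts at the height `h` -/
def hl (φ : E → ℤ) (o : Option (E × Bool)) (h : ℤ) : ℤ :=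
  match o with
  | none => h
  | some (_, true) => h
  | some (e, false) => h - φ e

/-- the lift of a letter -/
def liftL (φ : E → ℤ) (o : Option (E × Bool)) (h : ℤ) : Option ((E × ℤ) × Bool) :=
  match o with
  | none => none
  | some (e, true) => some ((e, h), true)
  | some (e, false) => some ((e, h - φ e), false)

theorem liftL_some (φ : E → ℤ) (e : E) (b : Bool) (h : ℤ) :
    liftL φ (some (e, b)) h = some ((e, hl φ (some (e, b)) h), b) := by
  cases b <;> rfl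

theorem liftL_eq {φ : E → ℤ} {o : Option (E × Bool)} {h : ℤ} {e : E × ℤ} {b : Bool}
    (h1 : liftL φ o h = some (e, b)) : o = some (e.1, b) ∧ e.2 = hl φ o h := by
  rcases o with _ | ⟨e', b'⟩
  · exact absurd h1 (by simp [liftL])
  · rw [liftL_some, Option.some.injEq, Prod.mk.injEq] at h1
    obtain ⟨h2, h3⟩ := h1
    subst h2 h3
    exact ⟨rfl, rfl⟩

theorem hl_add (φ : E → ℤ) (o : Option (E × Bool)) (m h : ℤ) : hl φ o (m + h) = m + hl φ o h := by
  rcases o with _ | ⟨e', b'⟩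
  · rfl
  · cases b'
    · show m + h - φ e' = m + (h - φ e'); ring
    · rfl

theorem La_liftL (φ : E → ℤ) (o : Option (E × Bool)) (h : ℤ) (e : E) (k : ℤ) :
    La (dl ℤ (e, k)) (liftL φ o h) = if hl φ o h = k then La (dl ℤ e) o else 0 := by
  rcases o with _ | ⟨e', b'⟩
  · simp [liftL, La]
  · rw [liftL_some]
    have h1 : dl ℤ (e, k) (e', hl φ (some (e', b')) h) =
        if hl φ (some (e', b')) h = k then dl ℤ e e' else 0 := by
      by_cases h2 : hl φ (some (e', b')) h = k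
      · rw [if_pos h2, h2]
        by_cases h3 : e' = e
        · subst h3; rw [dl_self, dl_self]
        · rw [dl_ne h3, dl_ne fun h4 => h3 (Prod.mk.inj h4).1]
      · rw [if_neg h2, dl_ne fun h4 => h2 (Prod.mk.inj h4).2]
    cases b'
    · show -dl ℤ (e, k) (e', hl φ (some (e', false)) h) = if _ then - dl ℤ e e' else 0
      rw [h1]
      split_ifs <;> simp
    · exact h1

end

variable {X : Gr}

/-- the height at the position `i` -/
def ht (γ : CP X) (φ : X.E → ℤ) (m : ℤ) (i : ℕ) : ℤ := m + Sa φ γ.w 0 i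

theorem ht_succ (γ : CP X) (φ : X.E → ℤ) (m : ℤ) (i : ℕ) :
    ht γ φ m (i + 1) = ht γ φ m i + La φ (γ.w i) := by
  unfold ht
  rw [Sa_succ, Nat.zero_add]
  ring

theorem ht_per (γ : CP X) (φ : X.E → ℤ) (h0 : Sa φ γ.w 0 γ.len = 0) (m : ℤ) (i : ℕ) :
    ht γ φ m (i + γ.len) = ht γ φ m i := by
  unfold ht
  rw [Sa_add, Nat.zero_add, Sa_per φ γ.perw, h0, add_zero]

/-- the lift of a closed path -/
def CP.lift (γ : CP X) (φ : X.E → ℤ) (h0 : Sa φ γ.w 0 γ.len = 0) (m : ℤ) : CP (cov X φ) where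
  vx i := (γ.vx i, ht γ φ m i)
  w i := liftL φ (γ.w i) (ht γ φ m i)
  len := γ.len
  pos := γ.pos
  perw i := by rw [γ.perw, ht_per γ φ h0]
  perv i := by rw [γ.perv, ht_per γ φ h0]
  adj i := by
    have h1 := γ.adj i
    have h2 := ht_succ γ φ m i
    rcases hu : γ.w i with _ | ⟨e, b⟩
    · rw [hu] at h1 h2
      have h3 : γ.vx i = γ.vx (i + 1) := h1
      have h4 : La φ (none : Option (X.E × Bool)) = 0 := rfl
      rw [h4, add_zero] at h2
      show ((γ.vx i, ht γ φ m i) : X.V × ℤ) = (γ.vx (i + 1), ht γ φ m (i + 1))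
      rw [h3, h2]
    · rw [hu] at h1 h2
      cases b
      · obtain ⟨h3, h4⟩ : γ.vx i = X.tgt e ∧ γ.vx (i + 1) = X.src e := h1
        have h5 : ht γ φ m (i + 1) = ht γ φ m i + -φ e := h2
        show ((γ.vx i, ht γ φ m i) : X.V × ℤ) = (X.tgt e, ht γ φ m i - φ e + φ e) ∧
          ((γ.vx (i + 1), ht γ φ m (i + 1)) : X.V × ℤ) = (X.src e, ht γ φ m i - φ e)
        rw [h3, h4, h5]
        exact ⟨by rw [sub_add_cancel], by rw [sub_eq_add_neg]⟩
      · obtain ⟨h3, h4⟩ : γ.vx i = X.src e ∧ γ.vx (i + 1) = X.tgt e := h1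
        have h5 : ht γ φ m (i + 1) = ht γ φ m i + φ e := h2
        show ((γ.vx i, ht γ φ m i) : X.V × ℤ) = (X.src e, ht γ φ m i) ∧
          ((γ.vx (i + 1), ht γ φ m (i + 1)) : X.V × ℤ) = (X.tgt e, ht γ φ m i + φ e)
        rw [h3, h4, h5]
        exact ⟨rfl, rfl⟩

theorem lift_w (γ : CP X) (φ : X.E → ℤ) (h0 : Sa φ γ.w 0 γ.len = 0) (m : ℤ) (i : ℕ) :
    (γ.lift φ h0 m).w i = liftL φ (γ.w i) (ht γ φ m i) := rfl

theorem Wd_lift {Γ : Type*} [Group Γ] (τ : X.E → Γ) (γ : CP X) (φ : X.E → ℤ)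
    (h0 : Sa φ γ.w 0 γ.len = 0) (m : ℤ) (a k : ℕ) :
    Wd (fun e : X.E × ℤ => τ e.1) (γ.lift φ h0 m).w a k = Wd τ γ.w a k := by
  induction k with
  | zero => rfl
  | succ k ih =>
    rw [Wd_succ, Wd_succ, ih, lift_w]
    congr 1
    rcases γ.w (a + k) with _ | ⟨e, b⟩
    · rfl
    · cases b <;> rfl

theorem occ_lift {γ : CP X} {φ : X.E → ℤ} {h0 : Sa φ γ.w 0 γ.len = 0} {m : ℤ} {e : X.E × ℤ}
    (h : Occ (γ.lift φ h0 m) e) : Occ γ e.1 := by
  obtain ⟨i, b, hu⟩ := h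
  exact ⟨i, b, (liftL_eq hu).1⟩

theorem occ_shift {γ : CP X} {φ : X.E → ℤ} {h0 : Sa φ γ.w 0 γ.len = 0} {m : ℤ} {e : X.E} {k : ℤ} :
    Occ (γ.lift φ h0 m) (e, k) ↔ ∃ i < γ.len, ∃ b, γ.w i = some (e, b) ∧
      k = m + hl φ (γ.w i) (Sa φ γ.w 0 i) := by
  constructor
  · intro h
    obtain ⟨i, hi, b, hu⟩ := h.lt
    obtain ⟨h1, h2⟩ := liftL_eq hu
    refine ⟨i, hi, b, h1, ?_⟩
    rw [← hl_add]
    exact h2
  · rintro ⟨i, hi, b, h1, h2⟩
    refine ⟨i, b, ?_⟩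
    rw [lift_w, h1, liftL_some, h2, ← hl_add, h1]
    rfl

variable {C : Type} {d : C → CP X}

/-- the cells of the covering -/
abbrev CC (d : C → CP X) (φ : X.E → ℤ) : Type := {c : C // Sa φ (d c).w 0 (d c).len = 0} × ℤ

/-- the boundaries of the cells of the covering -/
def dc (d : C → CP X) (φ : X.E → ℤ) (c : CC d φ) : CP (cov X φ) := (d c.1.1).lift φ c.1.2 c.2

theorem choose_dir (M : Finset ℤ) (hM : M.Nonempty) (z : Option ℤ) :
    ∃ m ∈ M, ∃ ε : ℤ, ∀ m', m' ∈ M ∨ z = some m' → m' ≠ m → ε * m' < ε * m := by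
  by_cases h : ∃ x, z = some x ∧ M.min' hM < x
  · obtain ⟨x, hx, hlt⟩ := h
    refine ⟨M.min' hM, M.min'_mem hM, -1, ?_⟩
    rintro m' (h1 | h1) hne
    · have := M.min'_le m' h1
      omega
    · rw [hx, Option.some.injEq] at h1
      omega
  · push Not at h
    refine ⟨M.max' hM, M.max'_mem hM, 1, ?_⟩
    rintro m' (h1 | h1) hne
    · have := M.le_max' m' h1
      omega
    · have h2 := h m' h1
      have h3 := M.le_max' _ (M.min'_mem hM)
      omega

theorem upd_cov (K : Cls X C d) (φ : X.E → ℤ) (j : ℤ) (T : Finset (CC d φ)) (D : Option (CC d φ))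
    (hT : T.Nonempty) (hTj : ∀ c ∈ T, K.rkC c.1.1 = j)
    (hD : ∀ c, D = some c → c ∉ T ∧ K.rkC c.1.1 ≤ j) :
    ∃ c ∈ T, ∃ y, Occ (dc d φ c) y ∧ K.rkE y.1 = j ∧
      ∀ c', c' ∈ T ∨ D = some c' → c' ≠ c → ¬ Occ (dc d φ c') y := by
  classical
  set T0 : Finset C := T.image fun c => c.1.1 with hT0
  set D0 : Option C := (D.filter fun c => decide (c.1.1 ∉ T0)).map fun c => c.1.1 with hD0
  obtain ⟨c, hc, y, hy1, hy2, hy3⟩ := K.upd j T0 D0 (hT.image _) (by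
      intro c hc
      obtain ⟨x, hx, rfl⟩ := Finset.mem_image.1 hc
      exact hTj x hx) (by
      intro c hc
      rw [hD0, Option.map_eq_some_iff] at hc
      obtain ⟨x, hx, rfl⟩ := hc
      rw [Option.filter_eq_some_iff] at hx
      exact ⟨of_decide_eq_true hx.2, (hD x hx.1).2⟩)
  have hA : ∀ x, x ∈ T ∨ D = some x → x.1.1 ≠ c → ¬ Occ (d x.1.1) y := by
    rintro x (hx | hx) hne
    · exact hy3 _ (Or.inl (Finset.mem_image_of_mem _ hx)) hne
    · by_cases h1 : x.1.1 ∈ T0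
      · exact hy3 _ (Or.inl h1) hne
      · refine hy3 _ (Or.inr ?_) hne
        rw [hD0, Option.map_eq_some_iff]
        exact ⟨x, Option.filter_eq_some_iff.2 ⟨hx, decide_eq_true h1⟩, rfl⟩
  set M : Finset ℤ := (T.filter fun x => x.1.1 = c).image fun x => x.2 with hM
  have hMn : M.Nonempty := by
    obtain ⟨x, hx, hxc⟩ := Finset.mem_image.1 hc
    exact ⟨x.2, Finset.mem_image_of_mem _ (Finset.mem_filter.2 ⟨hx, hxc⟩)⟩
  set z : Option ℤ := (D.filter fun x => decide (x.1.1 = c)).map fun x => x.2 with hz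
  obtain ⟨m, hm, ε, hε⟩ := choose_dir M hMn z
  obtain ⟨x, hx, hxm⟩ := Finset.mem_image.1 hm
  rw [Finset.mem_filter] at hx
  obtain ⟨hxT, hxc⟩ := hx
  -- the offsets of `y`
  obtain ⟨i0, hi0, b0, hu0⟩ := hy1.lt
  obtain ⟨i1, hi1, hmax⟩ := Finset.exists_max_image
    ((Finset.range (d c).len).filter fun i => ∃ b, (d c).w i = some (y, b))
    (fun i => ε * hl φ ((d c).w i) (Sa φ (d c).w 0 i))
    ⟨i0, Finset.mem_filter.2 ⟨Finset.mem_range.2 hi0, b0, hu0⟩⟩
  rw [Finset.mem_filter, Finset.mem_range] at hi1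
  obtain ⟨hi1, b1, hu1⟩ := hi1
  subst hxc
  refine ⟨x, hxT, (y, x.2 + hl φ ((d x.1.1).w i1) (Sa φ (d x.1.1).w 0 i1)),
    occ_shift.2 ⟨i1, hi1, b1, hu1, rfl⟩, hy2, ?_⟩
  intro x' hx' hne hocc
  by_cases hcc : x'.1.1 = x.1.1
  · obtain ⟨⟨c', hc'⟩, m'⟩ := x'
    have hcc' : c' = x.1.1 := hcc
    subst hcc'
    obtain ⟨i2, hi2, b2, hu2, h2⟩ := occ_shift.1 hocc
    have h3 := hmax i2 (Finset.mem_filter.2 ⟨Finset.mem_range.2 hi2, b2, hu2⟩)
    have h4 : m' ≠ m := by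
      intro h5
      apply hne
      refine Prod.ext rfl ?_
      show m' = x.2
      rw [h5, hxm]
    have h5 : m' ∈ M ∨ z = some m' := by
      rcases hx' with h6 | h6
      · exact Or.inl (Finset.mem_image.2 ⟨_, Finset.mem_filter.2 ⟨h6, rfl⟩, rfl⟩)
      · refine Or.inr ?_
        rw [hz, Option.map_eq_some_iff]
        exact ⟨_, Option.filter_eq_some_iff.2 ⟨h6, decide_eq_true rfl⟩, rfl⟩
    have h6 := hε m' h5 h4
    have hxm' : x.2 = m := hxm
    rw [hxm'] at h2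
    have h7 : ε * (m + hl φ ((d x.1.1).w i1) (Sa φ (d x.1.1).w 0 i1)) =
        ε * (m' + hl φ ((d x.1.1).w i2) (Sa φ (d x.1.1).w 0 i2)) := by rw [h2]
    rw [mul_add, mul_add] at h7
    linarith
  · exact hA x' hx' hcc (occ_lift hocc)

end Pool.Agent.K9h82.HT
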