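import Pool.Agent.K9h82.HT.Cov

/-!
# Independence in coverings
-/

set_option autoImplicit false

namespace Pool.Agent.K9h82.HT

open Polynomial

theorem poly_ind {R ι κ : Type*} [Field R] (T : Finset ι) (W : ι → κ → R[X])
    (h : ∀ r : ι → R, (∀ e, ∑ c ∈ T, r c * (W c e).eval 1 = 0) → ∀ c ∈ T, r c = 0) :
    ∀ (L : ι → R[X]), (∀ e, ∑ c ∈ T, L c * W c e = 0) → ∀ c ∈ T, L c = 0 := by
  have key : ∀ (k : ℕ) (L : ι → R[X]), (∀ e, ∑ c ∈ T, L c * W c e = 0) →
      ∃ L' : ι → R[X], (∀ c ∈ T, L c = (X - C 1) ^ k * L' c) ∧ ∀ e, ∑ c ∈ T, L' c * W c e = 0 := by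
    intro k
    induction k with
    | zero => intro L hL; exact ⟨L, fun c _ => by rw [pow_zero, one_mul], hL⟩
    | succ k ih =>
      intro L hL
      obtain ⟨L1, h1, h2⟩ := ih L hL
      have h3 := h (fun c => (L1 c).eval 1) (fun e => by
        have := congrArg (eval (1 : R)) (h2 e)
        rw [eval_finsetSum, eval_zero] at this
        simpa only [eval_mul] using this)
      have h4 : ∀ c ∈ T, (X - C 1) ∣ L1 c := fun c hc => dvd_iff_isRoot.2 (h3 c hc)
      have h5 : ∀ c, ∃ q, c ∈ T → L1 c = (X - C 1) * q := by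
        intro c
        by_cases hc : c ∈ T
        · obtain ⟨q, hq⟩ := h4 c hc
          exact ⟨q, fun _ => hq⟩
        · exact ⟨0, fun h => absurd h hc⟩
      choose L2 hL2 using h5
      refine ⟨L2, fun c hc => by rw [h1 c hc, hL2 c hc, pow_succ, mul_assoc], fun e => ?_⟩
      have h6 : (X - C (1 : R)) * ∑ c ∈ T, L2 c * W c e = 0 := by
        rw [← h2 e, Finset.mul_sum]
        refine Finset.sum_congr rfl fun c hc => ?_
        rw [hL2 c hc, mul_assoc]
      exact (mul_eq_zero.1 h6).resolve_left (X_sub_C_ne_zero 1)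
  intro L hL c hc
  by_contra hne
  obtain ⟨L', h1, -⟩ := key ((L c).natDegree + 1) L hL
  have h2 := h1 c hc
  have h3 : L' c ≠ 0 := fun h4 => hne (by rw [h2, h4, mul_zero])
  have h4 := congrArg natDegree h2
  rw [natDegree_mul (pow_ne_zero _ (X_sub_C_ne_zero 1)) h3, natDegree_pow, natDegree_X_sub_C] at h4
  omega

variable {Y : Gr} {C' : Type} {d : C' → CP Y}

theorem ind_cov (φ : Y.E → ℤ) (p : ℕ) [Fact p.Prime]
    (hind : LinearIndependent (ZMod p) (fun c : C' => fun e : Y.E => ((ex (d c) e : ℤ) : ZMod p))) :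
    LinearIndependent (ZMod p)
      (fun c : CC d φ => fun e : (cov Y φ).E => ((ex (dc d φ c) e : ℤ) : ZMod p)) := by
  classical
  rw [linearIndependent_iff']
  intro s g hg
  -- the cells below
  set T := s.image fun x => x.1 with hT
  -- the shifts
  obtain ⟨M, hM⟩ : ∃ M : ℕ, ∀ x ∈ s, 0 ≤ x.2 + M := by
    obtain ⟨M, hM⟩ := (s.image fun x => (-x.2).toNat).bddAbove
    refine ⟨M, fun x hx => ?_⟩
    have := hM (Finset.mem_coe.2 (Finset.mem_image_of_mem _ hx))
    have h2 : (-x.2).toNat ≤ M := this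
    omega
  let hh : C' → ℕ → ℤ := fun c i => hl φ ((d c).w i) (Sa φ (d c).w 0 i)
  obtain ⟨N, hN⟩ : ∃ N : ℕ, ∀ c ∈ T, ∀ i < (d c.1).len, 0 ≤ hh c.1 i + N := by
    obtain ⟨M, hM⟩ := (T.biUnion fun c => (Finset.range (d c.1).len).image
      fun i => (-(hh c.1 i)).toNat).bddAbove
    refine ⟨M, fun c hc i hi => ?_⟩
    have := hM (Finset.mem_coe.2 (Finset.mem_biUnion.2 ⟨c, hc,
      Finset.mem_image_of_mem _ (Finset.mem_range.2 hi)⟩))
    have h2 : (-(hh c.1 i)).toNat ≤ M := this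
    omega
  let W : {c : C' // Sa φ (d c).w 0 (d c).len = 0} → Y.E → (ZMod p)[X] := fun c e =>
    ∑ i ∈ Finset.range (d c.1).len, C ((La (dl ℤ e) ((d c.1).w i) : ℤ) : ZMod p) *
      X ^ (hh c.1 i + N).toNat
  let L : {c : C' // Sa φ (d c).w 0 (d c).len = 0} → (ZMod p)[X] := fun c =>
    ∑ x ∈ s.filter (fun x => x.1 = c), C (g x) * X ^ (x.2 + M).toNat
  have hW1 : ∀ c e, (W c e).eval 1 = ((ex (d c.1) e : ℤ) : ZMod p) := by
    intro c e
    show (∑ i ∈ Finset.range (d c.1).len, C ((La (dl ℤ e) ((d c.1).w i) : ℤ) : ZMod p) *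
      X ^ (hh c.1 i + N).toNat : (ZMod p)[X]).eval 1 = _
    rw [eval_finsetSum]
    unfold ex Sa
    rw [Int.cast_sum]
    refine Finset.sum_congr rfl fun i _ => ?_
    rw [eval_mul, eval_C, eval_pow, eval_X, one_pow, mul_one, Nat.zero_add]
  have hmain : ∀ e, ∑ c ∈ T, L c * W c e = 0 := by
    intro e
    ext n
    have h1 : ∑ c ∈ T, L c * W c e = ∑ x ∈ s, C (g x) * X ^ (x.2 + M).toNat * W x.1 e := by
      have h2 : ∀ c ∈ T, L c * W c e =
          ∑ x ∈ s.filter (fun x => x.1 = c), C (g x) * X ^ (x.2 + M).toNat * W x.1 e := by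
        intro c _
        show (∑ x ∈ s.filter (fun x => x.1 = c), C (g x) * X ^ (x.2 + M).toNat) * W c e = _
        rw [Finset.sum_mul]
        refine Finset.sum_congr rfl fun x hx => ?_
        rw [(Finset.mem_filter.1 hx).2]
      rw [Finset.sum_congr rfl h2]
      exact Finset.sum_fiberwise_of_maps_to (fun x hx => Finset.mem_image_of_mem _ hx) _
    rw [h1, finsetSum_coeff, coeff_zero]
    have h3 : ∑ x ∈ s, g x * ((ex (dc d φ x) (e, (n : ℤ) - M - N) : ℤ) : ZMod p) = 0 := by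
      have h3 := congrFun hg (e, (n : ℤ) - M - N)
      rw [Finset.sum_apply] at h3
      exact h3
    rw [← h3]
    refine Finset.sum_congr rfl fun x hx => ?_
    rw [mul_assoc, coeff_C_mul]
    congr 1
    show (X ^ (x.2 + M).toNat * ∑ i ∈ Finset.range (d x.1.1).len,
      C ((La (dl ℤ e) ((d x.1.1).w i) : ℤ) : ZMod p) * X ^ (hh x.1.1 i + N).toNat :
        (ZMod p)[X]).coeff n = _
    have h4 : ((ex (dc d φ x) (e, (n : ℤ) - M - N) : ℤ) : ZMod p) =
        ∑ i ∈ Finset.range (d x.1.1).len,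
          if x.2 + hh x.1.1 i = (n : ℤ) - M - N then
            ((La (dl ℤ e) ((d x.1.1).w i) : ℤ) : ZMod p) else 0 := by
      unfold ex Sa
      rw [Int.cast_sum]
      refine Finset.sum_congr rfl fun i _ => ?_
      show ((La (dl ℤ (e, (n : ℤ) - M - N)) (liftL φ ((d x.1.1).w (0 + i))
        (x.2 + Sa φ (d x.1.1).w 0 (0 + i))) : ℤ) : ZMod p) = _
      rw [La_liftL, hl_add, Nat.zero_add]
      by_cases h5 : x.2 + hh x.1.1 i = (n : ℤ) - M - N
      · rw [if_pos h5, if_pos h5]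
      · rw [if_neg h5, if_neg h5, Int.cast_zero]
    refine Eq.trans ?_ h4.symm
    rw [Finset.mul_sum, finsetSum_coeff]
    refine Finset.sum_congr rfl fun i hi => ?_
    have h5 := hM x hx
    have h6 := hN x.1 (Finset.mem_image_of_mem _ hx) i (Finset.mem_range.1 hi)
    rw [← mul_assoc, mul_comm (X ^ (x.2 + M).toNat) (C _), mul_assoc, ← pow_add, coeff_C_mul,
      coeff_X_pow]
    by_cases h7 : x.2 + hh x.1.1 i = (n : ℤ) - M - N
    · rw [if_pos h7, if_pos (by omega), mul_one]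
    · rw [if_neg h7, if_neg (by omega), mul_zero]
  have hbase : ∀ r : {c : C' // Sa φ (d c).w 0 (d c).len = 0} → ZMod p,
      (∀ e, ∑ c ∈ T, r c * (W c e).eval 1 = 0) → ∀ c ∈ T, r c = 0 := by
    intro r hr
    have h1 := hind.comp (fun c : {c : C' // Sa φ (d c).w 0 (d c).len = 0} => c.1)
      Subtype.val_injective
    rw [linearIndependent_iff'] at h1
    refine h1 T r ?_
    funext e
    rw [Finset.sum_apply, Pi.zero_apply, ← hr e]
    refine Finset.sum_congr rfl fun c _ => ?_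
    rw [hW1]
    rfl
  intro x hx
  have h1 := poly_ind T W hbase L hmain x.1 (Finset.mem_image_of_mem _ hx)
  have h2 := congrArg (fun q => coeff q (x.2 + M).toNat) h1
  simp only [coeff_zero] at h2
  have h3 : (L x.1).coeff (x.2 + M).toNat = g x := by
    show (∑ x' ∈ s.filter (fun x' => x'.1 = x.1), C (g x') * X ^ (x'.2 + M).toNat :
      (ZMod p)[X]).coeff _ = _
    have hxm : x ∈ s.filter (fun x' => x'.1 = x.1) := Finset.mem_filter.2 ⟨hx, rfl⟩
    rw [finsetSum_coeff, Finset.sum_eq_single_of_mem x hxm]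
    · rw [coeff_C_mul, coeff_X_pow, if_pos rfl, mul_one]
    · intro x' hx' hne
      rw [Finset.mem_filter] at hx'
      rw [coeff_C_mul, coeff_X_pow, if_neg, mul_zero]
      intro h4
      apply hne
      refine Prod.ext hx'.2 ?_
      have h5 := hM x hx
      have h6 := hM x' hx'.1
      omega
  rw [← h3]
  exact h2

/-- the class is closed under infinite cyclic coverings -/
noncomputable def Cls.cover (K : Cls Y C' d) (φ : Y.E → ℤ) :
    Cls (cov Y φ) (CC d φ) (dc d φ) where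
  rkE e := K.rkE e.1
  rkC c := K.rkC c.1.1
  le c e h := K.le c.1.1 e.1 (occ_lift h)
  upd j T D hT hTj hD := upd_cov K φ j T D hT hTj hD
  ind p _ := ind_cov φ p (K.ind p)
  red c i k y b hk hkl h1 h2 hrk hin := by
    obtain ⟨Γ, _, τ, hτ, h3⟩ := K.red c.1.1 i k y.1 b hk hkl (liftL_eq h1).1 (liftL_eq h2).1 hrk (by
      intro m hm hmk e b' hu
      refine hin m hm hmk (e, hl φ (some (e, b')) (ht (d c.1.1) φ c.2 (i + m))) b' ?_
      show liftL φ ((d c.1.1).w (i + m)) _ = _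
      rw [hu, liftL_some])
    refine ⟨Γ, inferInstance, fun e => τ e.1, fun c' hc' =>
      (Wd_lift τ (d c'.1.1) φ c'.1.2 c'.2 0 _).trans (hτ c'.1.1 hc'), fun h4 => h3 ?_⟩
    rw [← h4]
    exact (Wd_lift τ (d c.1.1) φ c.1.2 c.2 _ _).symm

end Pool.Agent.K9h82.HT
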