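import Mathlib

/-!
# Graphs, closed paths and cochains
-/

set_option autoImplicit false

namespace Pool.Agent.K9h82.HT

/-- a directed graph -/
structure Gr where
  V : Type
  E : Type
  src : E → V
  tgt : E → V

/-- the letter `o` leads from `a` to `b` (`none` is the empty letter) -/
def Adj (X : Gr) (a : X.V) (o : Option (X.E × Bool)) (b : X.V) : Prop :=
  match o with
  | none => a = b
  | some (e, true) => a = X.src e ∧ b = X.tgt e
  | some (e, false) => a = X.tgt e ∧ b = X.src e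

/-- a closed path as a periodic sequence of letters -/
structure CP (X : Gr) where
  vx : ℕ → X.V
  w : ℕ → Option (X.E × Bool)
  len : ℕ
  pos : 0 < len
  perw : ∀ i, w (i + len) = w i
  perv : ∀ i, vx (i + len) = vx i
  adj : ∀ i, Adj X (vx i) (w i) (vx (i + 1))

section

variable {E : Type} {Γ : Type*} [Group Γ] {M : Type*} [AddCommGroup M]

/-- the value of a letter -/
def Lt (φ : E → Γ) : Option (E × Bool) → Γ
  | none => 1
  | some (e, true) => φ e
  | some (e, false) => (φ e)⁻¹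

/-- the value of a letter, additively -/
def La (φ : E → M) : Option (E × Bool) → M
  | none => 0
  | some (e, true) => φ e
  | some (e, false) => -φ e

/-- the product of `k` letters from the position `a` on -/
def Wd (φ : E → Γ) (u : ℕ → Option (E × Bool)) (a : ℕ) : ℕ → Γ
  | 0 => 1
  | k + 1 => Wd φ u a k * Lt φ (u (a + k))

/-- the sum of `k` letters from the position `a` on -/
def Sa (φ : E → M) (u : ℕ → Option (E × Bool)) (a k : ℕ) : M :=
  ∑ i ∈ Finset.range k, La φ (u (a + i))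

theorem Wd_zero (φ : E → Γ) (u : ℕ → Option (E × Bool)) (a : ℕ) : Wd φ u a 0 = 1 := rfl

theorem Wd_succ (φ : E → Γ) (u : ℕ → Option (E × Bool)) (a k : ℕ) :
    Wd φ u a (k + 1) = Wd φ u a k * Lt φ (u (a + k)) := rfl

theorem Wd_add (φ : E → Γ) (u : ℕ → Option (E × Bool)) (a k l : ℕ) :
    Wd φ u a (k + l) = Wd φ u a k * Wd φ u (a + k) l := by
  induction l with
  | zero => rw [Nat.add_zero, Wd_zero, mul_one]
  | succ l ih => rw [← Nat.add_assoc, Wd_succ, Wd_succ, ih, mul_assoc, Nat.add_assoc a k l]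

theorem Sa_zero (φ : E → M) (u : ℕ → Option (E × Bool)) (a : ℕ) : Sa φ u a 0 = 0 := rfl

theorem Sa_succ (φ : E → M) (u : ℕ → Option (E × Bool)) (a k : ℕ) :
    Sa φ u a (k + 1) = Sa φ u a k + La φ (u (a + k)) := Finset.sum_range_succ _ _

theorem Sa_add (φ : E → M) (u : ℕ → Option (E × Bool)) (a k l : ℕ) :
    Sa φ u a (k + l) = Sa φ u a k + Sa φ u (a + k) l := by
  induction l with
  | zero => rw [Nat.add_zero, Sa_zero, add_zero]
  | succ l ih => rw [← Nat.add_assoc, Sa_succ, Sa_succ, ih, add_assoc, Nat.add_assoc a k l]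

theorem Wd_congr {φ ψ : E → Γ} {u : ℕ → Option (E × Bool)} {a k : ℕ}
    (h : ∀ i e b, i < k → u (a + i) = some (e, b) → φ e = ψ e) : Wd φ u a k = Wd ψ u a k := by
  induction k with
  | zero => rfl
  | succ k ih =>
    rw [Wd_succ, Wd_succ, ih fun i e b hi => h i e b (by omega)]
    congr 1
    rcases hu : u (a + k) with _ | ⟨e, b⟩
    · rfl
    · have := h k e b (by omega) hu
      cases b <;> simp only [Lt, this]

theorem Sa_congr {φ ψ : E → M} {u : ℕ → Option (E × Bool)} {a k : ℕ}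
    (h : ∀ i e b, i < k → u (a + i) = some (e, b) → φ e = ψ e) : Sa φ u a k = Sa ψ u a k := by
  unfold Sa
  refine Finset.sum_congr rfl fun i hi => ?_
  rcases hu : u (a + i) with _ | ⟨e, b⟩
  · rfl
  · have := h i e b (Finset.mem_range.1 hi) hu
    cases b <;> simp only [La, this]

theorem Wd_hom {Γ' : Type*} [Group Γ'] (f : Γ →* Γ') (φ : E → Γ) (u : ℕ → Option (E × Bool))
    (a k : ℕ) : f (Wd φ u a k) = Wd (fun e => f (φ e)) u a k := by
  induction k with
  | zero => exact map_one f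
  | succ k ih =>
    rw [Wd_succ, Wd_succ, map_mul, ih]
    congr 1
    rcases u (a + k) with _ | ⟨e, b⟩
    · exact map_one f
    · cases b
      · exact map_inv f _
      · rfl

theorem Wd_mult (φ : E → M) (u : ℕ → Option (E × Bool)) (a k : ℕ) :
    Wd (fun e => Multiplicative.ofAdd (φ e)) u a k = Multiplicative.ofAdd (Sa φ u a k) := by
  induction k with
  | zero => rfl
  | succ k ih =>
    rw [Wd_succ, Sa_succ, ofAdd_add, ih]
    congr 1

theorem La_lin {R : Type*} [Ring R] (r s : R) (φ ψ : E → R) (o : Option (E × Bool)) :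
    La (fun e => r * φ e + s * ψ e) o = r * La φ o + s * La ψ o := by
  rcases o with _ | ⟨e, b⟩
  · simp [La]
  · cases b
    · simp only [La]; rw [mul_neg, mul_neg, neg_add]
    · rfl

theorem Sa_lin {R : Type*} [Ring R] (r s : R) (φ ψ : E → R) (u : ℕ → Option (E × Bool)) (a k : ℕ) :
    Sa (fun e => r * φ e + s * ψ e) u a k = r * Sa φ u a k + s * Sa ψ u a k := by
  unfold Sa
  rw [Finset.mul_sum, Finset.mul_sum, ← Finset.sum_add_distrib]
  exact Finset.sum_congr rfl fun i _ => La_lin r s φ ψ _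

open Classical in
/-- the indicator cochain -/
noncomputable def dl (R : Type*) [Zero R] [One R] (y : E) : E → R := fun e => if e = y then 1 else 0

theorem dl_self {R : Type*} [Zero R] [One R] (y : E) : dl R y y = 1 := if_pos rfl

theorem dl_ne {R : Type*} [Zero R] [One R] {y e : E} (h : e ≠ y) : dl R y e = 0 := if_neg h

theorem Sa_eq_zero {φ : E → M} {u : ℕ → Option (E × Bool)} {a k : ℕ}
    (h : ∀ i e b, i < k → u (a + i) = some (e, b) → φ e = 0) : Sa φ u a k = 0 := by
  rw [Sa_congr (ψ := fun _ => (0 : M)) h]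
  unfold Sa
  refine Finset.sum_eq_zero fun i _ => ?_
  rcases u (a + i) with _ | ⟨e, b⟩
  · rfl
  · cases b
    · exact neg_zero
    · rfl

/-- the cochain sum of an integral cochain in a ring -/
theorem Sa_cast {R : Type*} [Ring R] (φ : E → ℤ) (u : ℕ → Option (E × Bool)) (a k : ℕ) :
    ((Sa φ u a k : ℤ) : R) = Sa (fun e => (φ e : R)) u a k := by
  unfold Sa
  rw [Int.cast_sum]
  refine Finset.sum_congr rfl fun i _ => ?_
  rcases u (a + i) with _ | ⟨e, b⟩
  · exact Int.cast_zero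
  · cases b
    · exact Int.cast_neg _
    · rfl

/-- powers of one element -/
theorem Wd_zpow (ζ : Γ) (m : E → ℤ) (u : ℕ → Option (E × Bool)) (a k : ℕ) :
    Wd (fun e => ζ ^ m e) u a k = ζ ^ Sa m u a k := by
  induction k with
  | zero => exact (zpow_zero ζ).symm
  | succ k ih =>
    rw [Wd_succ, Sa_succ, zpow_add, ih]
    congr 1
    rcases u (a + k) with _ | ⟨e, b⟩
    · exact (zpow_zero ζ).symm
    · cases b
      · exact (zpow_neg ζ _).symm
      · rfl

/-- if the exponent sum of `y` vanishes then `y` occurs with both signs -/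
theorem opp {y : E} {u : ℕ → Option (E × Bool)} {a k : ℕ} (h : Sa (dl ℤ y) u a k = 0) {m : ℕ}
    {b : Bool} (hm : m < k) (hy : u (a + m) = some (y, b)) :
    ∃ m' < k, u (a + m') = some (y, !b) := by
  by_contra hcon
  push Not at hcon
  have h0 : La (dl ℤ y) (some (y, b)) ≠ 0 := by
    cases b <;> simp [La, dl]
  have hle : ∀ i ∈ Finset.range k,
      0 ≤ La (dl ℤ y) (some (y, b)) * La (dl ℤ y) (u (a + i)) := by
    intro i hi
    rcases hu : u (a + i) with _ | ⟨e, b'⟩
    · simp [La]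
    · by_cases he : e = y
      · subst he
        have hb : b' = b := by
          by_contra hb
          have : b' = !b := by cases b <;> cases b' <;> simp_all
          exact hcon i (Finset.mem_range.1 hi) (by rw [hu, this])
        subst hb
        exact mul_self_nonneg _
      · have : La (dl ℤ y) (some (e, b')) = 0 := by
          cases b' <;> simp [La, dl, he]
        rw [this, mul_zero]
  have hpos : 0 < ∑ i ∈ Finset.range k, La (dl ℤ y) (some (y, b)) * La (dl ℤ y) (u (a + i)) := by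
    refine Finset.sum_pos' hle ⟨m, Finset.mem_range.2 hm, ?_⟩
    rw [hy]
    exact lt_of_le_of_ne (mul_self_nonneg _) (Ne.symm (mul_ne_zero h0 h0))
  rw [← Finset.mul_sum] at hpos
  have : ∑ i ∈ Finset.range k, La (dl ℤ y) (u (a + i)) = 0 := h
  rw [this, mul_zero] at hpos
  exact lt_irrefl _ hpos

end

section

variable {X : Gr}

/-- periodicity -/
theorem per_mul {α : Type*} {u : ℕ → α} {l : ℕ} (h : ∀ i, u (i + l) = u i) (k i : ℕ) :
    u (i + k * l) = u i := by
  induction k with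
  | zero => rw [Nat.zero_mul, Nat.add_zero]
  | succ k ih => rw [Nat.succ_mul, ← Nat.add_assoc, h, ih]

theorem Sa_per {E : Type} {M : Type*} [AddCommGroup M] (φ : E → M) {u : ℕ → Option (E × Bool)}
    {l : ℕ} (h : ∀ i, u (i + l) = u i) (a : ℕ) : Sa φ u a l = Sa φ u 0 l := by
  induction a with
  | zero => rfl
  | succ a ih =>
    rw [← ih]
    have h1 : Sa φ u a (1 + l) = Sa φ u a 1 + Sa φ u (a + 1) l := Sa_add _ _ _ _ _
    have h2 : Sa φ u a (l + 1) = Sa φ u a l + La φ (u (a + l)) := Sa_succ _ _ _ _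
    rw [Nat.add_comm 1 l, h2, h a] at h1
    have h3 : Sa φ u a 1 = La φ (u a) := by
      show ∑ i ∈ Finset.range 1, La φ (u (a + i)) = _
      rw [Finset.sum_range_one, Nat.add_zero]
    rw [h3, add_comm] at h1
    exact (add_left_cancel h1).symm

/-- gauge transformation -/
theorem Wd_gauge {Γ : Type*} [Group Γ] (γ : CP X) (φ : X.E → Γ) (g : X.V → Γ) (a k : ℕ) :
    Wd (fun e => g (X.src e) * φ e * (g (X.tgt e))⁻¹) γ.w a k =
      g (γ.vx a) * Wd φ γ.w a k * (g (γ.vx (a + k)))⁻¹ := by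
  induction k with
  | zero => simp [Wd_zero]
  | succ k ih =>
    rw [Wd_succ, Wd_succ, ih]
    have h1 := γ.adj (a + k)
    rcases hu : γ.w (a + k) with _ | ⟨e, b⟩
    · rw [hu] at h1
      have h2 : γ.vx (a + k) = γ.vx (a + k + 1) := h1
      show _ * 1 = g (γ.vx a) * (Wd φ γ.w a k * 1) * (g (γ.vx (a + k + 1)))⁻¹
      rw [← h2, mul_one, mul_one]
    · rw [hu] at h1
      cases b
      · obtain ⟨h2, h3⟩ : γ.vx (a + k) = X.tgt e ∧ γ.vx (a + k + 1) = X.src e := h1
        show _ * (g (X.src e) * φ e * (g (X.tgt e))⁻¹)⁻¹ =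
          g (γ.vx a) * (Wd φ γ.w a k * (φ e)⁻¹) * (g (γ.vx (a + k + 1)))⁻¹
        rw [h2, h3]
        group
      · obtain ⟨h2, h3⟩ : γ.vx (a + k) = X.src e ∧ γ.vx (a + k + 1) = X.tgt e := h1
        show _ * (g (X.src e) * φ e * (g (X.tgt e))⁻¹) =
          g (γ.vx a) * (Wd φ γ.w a k * φ e) * (g (γ.vx (a + k + 1)))⁻¹
        rw [h2, h3]
        group

/-- holonomy of a coboundary -/
theorem Wd_cob {Γ : Type*} [Group Γ] (γ : CP X) {φ : X.E → Γ} {g : X.V → Γ} {a k : ℕ}
    (h : ∀ i e b, i < k → γ.w (a + i) = some (e, b) → φ e = (g (X.src e))⁻¹ * g (X.tgt e)) :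
    Wd φ γ.w a k = (g (γ.vx a))⁻¹ * g (γ.vx (a + k)) := by
  rw [Wd_congr h]
  have h1 := Wd_gauge γ (fun _ => (1 : Γ)) (fun v => (g v)⁻¹) a k
  have h2 : Wd (fun _ : X.E => (1 : Γ)) γ.w a k = 1 := by
    have := Wd_zpow (1 : Γ) (fun _ : X.E => (0 : ℤ)) γ.w a k
    simpa using this
  rw [h2, mul_one, inv_inv] at h1
  rw [← h1]
  refine Wd_congr fun i e b _ _ => ?_
  rw [mul_one, inv_inv]

theorem Sa_cob {M : Type} [AddCommGroup M] (γ : CP X) {φ : X.E → M} {g : X.V → M} {a k : ℕ}
    (h : ∀ i e b, i < k → γ.w (a + i) = some (e, b) → φ e = g (X.tgt e) - g (X.src e)) :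
    Sa φ γ.w a k = g (γ.vx (a + k)) - g (γ.vx a) := by
  have h1 := Wd_cob (Γ := Multiplicative M) γ (φ := fun e => Multiplicative.ofAdd (φ e))
    (g := fun v => Multiplicative.ofAdd (g v)) (a := a) (k := k) (fun i e b hi hu => by
      rw [h i e b hi hu, ofAdd_sub, div_eq_inv_mul])
  rw [Wd_mult] at h1
  have h2 := congrArg Multiplicative.toAdd h1
  rw [toAdd_ofAdd, toAdd_mul, toAdd_inv, toAdd_ofAdd, toAdd_ofAdd] at h2
  rw [h2]; abel

theorem CP.vlen (γ : CP X) : γ.vx γ.len = γ.vx 0 := by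
  have := γ.perv 0
  rwa [Nat.zero_add] at this

/-- the edges of the closed path -/
def Occ (γ : CP X) (e : X.E) : Prop := ∃ i b, γ.w i = some (e, b)

theorem Occ.lt {γ : CP X} {e : X.E} (h : Occ γ e) : ∃ i < γ.len, ∃ b, γ.w i = some (e, b) := by
  obtain ⟨i, b, h1⟩ := h
  refine ⟨i % γ.len, Nat.mod_lt _ γ.pos, b, ?_⟩
  rw [← h1, ← per_mul γ.perw (i / γ.len) (i % γ.len), Nat.mul_comm, Nat.mod_add_div]

/-- the exponent sum -/
noncomputable def ex (γ : CP X) (e : X.E) : ℤ := Sa (dl ℤ e) γ.w 0 γ.len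

variable {C : Type}

/-- the subcomplex is closed -/
def Cl (d : C → CP X) (S : Finset X.E) (T : Finset C) : Prop :=
  ∀ c ∈ T, ∀ e, Occ (d c) e → e ∈ S

/-- every cocycle with values in any group is a coboundary -/
def SC (d : C → CP X) (S : Finset X.E) (T : Finset C) : Prop :=
  ∀ (Γ : Type) [Group Γ] (φ : X.E → Γ), (∀ c ∈ T, Wd φ (d c).w 0 (d c).len = 1) →
    ∃ g : X.V → Γ, ∀ e ∈ S, φ e = (g (X.src e))⁻¹ * g (X.tgt e)

/-- every cocycle with values in `M` is a coboundary -/
def H1 (M : Type) [AddCommGroup M] (d : C → CP X) (S : Finset X.E) (T : Finset C) : Prop :=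
  ∀ φ : X.E → M, (∀ c ∈ T, Sa φ (d c).w 0 (d c).len = 0) →
    ∃ g : X.V → M, ∀ e ∈ S, φ e = g (X.tgt e) - g (X.src e)

theorem SC.h1 {d : C → CP X} {S : Finset X.E} {T : Finset C} (h : SC d S T) (M : Type)
    [AddCommGroup M] : H1 M d S T := by
  intro φ hφ
  obtain ⟨g, hg⟩ := h (Multiplicative M) (fun e => Multiplicative.ofAdd (φ e)) (fun c hc => by
    rw [Wd_mult, hφ c hc]; rfl)
  refine ⟨fun v => (g v).toAdd, fun e he => ?_⟩
  have h2 := congrArg Multiplicative.toAdd (hg e he)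
  rw [toAdd_ofAdd, toAdd_mul, toAdd_inv] at h2
  rw [h2]; abel

end

end Pool.Agent.K9h82.HT
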