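import Pool.Agent.K9h82.HT.Asph

/-!
# Filtered cycles of the initial graph: linear algebra
-/

set_option autoImplicit false

namespace Pool.Agent.K9h82.HT

open Pool.Agent.TH625.LOG Pool.Agent.N819.LT

section defs

variable {V E : Type}

open Classical in
/-- `z` is a cycle of the initial graph, the graph with the vertices `V` and the edges
`{ini e, lab e}`. -/
def Cycle [Fintype E] (L : LOG V E) (z : E → ℤ) : Prop :=
  ∀ v, ∑ e, z e * ((if L.ini e = v then 1 else 0) - (if L.lab e = v then 1 else 0)) = 0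

open Classical in
/-- The coefficient at `g` of the element
`∑ e, z e * ([κ (ter e) = k] - [κ (lab e) = k]) * x_(lab e)` of the group ring. -/
noncomputable def crossing [Fintype E] (L : LOG V E) (κ : V → ℕ) (k : ℕ) (z : E → ℤ) (g : L.G) : ℤ :=
  ∑ e, if L.gen (L.lab e) = g then
    z e * ((if κ (L.ter e) = k then 1 else 0) - (if κ (L.lab e) = k then 1 else 0)) else 0

/-- The components of the initial graph are numbered by `κ` from `0` to `β`, and for all `k` from `1`
to `β` there is a cycle `z` of the initial graph such that the labels and the terminal vertices of its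
edges lie in the components `0, …, k` and such that its crossing element with the component `k` is not
`0`. -/
structure Flt [Fintype E] (L : LOG V E) (β : ℕ) (κ : V → ℕ) : Prop where
  bd : ∀ v, κ v ≤ β
  comp : ∀ v w, κ v = κ w ↔ Relation.EqvGen (fun a b => ∃ e, L.ini e = a ∧ L.lab e = b) v w
  cyc : ∀ k, 1 ≤ k → k ≤ β → ∃ z : E → ℤ, Cycle L z ∧
    (∀ e, z e ≠ 0 → κ (L.lab e) ≤ k ∧ κ (L.ter e) ≤ k) ∧ ∃ g, crossing L κ k z g ≠ 0

end defs

section lin

variable {V E : Type} [Fintype V] [Fintype E]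

open Classical in
/-- the boundary matrix of the initial graph -/
noncomputable def Bm (L : LOG V E) : Matrix V E ℚ :=
  fun v e => (if L.ini e = v then 1 else 0) - (if L.lab e = v then 1 else 0)

/-- the cycles of level at most `k` -/
noncomputable def Zk (L : LOG V E) (κ : V → ℕ) (k : ℕ) : Submodule ℚ (E → ℚ) where
  carrier := {z | (Bm L).mulVec z = 0 ∧ ∀ e, z e ≠ 0 → κ (L.lab e) ≤ k ∧ κ (L.ter e) ≤ k}
  zero_mem' := ⟨Matrix.mulVec_zero _, fun e h => absurd rfl h⟩
  add_mem' := by
    rintro z w ⟨h1, h2⟩ ⟨h3, h4⟩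
    refine ⟨by rw [Matrix.mulVec_add, h1, h3, add_zero], fun e he => ?_⟩
    by_cases h5 : z e = 0
    · refine h4 e fun h6 => he ?_
      rw [Pi.add_apply, h5, h6, add_zero]
    · exact h2 e h5
  smul_mem' := by
    rintro c z ⟨h1, h2⟩
    refine ⟨by rw [Matrix.mulVec_smul, h1, smul_zero], fun e he => h2 e fun h3 => he ?_⟩
    rw [Pi.smul_apply, h3, smul_zero]

theorem mem_Zk {L : LOG V E} {κ : V → ℕ} {k : ℕ} {z : E → ℚ} : z ∈ Zk L κ k ↔
    (Bm L).mulVec z = 0 ∧ ∀ e, z e ≠ 0 → κ (L.lab e) ≤ k ∧ κ (L.ter e) ≤ k := Iff.rfl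

theorem Zk_mono (L : LOG V E) (κ : V → ℕ) {k l : ℕ} (h : k ≤ l) : Zk L κ k ≤ Zk L κ l := by
  rintro z ⟨h1, h2⟩
  exact ⟨h1, fun e he => ⟨(h2 e he).1.trans h, (h2 e he).2.trans h⟩⟩

open Classical in
/-- the crossing element -/
noncomputable def crq (L : LOG V E) (κ : V → ℕ) (k : ℕ) (z : E → ℚ) (g : L.G) : ℚ :=
  ∑ e, if L.gen (L.lab e) = g then
    z e * ((if κ (L.ter e) = k then 1 else 0) - (if κ (L.lab e) = k then 1 else 0)) else 0

theorem crq_zero {L : LOG V E} {κ : V → ℕ} {k : ℕ} {z : E → ℚ} (h : z ∈ Zk L κ k) (g : L.G) :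
    crq L κ (k + 1) z g = 0 := by
  unfold crq
  refine Finset.sum_eq_zero fun e _ => ?_
  by_cases h1 : z e = 0
  · rw [h1, zero_mul, ite_self]
  · have h2 := h.2 e h1
    rw [if_neg (by omega : ¬ κ (L.ter e) = k + 1), if_neg (by omega : ¬ κ (L.lab e) = k + 1),
      sub_zero, mul_zero, ite_self]

theorem crq_lin (L : LOG V E) (κ : V → ℕ) (k : ℕ) (z w : E → ℚ) (a : ℚ) (g : L.G) :
    crq L κ k (z + a • w) g = crq L κ k z g + a * crq L κ k w g := by
  unfold crq
  rw [Finset.mul_sum, ← Finset.sum_add_distrib]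
  refine Finset.sum_congr rfl fun e _ => ?_
  by_cases h1 : L.gen (L.lab e) = g
  · rw [if_pos h1, if_pos h1, if_pos h1, Pi.add_apply, Pi.smul_apply, smul_eq_mul]
    ring
  · rw [if_neg h1, if_neg h1, if_neg h1, mul_zero, add_zero]

variable {L : LOG V E} {β : ℕ} {κ : V → ℕ}

/-- the dimension of the space of cycles -/
theorem Flt.dim (h : Flt L β κ) (hcard : Fintype.card V = Fintype.card E + 1) :
    Module.finrank ℚ (Zk L κ β) ≤ β := by
  classical
  let T : (Fin (β + 1) → ℚ) →ₗ[ℚ] (V → ℚ) :=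
    { toFun := fun c v => c ⟨κ v, Nat.lt_succ_of_le (h.bd v)⟩
      map_add' := fun _ _ => rfl
      map_smul' := fun _ _ => rfl }
  have h1 : LinearMap.ker (Bm L).transpose.mulVecLin ≤ LinearMap.range T := by
    intro φ hφ
    have h2 : ∀ e, φ (L.ini e) = φ (L.lab e) := by
      intro e
      have h3 : ∑ v, (Bm L) v e * φ v = 0 := congrFun hφ e
      unfold Bm at h3
      simp only [sub_mul, ite_mul, one_mul, zero_mul, Finset.sum_sub_distrib, Finset.sum_ite_eq,
        Finset.mem_univ, if_true] at h3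
      exact sub_eq_zero.1 h3
    have h3 : ∀ v w, κ v = κ w → φ v = φ w := by
      intro v w hvw
      have h4 := (h.comp v w).1 hvw
      induction h4 with
      | rel a b hab =>
        obtain ⟨e, rfl, rfl⟩ := hab
        exact h2 e
      | refl a => rfl
      | symm a b hab ih => exact (ih ((h.comp _ _).2 hab)).symm
      | trans a b c hab hbc ih1 ih2 =>
        exact (ih1 ((h.comp _ _).2 hab)).trans (ih2 ((h.comp _ _).2 hbc))
    refine ⟨fun i => if hi : ∃ v, κ v = i.1 then φ hi.choose else 0, ?_⟩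
    funext v
    have hi : ∃ w, κ w = ((⟨κ v, Nat.lt_succ_of_le (h.bd v)⟩ : Fin (β + 1)) : ℕ) := ⟨v, rfl⟩
    change (if hi : ∃ w, κ w = ((⟨κ v, Nat.lt_succ_of_le (h.bd v)⟩ : Fin (β + 1)) : ℕ) then
      φ hi.choose else 0) = φ v
    rw [dif_pos hi]
    exact h3 _ _ hi.choose_spec
  have h2 : Module.finrank ℚ (LinearMap.ker (Bm L).transpose.mulVecLin) ≤ β + 1 := by
    refine (Submodule.finrank_mono h1).trans ?_
    refine (LinearMap.finrank_range_le T).trans ?_
    rw [Module.finrank_pi, Fintype.card_fin]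
  have h3 := LinearMap.finrank_range_add_finrank_ker (Bm L).transpose.mulVecLin
  have h4 := LinearMap.finrank_range_add_finrank_ker (Bm L).mulVecLin
  have h5 : (Bm L).transpose.rank = (Bm L).rank := Matrix.rank_transpose _
  unfold Matrix.rank at h5
  rw [Module.finrank_pi] at h3 h4
  have h6 : Zk L κ β ≤ LinearMap.ker (Bm L).mulVecLin := fun z hz => hz.1
  have h7 := Submodule.finrank_mono h6
  omega

/-- the special cycles -/
theorem Flt.zq (h : Flt L β κ) (k : ℕ) (hk : k < β) : ∃ z ∈ Zk L κ (k + 1), ∃ g,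
    crq L κ (k + 1) z g ≠ 0 := by
  obtain ⟨z, h1, h2, g, h3⟩ := h.cyc (k + 1) (by omega) (by omega)
  refine ⟨fun e => (z e : ℚ), ⟨?_, fun e he => h2 e fun h4 => he (by
    show ((z e : ℤ) : ℚ) = 0
    rw [h4, Int.cast_zero])⟩, g, ?_⟩
  · funext v
    have h4 := congrArg (fun t : ℤ => (t : ℚ)) (h1 v)
    simp only [Int.cast_sum, Int.cast_mul, Int.cast_zero] at h4
    refine Eq.trans ?_ h4
    change ∑ e, Bm L v e * (z e : ℚ) = _
    refine Finset.sum_congr rfl fun e _ => ?_
    unfold Bm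
    push_cast
    rw [mul_comm]
  · have h4 : crq L κ (k + 1) (fun e => (z e : ℚ)) g = ((crossing L κ (k + 1) z g : ℤ) : ℚ) := by
      unfold crq crossing
      push_cast
      rfl
    rw [h4]
    exact_mod_cast h3

theorem Flt.dim_le (h : Flt L β κ) (hcard : Fintype.card V = Fintype.card E + 1) :
    ∀ m, m ≤ β → Module.finrank ℚ (Zk L κ (β - m)) ≤ β - m := by
  intro m
  induction m with
  | zero => exact fun _ => h.dim hcard
  | succ m ih =>
    intro hm
    have h1 := ih (by omega)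
    obtain ⟨z, hz, g, hg⟩ := h.zq (β - (m + 1)) (by omega)
    have h2 : β - (m + 1) + 1 = β - m := by omega
    have h3 : Zk L κ (β - (m + 1)) < Zk L κ (β - m) := by
      refine lt_of_le_of_ne (Zk_mono L κ (by omega)) fun h4 => hg ?_
      rw [h2, ← h4] at hz
      exact crq_zero hz g
    have h4 := Submodule.finrank_lt_finrank_of_lt h3
    omega

theorem Flt.dim_ge (h : Flt L β κ) : ∀ k, k ≤ β → k ≤ Module.finrank ℚ (Zk L κ k) := by
  intro k
  induction k with
  | zero => exact fun _ => Nat.zero_le _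
  | succ k ih =>
    intro hk
    have h1 := ih (by omega)
    obtain ⟨z, hz, g, hg⟩ := h.zq k (by omega)
    have h3 : Zk L κ k < Zk L κ (k + 1) := by
      refine lt_of_le_of_ne (Zk_mono L κ (by omega)) fun h4 => hg ?_
      rw [← h4] at hz
      exact crq_zero hz g
    have h4 := Submodule.finrank_lt_finrank_of_lt h3
    omega

/-- no cycles of level `0` -/
theorem Flt.zero (h : Flt L β κ) (hcard : Fintype.card V = Fintype.card E + 1) (z : E → ℚ)
    (hz : z ∈ Zk L κ 0) : z = 0 := by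
  have h1 := h.dim_le hcard β le_rfl
  rw [Nat.sub_self] at h1
  have h2 : Zk L κ 0 = ⊥ := by
    apply Submodule.finrank_eq_zero.1
    omega
  rw [h2] at hz
  exact hz

/-- every cycle of level `k + 1` is a multiple of the special one modulo the lower ones, and its
crossing element is not zero -/
theorem Flt.step (h : Flt L β κ) (hcard : Fintype.card V = Fintype.card E + 1) (k : ℕ) (hk : k < β) :
    ∃ z ∈ Zk L κ (k + 1), (∃ g, crq L κ (k + 1) z g ≠ 0) ∧
      ∀ w ∈ Zk L κ (k + 1), ∃ a : ℚ, w - a • z ∈ Zk L κ k := by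
  obtain ⟨z, hz, g, hg⟩ := h.zq k hk
  refine ⟨z, hz, ⟨g, hg⟩, ?_⟩
  have h1 : Zk L κ k ⊔ Submodule.span ℚ {z} ≤ Zk L κ (k + 1) := by
    refine sup_le (Zk_mono L κ (by omega)) ?_
    rw [Submodule.span_le, Set.singleton_subset_iff]
    exact hz
  have h2 : Zk L κ k < Zk L κ k ⊔ Submodule.span ℚ {z} := by
    refine lt_of_le_of_ne le_sup_left fun h4 => hg ?_
    have h5 : z ∈ Zk L κ k := by
      rw [h4]
      exact Submodule.mem_sup_right (Submodule.mem_span_singleton_self z)
    exact crq_zero h5 g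
  have h3 := Submodule.finrank_lt_finrank_of_lt h2
  have h4 := h.dim_ge k (by omega)
  have h5 := h.dim_le hcard (β - (k + 1)) (by omega)
  have h6 : β - (β - (k + 1)) = k + 1 := by omega
  rw [h6] at h5
  have h7 : Zk L κ k ⊔ Submodule.span ℚ {z} = Zk L κ (k + 1) := by
    apply Submodule.eq_of_le_of_finrank_le h1
    omega
  intro w hw
  rw [← h7, Submodule.mem_sup] at hw
  obtain ⟨y, hy, u, hu, rfl⟩ := hw
  obtain ⟨a, rfl⟩ := Submodule.mem_span_singleton.1 hu
  refine ⟨a, ?_⟩
  rw [add_sub_cancel_right]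
  exact hy

end lin

end Pool.Agent.K9h82.HT
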