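import Pool.Agent.K9h82.HT.Flt

/-!
# Filtered cycles of the initial graph: forests
-/

set_option autoImplicit false

namespace Pool.Agent.K9h82.HT

open Pool.Agent.TH625.LOG Pool.Agent.N819.LT

variable {V E : Type} [Fintype V] [Fintype E]

/-- no cycle has its support in `F` -/
def Acy (L : LOG V E) (F : Set E) : Prop :=
  ∀ z : E → ℚ, (∀ e, e ∉ F → z e = 0) → (Bm L).mulVec z = 0 → z = 0

theorem Acy.mono {L : LOG V E} {F F' : Set E} (h : Acy L F) (hF : F' ⊆ F) : Acy L F' :=
  fun z h1 h2 => h z (fun e he => h1 e fun h3 => he (hF h3)) h2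

theorem Bm_loop {L : LOG V E} {e : E} (h : L.ini e = L.lab e) (v : V) : Bm L v e = 0 := by
  unfold Bm
  rw [h, sub_self]

theorem Acy.ne {L : LOG V E} {F : Set E} (h : Acy L F) (e : E) (he : e ∈ F) : L.ini e ≠ L.lab e := by
  classical
  intro h1
  have h2 := h (Pi.single e 1) (fun e' he' => by
    rw [Pi.single_apply, if_neg]
    rintro rfl
    exact he' he) (by
    funext v
    rw [Matrix.mulVec_single_one]
    exact Bm_loop h1 v)
  have h3 := congrFun h2 e
  rw [Pi.single_eq_same] at h3
  exact one_ne_zero h3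

/-- a forest with an edge has a leaf -/
theorem leaf {L : LOG V E} (F : Finset E) (hF : F.Nonempty) (hac : Acy L (F : Set E)) :
    ∃ e ∈ F, ∃ v, (v = L.ini e ∨ v = L.lab e) ∧
      ∀ e' ∈ F, e' ≠ e → L.ini e' ≠ v ∧ L.lab e' ≠ v := by
  classical
  by_contra hcon
  push Not at hcon
  let W : Finset V := F.image L.ini ∪ F.image L.lab
  have hWi : ∀ e ∈ F, L.ini e ∈ W := fun e he =>
    Finset.mem_union_left _ (Finset.mem_image_of_mem _ he)
  have hWl : ∀ e ∈ F, L.lab e ∈ W := fun e he =>
    Finset.mem_union_right _ (Finset.mem_image_of_mem _ he)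
  have hdeg : ∀ v ∈ W, 2 ≤ ∑ e ∈ F, ((if L.ini e = v then 1 else 0) + (if L.lab e = v then 1 else 0)) := by
    intro v hv
    have h1 : ∃ e ∈ F, v = L.ini e ∨ v = L.lab e := by
      rcases Finset.mem_union.1 hv with h2 | h2
      · obtain ⟨e, he, rfl⟩ := Finset.mem_image.1 h2
        exact ⟨e, he, Or.inl rfl⟩
      · obtain ⟨e, he, rfl⟩ := Finset.mem_image.1 h2
        exact ⟨e, he, Or.inr rfl⟩
    obtain ⟨e, he, hve⟩ := h1
    obtain ⟨e', he', hne, h2⟩ := hcon e he v hve
    have h3 : ∀ e'' ∈ F, (v = L.ini e'' ∨ v = L.lab e'') →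
        1 ≤ ((if L.ini e'' = v then 1 else 0) + (if L.lab e'' = v then 1 else 0) : ℕ) := by
      intro e'' _ h4
      rcases h4 with h4 | h4
      · rw [if_pos h4.symm]; omega
      · rw [if_pos h4.symm]; omega
    have h4 : v = L.ini e' ∨ v = L.lab e' := by
      by_cases h5 : L.ini e' = v
      · exact Or.inl h5.symm
      · exact Or.inr (h2 h5).symm
    have h5 : ∑ e ∈ ({e, e'} : Finset E), ((if L.ini e = v then 1 else 0) +
        (if L.lab e = v then 1 else 0)) ≤
        ∑ e ∈ F, ((if L.ini e = v then 1 else 0) + (if L.lab e = v then 1 else 0) : ℕ) := by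
      refine Finset.sum_le_sum_of_subset ?_
      intro x hx
      rcases Finset.mem_insert.1 hx with rfl | hx
      · exact he
      · rw [Finset.mem_singleton.1 hx]; exact he'
    rw [Finset.sum_pair hne.symm] at h5
    have h6 := h3 e he hve
    have h7 := h3 e' he' h4
    omega
  have hcount : 2 * W.card ≤ 2 * F.card := by
    have h1 : ∑ v ∈ W, 2 ≤ ∑ v ∈ W, ∑ e ∈ F,
        ((if L.ini e = v then 1 else 0) + (if L.lab e = v then 1 else 0) : ℕ) :=
      Finset.sum_le_sum hdeg
    rw [Finset.sum_comm, Finset.sum_const, smul_eq_mul] at h1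
    have h2 : ∀ e ∈ F, ∑ v ∈ W, ((if L.ini e = v then 1 else 0) + (if L.lab e = v then 1 else 0) : ℕ)
        = 2 := by
      intro e he
      rw [Finset.sum_add_distrib, Finset.sum_ite_eq, Finset.sum_ite_eq, if_pos (hWi e he),
        if_pos (hWl e he)]
    rw [Finset.sum_congr rfl h2, Finset.sum_const, smul_eq_mul] at h1
    omega
  let D : (F → ℚ) →ₗ[ℚ] (W → ℚ) := Matrix.mulVecLin (fun (w : W) (e : F) => Bm L w.1 e.1)
  have hinj : Function.Injective D := by
    rw [injective_iff_map_eq_zero]
    intro x hx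
    have h1 := hac (fun e => if h : e ∈ F then x ⟨e, h⟩ else 0) (fun e he => dif_neg he) (by
      funext v
      change ∑ e, Bm L v e * (if h : e ∈ F then x ⟨e, h⟩ else 0) = 0
      have h2 : ∑ e, Bm L v e * (if h : e ∈ F then x ⟨e, h⟩ else 0) =
          ∑ e : F, Bm L v e.1 * x e := by
        symm
        refine Fintype.sum_of_injective (fun e : F => (e : E)) Subtype.val_injective _ _ ?_ ?_
        · intro e he
          have he' : e ∉ F := fun h => he ⟨⟨e, h⟩, rfl⟩
          rw [dif_neg he', mul_zero]
        · intro e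
          rw [dif_pos e.2]
      rw [h2]
      by_cases hv : v ∈ W
      · exact congrFun hx ⟨v, hv⟩
      · refine Finset.sum_eq_zero fun e _ => ?_
        unfold Bm
        rw [if_neg fun h => hv (by rw [← h]; exact hWi e.1 e.2),
          if_neg fun h => hv (by rw [← h]; exact hWl e.1 e.2), sub_self, zero_mul])
    funext e
    have h2 := congrFun h1 e.1
    simp only [Pi.zero_apply] at h2
    rw [dif_pos e.2] at h2
    exact h2
  have h1 := LinearMap.finrank_le_finrank_of_injective hinj
  have hF' : Module.finrank ℚ (F → ℚ) = F.card := by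
    rw [Module.finrank_pi, Fintype.card_coe]
  have hW' : Module.finrank ℚ (W → ℚ) = W.card := by
    rw [Module.finrank_pi, Fintype.card_coe]
  rw [hF', hW'] at h1
  have hsurj : Function.Surjective D := by
    refine (LinearMap.injective_iff_surjective_of_finrank_eq_finrank ?_).1 hinj
    rw [hF', hW']
    omega
  obtain ⟨e0, he0⟩ := hF
  obtain ⟨x, hx⟩ := hsurj (Pi.single ⟨L.ini e0, hWi e0 he0⟩ 1)
  have h2 : ∑ w, D x w = 1 := by
    rw [hx, Finset.sum_pi_single']
    simp
  have h3 : ∑ w, D x w = 0 := by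
    change ∑ w : W, ∑ e : F, Bm L w.1 e.1 * x e = 0
    rw [Finset.sum_comm]
    refine Finset.sum_eq_zero fun e _ => ?_
    rw [← Finset.sum_mul]
    have h4 : ∑ w : W, Bm L w.1 e.1 = ∑ w ∈ W, Bm L w e.1 := Finset.sum_coe_sort W fun w => Bm L w e.1
    have h5 : ∑ w ∈ W, Bm L w e.1 = 0 := by
      unfold Bm
      rw [Finset.sum_sub_distrib, Finset.sum_ite_eq, Finset.sum_ite_eq, if_pos (hWi e.1 e.2),
        if_pos (hWl e.1 e.2), sub_self]
    rw [h4, h5, zero_mul]
  rw [h3] at h2
  exact zero_ne_one h2

/-- a forest has a rank function -/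
theorem exists_r (L : LOG V E) (F : Finset E) : Acy L (F : Set E) →
    ∃ r : V → ℕ, (∀ e ∈ F, r (L.ini e) ≠ r (L.lab e)) ∧
      ∀ e ∈ F, ∀ e' ∈ F, ch L r e = ch L r e' → e = e' := by
  classical
  induction F using Finset.strongInduction with
  | H F ih =>
    intro hac
    rcases F.eq_empty_or_nonempty with rfl | hne
    · exact ⟨fun _ => 0, fun e he => absurd he (Finset.notMem_empty e),
        fun e he => absurd he (Finset.notMem_empty e)⟩
    · obtain ⟨e, he, v, hv, hleaf⟩ := leaf F hne hac
      obtain ⟨r, hr1, hr2⟩ := ih (F.erase e) (Finset.erase_ssubset he)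
        (hac.mono fun x hx => Finset.mem_of_mem_erase hx)
      have hlt : ∀ u, r u < Finset.univ.sup r + 1 := fun u =>
        Nat.lt_succ_of_le (Finset.le_sup (f := r) (Finset.mem_univ u))
      have hne' := hac.ne e he
      let r' : V → ℕ := Function.update r v (Finset.univ.sup r + 1)
      have hrv : r' v = Finset.univ.sup r + 1 := Function.update_self _ _ _
      have hru : ∀ u, u ≠ v → r' u = r u := fun u hu => Function.update_of_ne hu _ _
      have hch : ch L r' e = v := by
        unfold ch
        rcases hv with hv | hv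
        · have h1 : L.lab e ≠ v := fun h => hne' (by rw [h, hv])
          rw [if_neg, hv]
          rw [← hv, hrv, hru _ h1]
          have := hlt (L.lab e)
          omega
        · have h1 : L.ini e ≠ v := fun h => hne' (by rw [h, hv])
          rw [if_pos, hv]
          rw [← hv, hrv, hru _ h1]
          exact hlt (L.ini e)
      have hr : ∀ e' ∈ F, e' ≠ e → ch L r' e' = ch L r e' ∧ ch L r' e' ≠ v ∧
          r' (L.ini e') ≠ r' (L.lab e') := by
        intro e' he' hee
        obtain ⟨h1, h2⟩ := hleaf e' he' hee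
        have h3 := hr1 e' (Finset.mem_erase.2 ⟨hee, he'⟩)
        refine ⟨?_, ?_, ?_⟩
        · unfold ch
          rw [hru _ h1, hru _ h2]
        · unfold ch
          split_ifs
          · exact h2
          · exact h1
        · rw [hru _ h1, hru _ h2]
          exact h3
      refine ⟨r', ?_, ?_⟩
      · intro e' he'
        by_cases hee : e' = e
        · subst hee
          rcases hv with hv | hv
          · have h1 : L.lab e' ≠ v := fun h => hne' (by rw [h, hv])
            rw [← hv, hrv, hru _ h1]
            have := hlt (L.lab e')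
            omega
          · have h1 : L.ini e' ≠ v := fun h => hne' (by rw [h, hv])
            rw [← hv, hrv, hru _ h1]
            have := hlt (L.ini e')
            omega
        · exact (hr e' he' hee).2.2
      · intro e1 he1 e2 he2 heq
        by_cases h1 : e1 = e
        · by_cases h2 : e2 = e
          · rw [h1, h2]
          · rw [h1, hch] at heq
            exact absurd heq.symm (hr e2 he2 h2).2.1
        · by_cases h2 : e2 = e
          · rw [h2, hch] at heq
            exact absurd heq (hr e1 he1 h1).2.1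
          · rw [(hr e1 he1 h1).1, (hr e2 he2 h2).1] at heq
            exact hr2 e1 (Finset.mem_erase.2 ⟨h1, he1⟩) e2 (Finset.mem_erase.2 ⟨h2, he2⟩) heq

/-- a step in the initial graph along an edge of `F` -/
def Stp (L : LOG V E) (F : Set E) (a b : V) : Prop :=
  ∃ e ∈ F, (L.ini e = a ∧ L.lab e = b) ∨ (L.lab e = a ∧ L.ini e = b)

omit [Fintype V] [Fintype E] in
theorem walk_of (L : LOG V E) (F : Set E) (e0 : E) (a b : V) (h : Relation.ReflTransGen (Stp L F) a b) :
    ∃ (n : ℕ) (P : ℕ → V) (f : ℕ → E) (s : ℕ → ℤ), P 0 = a ∧ P n = b ∧ (∀ i < n, f i ∈ F) ∧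
      ∀ i < n, (s i = 1 ∧ L.ini (f i) = P i ∧ L.lab (f i) = P (i + 1)) ∨
        (s i = -1 ∧ L.lab (f i) = P i ∧ L.ini (f i) = P (i + 1)) := by
  induction h with
  | refl => exact ⟨0, fun _ => a, fun _ => e0, fun _ => 1, rfl, rfl, fun i hi => absurd hi (by omega),
      fun i hi => absurd hi (by omega)⟩
  | @tail b c _ hbc ih =>
    obtain ⟨n, P, f, s, h1, h2, h3, h4⟩ := ih
    obtain ⟨e, he, hst⟩ := hbc
    have key : ∀ t : ℤ, ((t = 1 ∧ L.ini e = b ∧ L.lab e = c) ∨ (t = -1 ∧ L.lab e = b ∧ L.ini e = c)) →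
        ∃ (n : ℕ) (P : ℕ → V) (f : ℕ → E) (s : ℕ → ℤ), P 0 = a ∧ P n = c ∧ (∀ i < n, f i ∈ F) ∧
        ∀ i < n, (s i = 1 ∧ L.ini (f i) = P i ∧ L.lab (f i) = P (i + 1)) ∨
        (s i = -1 ∧ L.lab (f i) = P i ∧ L.ini (f i) = P (i + 1)) := by
      intro t ht
      refine ⟨n + 1, fun i => if i ≤ n then P i else c, fun i => if i < n then f i else e,
        fun i => if i < n then s i else t, ?_, ?_, ?_, ?_⟩
      · simp only [Nat.zero_le, if_true]; exact h1
      · simp only [show ¬ (n + 1 ≤ n) by omega, if_false]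
      · intro i hi
        by_cases h5 : i < n
        · simp only [h5, if_true]; exact h3 i h5
        · simp only [h5, if_false]; exact he
      · intro i hi
        by_cases h5 : i < n
        · simp only [h5, if_true, h5.le, show i + 1 ≤ n by omega]
          exact h4 i h5
        · have h6 : i = n := by omega
          subst h6
          simp only [h5, if_false, le_refl, if_true, show ¬ (i + 1 ≤ i) by omega]
          rw [h2]
          exact ht
    rcases hst with ⟨h5, h6⟩ | ⟨h5, h6⟩
    · exact key 1 (Or.inl ⟨rfl, h5, h6⟩)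
    · exact key (-1) (Or.inr ⟨rfl, h5, h6⟩)

/-- the column of an edge -/
noncomputable def Bv (L : LOG V E) (e : E) : V → ℚ := fun v => Bm L v e

theorem conn_of_span (L : LOG V E) (F : Set E) (e : E)
    (h : Bv L e ∈ Submodule.span ℚ (Bv L '' F)) :
    Relation.ReflTransGen (Stp L F) (L.lab e) (L.ini e) := by
  classical
  let C : Set V := {v | Relation.ReflTransGen (Stp L F) (L.lab e) v}
  let φ : (V → ℚ) →ₗ[ℚ] ℚ :=
    { toFun := fun x => ∑ v, if v ∈ C then x v else 0
      map_add' := fun x y => by
        rw [← Finset.sum_add_distrib]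
        refine Finset.sum_congr rfl fun v _ => ?_
        by_cases hv : v ∈ C
        · rw [if_pos hv, if_pos hv, if_pos hv]; rfl
        · rw [if_neg hv, if_neg hv, if_neg hv, add_zero]
      map_smul' := fun c x => by
        rw [RingHom.id_apply, smul_eq_mul, Finset.mul_sum]
        refine Finset.sum_congr rfl fun v _ => ?_
        by_cases hv : v ∈ C
        · rw [if_pos hv, if_pos hv]; rfl
        · rw [if_neg hv, if_neg hv, mul_zero] }
  have hφ : ∀ e', φ (Bv L e') = (if L.ini e' ∈ C then 1 else 0) - (if L.lab e' ∈ C then 1 else 0) := by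
    intro e'
    change ∑ v, (if v ∈ C then Bm L v e' else 0) = _
    have h1 : ∀ v, (if v ∈ C then Bm L v e' else 0) =
        (if L.ini e' = v then (if v ∈ C then 1 else 0) else 0) -
          (if L.lab e' = v then (if v ∈ C then 1 else 0) else 0) := by
      intro v
      unfold Bm
      by_cases hv : v ∈ C
      · simp only [hv, if_true]
      · simp only [hv, if_false, ite_self, sub_self]
    simp only [h1, Finset.sum_sub_distrib, Finset.sum_ite_eq, Finset.mem_univ, if_true]
  have h0 : φ (Bv L e) = 0 := by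
    have h1 : Submodule.span ℚ (Bv L '' F) ≤ LinearMap.ker φ := by
      rw [Submodule.span_le]
      rintro _ ⟨e', he', rfl⟩
      change φ (Bv L e') = 0
      rw [hφ]
      by_cases h2 : L.ini e' ∈ C
      · have h3 : L.lab e' ∈ C := Relation.ReflTransGen.tail h2 ⟨e', he', Or.inl ⟨rfl, rfl⟩⟩
        rw [if_pos h2, if_pos h3, sub_self]
      · have h3 : L.lab e' ∉ C := fun h4 =>
          h2 (Relation.ReflTransGen.tail h4 ⟨e', he', Or.inr ⟨rfl, rfl⟩⟩)
        rw [if_neg h2, if_neg h3, sub_self]
    exact h1 h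
  rw [hφ] at h0
  have h1 : L.lab e ∈ C := Relation.ReflTransGen.refl
  rw [if_pos h1] at h0
  by_contra h2
  have h3 : L.ini e ∉ C := h2
  rw [if_neg h3] at h0
  norm_num at h0

/-- filtered forests -/
theorem exists_forest (L : LOG V E) (S' : Set E) (lev : E → ℕ) : ∃ F ⊆ S', Acy L F ∧
    ∀ e ∈ S', e ∉ F → Relation.ReflTransGen (Stp L {e' | e' ∈ F ∧ lev e' ≤ lev e}) (L.lab e) (L.ini e)
    := by
  classical
  let m := Fintype.card E
  let idx : E ≃ Fin m := Fintype.equivFin E
  let key : E → ℕ := fun e => lev e * m + (idx e : ℕ)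
  have hidx : ∀ e, (idx e : ℕ) < m := fun e => (idx e).2
  have hkey : ∀ e e', key e' < key e → lev e' ≤ lev e := by
    intro e e' h
    by_contra hcon
    have h1 : (lev e + 1) * m ≤ lev e' * m := Nat.mul_le_mul_right m (by omega)
    rw [add_mul, one_mul] at h1
    have h2 := hidx e
    have h3 : lev e' * m + (idx e' : ℕ) < lev e * m + (idx e : ℕ) := h
    omega
  have hinj : ∀ e e', key e = key e' → e = e' := by
    intro e e' h
    have h1 : lev e * m + (idx e : ℕ) = lev e' * m + (idx e' : ℕ) := h
    have h2 : lev e = lev e' := by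
      rcases lt_trichotomy (lev e) (lev e') with h3 | h3 | h3
      · exfalso
        have h4 : (lev e + 1) * m ≤ lev e' * m := Nat.mul_le_mul_right m (by omega)
        rw [add_mul, one_mul] at h4
        have h2 := hidx e
        omega
      · exact h3
      · exfalso
        have h4 : (lev e' + 1) * m ≤ lev e * m := Nat.mul_le_mul_right m (by omega)
        rw [add_mul, one_mul] at h4
        have h2 := hidx e'
        omega
    rw [h2] at h1
    exact idx.injective (Fin.ext (by omega))
  let F : Set E := {e | e ∈ S' ∧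
    Bv L e ∉ Submodule.span ℚ (Bv L '' {e' | e' ∈ S' ∧ key e' < key e})}
  have h1 : ∀ n, ∀ e ∈ S', key e ≤ n →
      Bv L e ∈ Submodule.span ℚ (Bv L '' {e' | e' ∈ F ∧ key e' ≤ key e}) := by
    intro n
    induction n using Nat.strong_induction_on with
    | _ n ih =>
      intro e he hn
      by_cases heF : e ∈ F
      · exact Submodule.subset_span ⟨e, ⟨heF, le_rfl⟩, rfl⟩
      · have h2 : Bv L e ∈ Submodule.span ℚ (Bv L '' {e' | e' ∈ S' ∧ key e' < key e}) := by
          by_contra h3
          exact heF ⟨he, h3⟩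
        refine (Submodule.span_le.2 ?_) h2
        rintro _ ⟨e', ⟨h3, h4⟩, rfl⟩
        refine (Submodule.span_mono (Set.image_mono ?_)) (ih (key e') (by omega) e' h3 le_rfl)
        rintro e'' ⟨h5, h6⟩
        exact ⟨h5, by omega⟩
  refine ⟨F, fun e he => he.1, ?_, ?_⟩
  · intro z hz1 hz2
    by_contra hne
    have h2 : (Finset.univ.filter fun e => z e ≠ 0).Nonempty := by
      by_contra h3
      rw [Finset.not_nonempty_iff_eq_empty, Finset.filter_eq_empty_iff] at h3
      apply hne
      funext e
      have := h3 (Finset.mem_univ e)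
      rw [not_not] at this
      exact this
    obtain ⟨e, he, hmax⟩ := Finset.exists_max_image _ key h2
    rw [Finset.mem_filter] at he
    have heF : e ∈ F := by
      by_contra h3
      exact he.2 (hz1 e h3)
    apply heF.2
    have h3 : ∑ e', z e' • Bv L e' = 0 := by
      funext v
      have h4 := congrFun hz2 v
      change ∑ e', Bm L v e' * z e' = 0 at h4
      rw [Finset.sum_apply]
      refine Eq.trans (Finset.sum_congr rfl fun e' _ => ?_) h4
      change z e' * Bm L v e' = _
      ring
    rw [← Finset.add_sum_erase _ _ (Finset.mem_univ e)] at h3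
    have h4 : Bv L e = -((z e)⁻¹ • ∑ e' ∈ Finset.univ.erase e, z e' • Bv L e') := by
      have h5 : ∑ e' ∈ Finset.univ.erase e, z e' • Bv L e' = -(z e • Bv L e) :=
        eq_neg_of_add_eq_zero_right h3
      rw [h5, smul_neg, neg_neg, smul_smul, inv_mul_cancel₀ he.2, one_smul]
    rw [h4]
    refine Submodule.neg_mem _ (Submodule.smul_mem _ _ (Submodule.sum_mem _ fun e' he' => ?_))
    by_cases h5 : z e' = 0
    · rw [h5, zero_smul]; exact Submodule.zero_mem _
    · refine Submodule.smul_mem _ _ (Submodule.subset_span ⟨e', ⟨?_, ?_⟩, rfl⟩)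
      · by_contra h6
        exact h5 (hz1 e' fun h7 => h6 h7.1)
      · have h6 := hmax e' (Finset.mem_filter.2 ⟨Finset.mem_univ _, h5⟩)
        rcases Nat.lt_or_ge (key e') (key e) with h7 | h7
        · exact h7
        · exact absurd (hinj e' e (by omega)) (Finset.ne_of_mem_erase he')
  · intro e he heF
    refine conn_of_span L _ e ?_
    have h2 : Bv L e ∈ Submodule.span ℚ (Bv L '' {e' | e' ∈ S' ∧ key e' < key e}) := by
      by_contra h3
      exact heF ⟨he, h3⟩
    refine (Submodule.span_le.2 ?_) h2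
    rintro _ ⟨e', ⟨h3, h4⟩, rfl⟩
    refine (Submodule.span_mono (Set.image_mono ?_)) (h1 _ e' h3 le_rfl)
    rintro e'' ⟨h5, h6⟩
    exact ⟨h5, hkey e e'' (by omega)⟩

end Pool.Agent.K9h82.HT
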