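import Pool.Agent.K9h82.HT.Red2

/-!
# A Fox calculus argument
-/

set_option autoImplicit false

namespace Pool.Agent.K9h82.HT

open Multiplicative

/-- translation action on functions on a group -/
def trg (Γ Z : Type) [Group Γ] [Group Z] : Γ →* MulAut (Γ → Z) where
  toFun q :=
    { toFun := fun f v => f (v * q)
      invFun := fun f v => f (v * q⁻¹)
      left_inv := fun f => by funext v; simp
      right_inv := fun f => by funext v; simp
      map_mul' := fun f f' => rfl }
  map_one' := by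
    ext f v
    show f (v * 1) = f v
    rw [mul_one]
  map_mul' q q' := by
    ext f v
    show f (v * (q * q')) = f (v * q * q')
    rw [mul_assoc]

section

variable {E Γ : Type} [Group Γ]

open Classical in
/-- the contribution of a letter at the position `v` -/
noncomputable def fo (τ : E → Γ) (y : E) (g0 : Γ) (o : Option (E × Bool)) (v : Γ) : ℤ :=
  match o with
  | none => 0
  | some (e, true) => if e = y ∧ v = g0 then 1 else 0
  | some (e, false) => -(if e = y ∧ v * (τ e)⁻¹ = g0 then 1 else 0)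

theorem fo_t (τ : E → Γ) (y : E) (g0 : Γ) (e : E) (w : Γ) [Decidable (e = y ∧ w = g0)] :
    fo τ y g0 (some (e, true)) w = if e = y ∧ w = g0 then 1 else 0 := by
  by_cases hP : e = y ∧ w = g0
  · rw [if_pos hP]; exact if_pos hP
  · rw [if_neg hP]; exact if_neg hP

theorem fo_f (τ : E → Γ) (y : E) (g0 : Γ) (e : E) (w : Γ) [Decidable (e = y ∧ w * (τ e)⁻¹ = g0)] :
    fo τ y g0 (some (e, false)) w = -(if e = y ∧ w * (τ e)⁻¹ = g0 then 1 else 0) := by
  by_cases hP : e = y ∧ w * (τ e)⁻¹ = g0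
  · rw [if_pos hP]; exact congrArg Neg.neg (if_pos hP)
  · rw [if_neg hP]; exact congrArg Neg.neg (if_neg hP)

/-- the Fox derivative (coefficient at `g0`) -/
noncomputable def Fs (τ : E → Γ) (y : E) (g0 : Γ) (u : ℕ → Option (E × Bool)) (v : Γ) (k : ℕ) : ℤ :=
  ∑ i ∈ Finset.range k, fo τ y g0 (u i) (v * Wd τ u 0 i)

open Classical in
/-- the wreath homomorphism -/
noncomputable def Th (τ : E → Γ) (y : E) (g0 : Γ) :
    FreeGroup E →* (Γ → Multiplicative ℤ) ⋊[trg Γ (Multiplicative ℤ)] Γ :=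
  FreeGroup.lift fun e => ⟨fun v => if e = y ∧ v = g0 then ofAdd 1 else 1, τ e⟩

variable (τ : E → Γ) (y : E) (g0 : Γ)

theorem Th_of (e : E) (v : Γ) : (Th τ y g0 (FreeGroup.of e)).left v =
    ofAdd (fo τ y g0 (some (e, true)) v) := by
  classical
  unfold Th
  rw [FreeGroup.lift_apply_of]
  show (if e = y ∧ v = g0 then ofAdd 1 else 1) = ofAdd (if e = y ∧ v = g0 then 1 else 0)
  split_ifs <;> rfl

theorem Th_right (c : FreeGroup E) : (Th τ y g0 c).right = FreeGroup.lift τ c := by
  have : SemidirectProduct.rightHom.comp (Th τ y g0) = FreeGroup.lift τ := by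
    apply FreeGroup.ext_hom
    intro x
    show (Th τ y g0 (FreeGroup.of x)).right = _
    unfold Th
    rw [FreeGroup.lift_apply_of, FreeGroup.lift_apply_of]
  exact DFunLike.congr_fun this c

theorem Th_Lt (o : Option (E × Bool)) (v : Γ) : (Th τ y g0 (Lt FreeGroup.of o)).left v =
    ofAdd (fo τ y g0 o v) := by
  classical
  rcases o with _ | ⟨e, b⟩
  · show (Th τ y g0 1).left v = ofAdd 0
    rw [map_one]; rfl
  · cases b
    · show (Th τ y g0 (FreeGroup.of e)⁻¹).left v = ofAdd (-(if e = y ∧ v * (τ e)⁻¹ = g0 then 1 else 0))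
      rw [map_inv, SemidirectProduct.inv_left]
      show ((Th τ y g0 (FreeGroup.of e)).left (v * (Th τ y g0 (FreeGroup.of e)).right⁻¹))⁻¹ = _
      rw [Th_right, Th_of, FreeGroup.lift_apply_of, ← ofAdd_neg]
      rfl
    · exact Th_of τ y g0 e v

theorem Th_Wd (u : ℕ → Option (E × Bool)) (v : Γ) (k : ℕ) :
    (Th τ y g0 (Wd FreeGroup.of u 0 k)).left v = ofAdd (Fs τ y g0 u v k) := by
  induction k with
  | zero =>
    rw [Wd_zero, map_one]
    rfl
  | succ k ih =>
    rw [Wd_succ, map_mul, SemidirectProduct.mul_left]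
    show (Th τ y g0 (Wd FreeGroup.of u 0 k)).left v *
      (Th τ y g0 (Lt FreeGroup.of (u (0 + k)))).left (v * (Th τ y g0 (Wd FreeGroup.of u 0 k)).right) = _
    rw [ih, Th_Lt, Th_right, Wd_hom]
    have h1 : (fun e => FreeGroup.lift τ (FreeGroup.of e)) = τ := by
      funext e; exact FreeGroup.lift_apply_of
    rw [h1, Nat.zero_add, ← ofAdd_add]
    unfold Fs
    rw [Finset.sum_range_succ]

end

variable {X : Gr}

theorem Fs_zero {Γ : Type} [Group Γ] (τ : X.E → Γ) (y : X.E) (g0 : Γ) (γ : CP X) (h : ¬ Occ γ y)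
    (v : Γ) (k : ℕ) : Fs τ y g0 γ.w v k = 0 := by
  classical
  unfold Fs
  refine Finset.sum_eq_zero fun i _ => ?_
  rcases hu : γ.w i with _ | ⟨e, b⟩
  · rfl
  · have he : e ≠ y := fun he => h ⟨i, b, he ▸ hu⟩
    cases b
    · show -(if e = y ∧ _ then 1 else 0) = 0
      rw [if_neg fun h => he h.1, neg_zero]
    · exact if_neg fun h => he h.1

theorem fox_main {Γ : Type} [Group Γ] (τ : X.E → Γ) (y : X.E) (S : Set (CP X))
    (N : Subgroup (FreeGroup X.E)) [N.Normal] (hN : N ≤ Subgroup.normalClosure (word '' S))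
    (hS : ∀ c ∈ S, Wd τ c.w 0 c.len = 1 ∧ ¬ Occ c y) (γ D : CP X) (hγ : ¬ Occ γ y)
    (hD : Wd τ D.w 0 D.len = 1)
    (h : IsConj (QuotientGroup.mk' N (word γ)) (QuotientGroup.mk' N (word D))) (g0 v : Γ) :
    Fs τ y g0 D.w v D.len = 0 := by
  have h1 := conj_map N (Th τ y g0) (by
    refine hN.trans (Subgroup.normalClosure_le_normal ?_)
    rintro _ ⟨c, hc, rfl⟩
    show Th τ y g0 (word c) = 1
    obtain ⟨h2, h3⟩ := hS c hc
    refine SemidirectProduct.ext ?_ ?_
    · funext v
      refine (Th_Wd τ y g0 c.w v c.len).trans ?_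
      rw [Fs_zero τ y g0 c h3]
      rfl
    · rw [Th_right, lift_word, h2]
      rfl) h
  obtain ⟨a, ha⟩ := isConj_iff.1 h1
  have h2 : Th τ y g0 (word γ) = a⁻¹ * Th τ y g0 (word D) * a := by
    rw [← ha]; group
  have hR : (Th τ y g0 (word D)).right = 1 := by rw [Th_right, lift_word, hD]
  have h3 := congrArg (fun x => x.left (v * a.right)) h2
  simp only [SemidirectProduct.mul_left, SemidirectProduct.inv_left, Pi.mul_apply,
    SemidirectProduct.mul_right, SemidirectProduct.inv_right, hR, mul_one] at h3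
  have e1 : (Th τ y g0 (word γ)).left (v * a.right) = 1 := by
    refine (Th_Wd τ y g0 γ.w _ γ.len).trans ?_
    rw [Fs_zero τ y g0 γ hγ]
    rfl
  have e2 : (Th τ y g0 (word D)).left v = ofAdd (Fs τ y g0 D.w v D.len) := Th_Wd τ y g0 D.w v D.len
  have h4 : (1 : Multiplicative ℤ) = (a.left (v * a.right * a.right⁻¹))⁻¹ *
      (Th τ y g0 (word D)).left (v * a.right * a.right⁻¹) * a.left (v * a.right * a.right⁻¹) := by
    rw [← e1, h3]
    rfl
  rw [mul_inv_cancel_right] at h4
  have h5 : (Th τ y g0 (word D)).left v = 1 := by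
    rw [mul_comm, ← mul_assoc, mul_inv_cancel, one_mul] at h4
    exact h4.symm
  rw [e2] at h5
  exact ofAdd.injective h5

end Pool.Agent.K9h82.HT
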