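import Pool.Agent.K9h82.HT.Tow
import Pool.Agent.TH625.LOG.LI

/-!
# Local indicability of fundamental groups
-/

set_option autoImplicit false

namespace Pool.Agent.K9h82.HT

open Multiplicative Function
open Pool.Agent.TH625.LOG (LocInd surj_of_ne)

theorem ncl_list {F C : Type} [Group F] (w : C → F) (x : F)
    (hx : x ∈ Subgroup.normalClosure (Set.range w)) :
    ∃ l : List (F × C × Bool), x = (l.map fun t =>
      t.1 * (if t.2.2 = true then w t.2.1 else (w t.2.1)⁻¹) * t.1⁻¹).prod := by
  unfold Subgroup.normalClosure at hx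
  induction hx using Subgroup.closure_induction with
  | mem x hx =>
    obtain ⟨a, ⟨c, rfl⟩, hc⟩ := Group.mem_conjugatesOfSet_iff.1 hx
    obtain ⟨g, hg⟩ := isConj_iff.1 hc
    exact ⟨[(g, c, true)], by simp [← hg]⟩
  | one => exact ⟨[], rfl⟩
  | mul a b _ _ ha hb =>
    obtain ⟨l, rfl⟩ := ha
    obtain ⟨l', rfl⟩ := hb
    exact ⟨l ++ l', by rw [List.map_append, List.prod_append]⟩
  | inv a _ ha =>
    obtain ⟨l, rfl⟩ := ha
    refine ⟨(l.map fun t => (t.1, t.2.1, !t.2.2)).reverse, ?_⟩
    rw [List.prod_inv_reverse, List.map_reverse, List.map_map, List.map_map]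
    congr 2
    refine List.map_congr_left ?_
    rintro ⟨g, c, b⟩ _
    cases b <;> simp [mul_assoc]

variable {G F : Type} [Group G] [Group F]

/-- finitely many relations detect that there are no homomorphisms to the integers -/
theorem finite_rel {J : Type} [Fintype J] (H : Subgroup G) (h : J → H) (hgen : ∀ x ∈ H, x ∈
      Subgroup.closure (Set.range fun j => (h j : G)))
    (hno : ∀ ψ : H →* Multiplicative ℤ, ∀ x, ψ x = 1) :
    ∃ (I : Type) (_ : Fintype I) (R : I → FreeGroup J), (∀ i, FreeGroup.lift h (R i) = 1) ∧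
      ∀ z : J → ℤ, (∀ i, FreeGroup.lift (fun j => ofAdd (z j)) (R i) = 1) → ∀ j, z j = 0 := by
  classical
  let ab : FreeGroup J → J → ℤ := fun r j =>
    toAdd (FreeGroup.lift (fun j' => ofAdd (if j' = j then (1 : ℤ) else 0)) r)
  have hab : ∀ (z : J → ℤ) (r : FreeGroup J),
      FreeGroup.lift (fun j => ofAdd (z j)) r = ofAdd (∑ j, z j * ab r j) := by
    intro z r
    induction r using FreeGroup.induction_on with
    | C1 => rw [map_one]; simp [ab]
    | of x =>
      rw [FreeGroup.lift_apply_of]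
      simp [ab]
    | inv_of x _ =>
      rw [map_inv, FreeGroup.lift_apply_of]
      simp [ab]
    | mul x y hx hy =>
      rw [map_mul, hx, hy, ← ofAdd_add, ← Finset.sum_add_distrib]
      congr 1
      refine Finset.sum_congr rfl fun j _ => ?_
      show _ = z j * ab (x * y) j
      have : ab (x * y) j = ab x j + ab y j := by
        show toAdd _ = _
        rw [map_mul, toAdd_mul]
      rw [this, mul_add]
  let A : Set (J → ℤ) := {v | ∃ r, FreeGroup.lift h r = 1 ∧ ab r = v}
  have hfg : (Submodule.span ℤ A).FG := IsNoetherian.noetherian _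
  obtain ⟨t, htA, hts⟩ := (Submodule.fg_span_iff_fg_span_finset_subset A).1 hfg
  have hch : ∀ i : t, ∃ r, FreeGroup.lift h r = 1 ∧ ab r = i.1 := fun i => htA i.2
  choose R hR1 hR2 using hch
  refine ⟨t, inferInstance, R, hR1, ?_⟩
  intro z hz
  -- the functional `z` vanishes on the span
  have h1 : ∀ v ∈ Submodule.span ℤ A, ∑ j, z j * v j = 0 := by
    intro v hv
    rw [hts] at hv
    induction hv using Submodule.span_induction with
    | mem v hv =>
      have h2 := hz ⟨v, hv⟩
      rw [hab, hR2] at h2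
      exact ofAdd.injective h2
    | zero => simp
    | add v w _ _ h3 h4 =>
      have : ∑ j, z j * (v + w) j = ∑ j, z j * v j + ∑ j, z j * w j := by
        rw [← Finset.sum_add_distrib]
        exact Finset.sum_congr rfl fun j _ => by rw [Pi.add_apply, mul_add]
      rw [this, h3, h4, add_zero]
    | smul a v _ h3 =>
      have : ∑ j, z j * (a • v) j = a * ∑ j, z j * v j := by
        rw [Finset.mul_sum]
        exact Finset.sum_congr rfl fun j _ => by rw [Pi.smul_apply, smul_eq_mul]; ring
      rw [this, h3, mul_zero]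
  have h2 : ∀ r, FreeGroup.lift h r = 1 → FreeGroup.lift (fun j => ofAdd (z j)) r = 1 := by
    intro r hr
    rw [hab, h1 _ (Submodule.subset_span ⟨r, hr, rfl⟩)]
    rfl
  -- the homomorphism of `H`
  let q : FreeGroup J →* H := FreeGroup.lift h
  have hq : Surjective q := by
    intro x
    have h3 := hgen x.1 x.2
    have h4 : ∀ y (hy : y ∈ Subgroup.closure (Set.range fun j => (h j : G))),
        ∃ r, ((q r : H) : G) = y := by
      intro y hy
      induction hy using Subgroup.closure_induction with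
      | mem y hy =>
        obtain ⟨j, rfl⟩ := hy
        exact ⟨FreeGroup.of j, by show ((FreeGroup.lift h (FreeGroup.of j) : H) : G) = _; rw [FreeGroup.lift_apply_of]⟩
      | one => exact ⟨1, by rw [map_one]; rfl⟩
      | mul a b _ _ ha hb =>
        obtain ⟨r, rfl⟩ := ha
        obtain ⟨r', rfl⟩ := hb
        exact ⟨r * r', by rw [map_mul]; rfl⟩
      | inv a _ ha =>
        obtain ⟨r, rfl⟩ := ha
        exact ⟨r⁻¹, by rw [map_inv]; rfl⟩
    obtain ⟨r, hr⟩ := h4 x.1 h3
    exact ⟨r, Subtype.ext hr⟩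
  let ψ : H →* Multiplicative ℤ :=
    (QuotientGroup.lift q.ker (FreeGroup.lift (fun j => ofAdd (z j))) fun r hr => h2 r hr).comp
      (QuotientGroup.quotientKerEquivOfSurjective q hq).symm.toMonoidHom
  intro j
  have h3 := hno ψ (q (FreeGroup.of j))
  have h4 : (QuotientGroup.quotientKerEquivOfSurjective q hq).symm (q (FreeGroup.of j)) =
      QuotientGroup.mk (FreeGroup.of j) := by
    rw [MulEquiv.symm_apply_eq]
    rfl
  have h5 : ψ (q (FreeGroup.of j)) = FreeGroup.lift (fun j => ofAdd (z j)) (FreeGroup.of j) := by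
    show (QuotientGroup.lift q.ker (FreeGroup.lift (fun j => ofAdd (z j))) fun r hr => h2 r hr)
      ((QuotientGroup.quotientKerEquivOfSurjective q hq).symm (q (FreeGroup.of j))) = _
    rw [h4]
    rfl
  rw [h5, FreeGroup.lift_apply_of] at h3
  exact ofAdd.injective h3

/-- **Local indicability.** -/
theorem locInd_core (π : F →* G) (hπ : Surjective π)
    (HH : ∀ (J I : Type) [Fintype J] [Fintype I] (u : J → F) (R : I → FreeGroup J),
      (∀ i, π (FreeGroup.lift u (R i)) = 1) →
      (∀ z : J → ℤ, (∀ i, FreeGroup.lift (fun j => ofAdd (z j)) (R i) = 1) → ∀ j, z j = 0) →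
      ∃ (X : Gr) (C : Type) (d : C → CP X) (_ : Cls X C d) (τ : X.E → G) (P : J → CP X),
        (∀ c, Wd τ (d c).w 0 (d c).len = 1) ∧ (∀ j, Wd τ (P j).w 0 (P j).len = π (u j)) ∧
        ∀ i, FreeGroup.lift (fun j => word (P j)) (R i) ∈
          Subgroup.normalClosure (Set.range fun c => word (d c))) :
    LocInd G := by
  classical
  intro H hH hne
  by_contra hcon
  have hno : ∀ ψ : H →* Multiplicative ℤ, ∀ x, ψ x = 1 := by
    intro ψ x
    by_contra hx
    exact hcon (surj_of_ne ψ ⟨x, hx⟩)
  obtain ⟨s, hs⟩ := hH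
  have hsH : ∀ j : s, (j : G) ∈ H := fun j => hs ▸ Subgroup.subset_closure j.2
  obtain ⟨I, _, R, hR1, hR2⟩ := finite_rel (J := s) H (fun j => ⟨j.1, hsH j⟩) (by
    intro x hx
    have : (Set.range fun j : s => (j : G)) = (s : Set G) := by
      ext y; simp
    rw [this, hs]; exact hx) hno
  have hu : ∀ j : s, ∃ u : F, π u = j.1 := fun j => hπ j.1
  choose u hu using hu
  have hE : ∀ r : FreeGroup s, π (FreeGroup.lift u r) =
      ((FreeGroup.lift (fun j : s => (⟨j.1, hsH j⟩ : H)) r : H) : G) := by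
    intro r
    have h1 : π.comp (FreeGroup.lift u) =
        H.subtype.comp (FreeGroup.lift fun j : s => (⟨j.1, hsH j⟩ : H)) := by
      apply FreeGroup.ext_hom
      intro j
      show π (FreeGroup.lift u (FreeGroup.of j)) =
        ((FreeGroup.lift (fun j : s => (⟨j.1, hsH j⟩ : H)) (FreeGroup.of j) : H) : G)
      rw [FreeGroup.lift_apply_of, FreeGroup.lift_apply_of, hu]
    exact DFunLike.congr_fun h1 r
  obtain ⟨X, C, d, K, τ, P, hτ, hP, hR⟩ := HH s I u R (fun i => by rw [hE, hR1]; rfl) hR2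
  have hl : ∀ i : I, ∃ l : List (FreeGroup X.E × C × Bool),
      FreeGroup.lift (fun j => word (P j)) (R i) = (l.map fun t =>
        t.1 * (if t.2.2 = true then word (d t.2.1) else (word (d t.2.1))⁻¹) * t.1⁻¹).prod := fun i =>
    ncl_list (fun c => word (d c)) _ (hR i)
  choose l hl using hl
  have hder : Der d P R (fun i => List.ofFn fun k : Fin (l i).length => (⟨i, k⟩ : Σ i, Fin (l i).length))
      (fun k => ((l k.1).get k.2).1) (fun k => ((l k.1).get k.2).2.1)
      (fun k => ((l k.1).get k.2).2.2) := by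
    intro i
    rw [hl i, List.map_ofFn]
    congr 1
    conv_lhs => rw [← List.ofFn_get (l i), List.map_ofFn]
    rfl
  have h1 := tower hR2 _ _ X C d K τ hτ _ _ _ hder rfl
    (Nat.lt_of_lt_of_le (Nat.lt_succ_self _) (Nat.le_add_left _ _))
  apply hne
  rw [← hs, Subgroup.closure_eq_bot_iff]
  intro x hx
  have h2 := h1 ⟨x, hx⟩
  rw [hP, hu] at h2
  exact h2

theorem Lt_shift {E : Type} (φ : E → ℤ) (o : Option (E × Bool)) (h m0 : ℤ) :
    Lt (fun e : E × ℤ => FreeGroup.of (e.1, e.2 + m0)) (liftL φ o h) =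
      Lt FreeGroup.of (liftL φ o (h + m0)) := by
  rcases o with _ | ⟨e, b⟩
  · rfl
  · cases b
    · show (FreeGroup.of (e, h - φ e + m0))⁻¹ = (FreeGroup.of (e, h + m0 - φ e))⁻¹
      have : h - φ e + m0 = h + m0 - φ e := by ring
      rw [this]
    · rfl

/-- translation -/
def shf (E : Type) (m0 : ℤ) : FreeGroup (E × ℤ) →* FreeGroup (E × ℤ) :=
  FreeGroup.lift fun e : E × ℤ => FreeGroup.of (e.1, e.2 + m0)

theorem shf_word {X : Gr} (γ : CP X) (φ : X.E → ℤ) (h0 : Sa φ γ.w 0 γ.len = 0) (m m0 : ℤ) :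
    shf X.E m0 (word (γ.lift φ h0 m)) = word (γ.lift φ h0 (m + m0)) := by
  have key : ∀ k, shf X.E m0 (Wd FreeGroup.of (γ.lift φ h0 m).w 0 k) =
      Wd FreeGroup.of (γ.lift φ h0 (m + m0)).w 0 k := by
    intro k
    induction k with
    | zero => exact map_one _
    | succ k ih =>
      rw [Wd_succ, Wd_succ, map_mul, ih]
      congr 1
      rw [lift_w, lift_w, ht, ht, Nat.zero_add]
      have h1 : m + m0 + Sa φ γ.w 0 k = m + Sa φ γ.w 0 k + m0 := by ring
      rw [h1, ← Lt_shift φ (γ.w k) (m + Sa φ γ.w 0 k) m0]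
      rcases liftL φ (γ.w k) (m + Sa φ γ.w 0 k) with _ | ⟨e, b⟩
      · exact map_one _
      · cases b
        · show shf X.E m0 (FreeGroup.of e)⁻¹ = _
          rw [map_inv]
          unfold shf
          rw [FreeGroup.lift_apply_of]
          rfl
        · show shf X.E m0 (FreeGroup.of e) = _
          unfold shf
          rw [FreeGroup.lift_apply_of]
          rfl
  exact key _

/-- **Local indicability**, starting from an infinite cyclic covering. -/
theorem locInd_base (π : F →* G) (hπ : Surjective π) (X : Gr) (C : Type) (d : C → CP X)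
    (δ : X.E → ℤ) (τ : X.E → G) (hδ : ∀ c, Sa δ (d c).w 0 (d c).len = 0)
    (θ : F →* FreeGroup X.E)
    (ha : ∀ u : F, ∃ P : CP X, word P = θ u ∧ Wd τ P.w 0 P.len = π u)
    (hb : ∀ u, π u = 1 → θ u ∈ Subgroup.normalClosure (Set.range fun c => word (d c)))
    (Sp : C → Prop) (C' : Type) (d' : C' → CP (cov X δ)) (K : Cls (cov X δ) C' d')
    (hnc : ∀ (c : C) (m : ℤ), (Sp c → m ≤ 0) → word ((d c).lift δ (hδ c) m) ∈
      Subgroup.normalClosure (Set.range fun c' => word (d' c')))
    (hcoc : ∀ c', Wd (fun e : X.E × ℤ => τ e.1) (d' c').w 0 (d' c').len = 1) :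
    LocInd G := by
  classical
  refine locInd_core π hπ ?_
  intro J I _ _ u R hRu hR
  choose P hP1 hP2 using fun j : J => ha (u j)
  have hW : ∀ r : FreeGroup J, FreeGroup.lift (fun j => word (P j)) r = θ (FreeGroup.lift u r) := by
    intro r
    have h1 : FreeGroup.lift (fun j => word (P j)) = θ.comp (FreeGroup.lift u) := by
      apply FreeGroup.ext_hom
      intro j
      show _ = θ (FreeGroup.lift u (FreeGroup.of j))
      rw [FreeGroup.lift_apply_of, FreeGroup.lift_apply_of, hP1]
    exact DFunLike.congr_fun h1 r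
  have hl : ∀ i : I, ∃ l : List (FreeGroup X.E × C × Bool),
      FreeGroup.lift (fun j => word (P j)) (R i) = (l.map fun t =>
        t.1 * (if t.2.2 = true then word (d t.2.1) else (word (d t.2.1))⁻¹) * t.1⁻¹).prod := by
    intro i
    refine ncl_list (fun c => word (d c)) _ ?_
    rw [hW]
    exact hb _ (hRu i)
  choose l hl using hl
  have hder : Der d P R (fun i => List.ofFn fun k : Fin (l i).length => (⟨i, k⟩ : Σ i, Fin (l i).length))
      (fun k => ((l k.1).get k.2).1) (fun k => ((l k.1).get k.2).2.1)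
      (fun k => ((l k.1).get k.2).2.2) := by
    intro i
    rw [hl i, List.map_ofFn]
    congr 1
    conv_lhs => rw [← List.ofFn_get (l i), List.map_ofFn]
    rfl
  have hz := van hder hR δ fun k => hδ _
  have hd2 := der_lift hder δ (fun k => hδ _) hz
  obtain ⟨M, hM⟩ : ∃ M : ℕ, ∀ k : Σ i, Fin (l i).length, hg δ ((l k.1).get k.2).1 ≤ M := by
    obtain ⟨M, hM⟩ := (Finset.univ.image fun k : Σ i, Fin (l i).length =>
      (hg δ ((l k.1).get k.2).1).toNat).bddAbove
    refine ⟨M, fun k => ?_⟩
    have h1 : (hg δ ((l k.1).get k.2).1).toNat ≤ M :=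
      hM (Finset.mem_coe.2 (Finset.mem_image_of_mem _ (Finset.mem_univ k)))
    omega
  refine ⟨cov X δ, C', d', K, fun e : X.E × ℤ => τ e.1, fun j => (P j).lift δ (hz j) (0 + -(M : ℤ)),
    hcoc, fun j => (Wd_lift τ (P j) δ (hz j) _ 0 _).trans (hP2 j), ?_⟩
  intro i
  have h1 : FreeGroup.lift (fun j => word ((P j).lift δ (hz j) (0 + -(M : ℤ)))) (R i) =
      shf X.E (-(M : ℤ)) (FreeGroup.lift (fun j => word ((P j).lift δ (hz j) 0)) (R i)) := by
    have h2 : (FreeGroup.lift fun j => word ((P j).lift δ (hz j) (0 + -(M : ℤ)))) =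
        (shf X.E (-(M : ℤ))).comp (FreeGroup.lift fun j => word ((P j).lift δ (hz j) 0)) := by
      apply FreeGroup.ext_hom
      intro j
      refine FreeGroup.lift_apply_of.trans ?_
      refine (shf_word (P j) δ (hz j) 0 (-(M : ℤ))).symm.trans ?_
      exact congrArg (shf X.E (-(M : ℤ))) FreeGroup.lift_apply_of.symm
    exact DFunLike.congr_fun h2 (R i)
  refine (congrArg (· ∈ Subgroup.normalClosure (Set.range fun c => word (d' c))) h1).mpr ?_
  rw [hd2 i, map_list_prod, List.map_map]
  refine Subgroup.list_prod_mem _ ?_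
  intro x hx
  obtain ⟨k, -, rfl⟩ := List.mem_map.1 hx
  show shf X.E (-(M : ℤ)) (cj (dc d δ) _ _ _ k) ∈ _
  unfold cj
  rw [map_mul, map_mul, map_inv]
  refine Subgroup.normalClosure_normal.conj_mem _ ?_ _
  have h3 : shf X.E (-(M : ℤ)) (word ((d ((l k.1).get k.2).2.1).lift δ (hδ _)
      (hg δ ((l k.1).get k.2).1))) ∈
        Subgroup.normalClosure (Set.range fun c => word (d' c)) := by
    rw [shf_word]
    refine hnc _ _ fun _ => ?_
    have := hM k
    omega
  have h4 : ∀ b : Bool, shf X.E (-(M : ℤ)) (if b = true then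
      word ((d ((l k.1).get k.2).2.1).lift δ (hδ _) (hg δ ((l k.1).get k.2).1)) else
      (word ((d ((l k.1).get k.2).2.1).lift δ (hδ _) (hg δ ((l k.1).get k.2).1)))⁻¹) ∈
        Subgroup.normalClosure (Set.range fun c => word (d' c)) := by
    intro b
    cases b
    · rw [if_neg (by decide), map_inv]
      exact Subgroup.inv_mem _ h3
    · rw [if_pos rfl]
      exact h3
  exact h4 _

end Pool.Agent.K9h82.HT
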