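import Pool.Agent.K9h82.HT.Cx

/-!
# Complexes with a triangular structure: acyclic finite subcomplexes are simply connected
-/

set_option autoImplicit false

namespace Pool.Agent.K9h82.HT

/-- the class of complexes -/
structure Cls (X : Gr) (C : Type) (d : C → CP X) where
  rkE : X.E → ℤ
  rkC : C → ℤ
  le : ∀ c e, Occ (d c) e → rkE e ≤ rkC c
  upd : ∀ (j : ℤ) (T : Finset C) (D : Option C), T.Nonempty → (∀ c ∈ T, rkC c = j) →
    (∀ c, D = some c → c ∉ T ∧ rkC c ≤ j) →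
    ∃ c ∈ T, ∃ y, Occ (d c) y ∧ rkE y = j ∧ ∀ c', c' ∈ T ∨ D = some c' → c' ≠ c → ¬ Occ (d c') y
  ind : ∀ (p : ℕ) [Fact p.Prime],
    LinearIndependent (ZMod p) (fun c : C => fun e : X.E => ((ex (d c) e : ℤ) : ZMod p))
  red : ∀ c i k y b, 0 < k → k < (d c).len → (d c).w i = some (y, b) →
    (d c).w (i + k) = some (y, !b) → rkE y = rkC c →
    (∀ m, 0 < m → m < k → ∀ e b', (d c).w (i + m) = some (e, b') → rkE e ≠ rkC c) →
    ∃ (Γ : Type) (_ : Group Γ) (τ : X.E → Γ),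
      (∀ c', rkC c' < rkC c → Wd τ (d c').w 0 (d c').len = 1) ∧ Wd τ (d c).w (i + 1) (k - 1) ≠ 1

variable {X : Gr} {C : Type} {d : C → CP X}

theorem stepH1 [DecidableEq X.E] [DecidableEq C] {S : Finset X.E} {T : Finset C} {c : C} {y : X.E}
    (h : H1 ℤ d S T) (hy : ∀ c' ∈ T, c' ≠ c → ¬ Occ (d c') y)
    (hn : ex (d c) y ≠ 0) : H1 ℤ d (S.erase y) (T.erase c) := by
  intro φ hφ
  set α : ℤ := Sa φ (d c).w 0 (d c).len with hα
  set n : ℤ := ex (d c) y with hnd
  obtain ⟨b, hb⟩ := h (fun e => n * φ e + (-α) * dl ℤ y e) (by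
    intro c' hc'
    rw [Sa_lin]
    by_cases hcc : c' = c
    · subst hcc
      show n * α + -α * n = 0
      ring
    · rw [hφ c' (Finset.mem_erase.2 ⟨hcc, hc'⟩), Sa_eq_zero (φ := dl ℤ y), mul_zero, mul_zero, add_zero]
      intro i e b _ hu
      refine dl_ne fun he => hy c' hc' hcc ⟨_, b, he ▸ hu⟩)
  refine ⟨fun v => b v / n, fun e he => ?_⟩
  rw [Finset.mem_erase] at he
  have h1 := hb e he.2
  rw [dl_ne he.1, mul_zero, add_zero] at h1
  have h2 : b (X.tgt e) = b (X.src e) + n * φ e := by rw [h1]; ring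
  show φ e = b (X.tgt e) / n - b (X.src e) / n
  rw [h2, Int.add_mul_ediv_left _ _ hn]
  ring

theorem bridge [DecidableEq X.E] {S : Finset X.E} {y : X.E} {Γ : Type} [Group Γ] {φ : X.E → Γ}
    {s : X.V → ℤ} (hs : ∀ e ∈ S, dl ℤ y e = s (X.tgt e) - s (X.src e)) {g : X.V → Γ}
    (hg : ∀ e ∈ S.erase y, φ e = (g (X.src e))⁻¹ * g (X.tgt e)) (hy : y ∈ S) :
    ∃ g : X.V → Γ, ∀ e ∈ S, φ e = (g (X.src e))⁻¹ * g (X.tgt e) := by
  classical
  refine ⟨fun v => if s v = s (X.tgt y) then g (X.src y) * φ y * (g (X.tgt y))⁻¹ * g v else g v,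
    fun e he => ?_⟩
  by_cases hey : e = y
  · subst hey
    have h1 := hs e hy
    rw [dl_self] at h1
    have h2 : s (X.src e) ≠ s (X.tgt e) := by omega
    simp only [if_neg h2, if_true]
    group
  · have h1 := hs e he
    rw [dl_ne hey] at h1
    have h3 := hg e (Finset.mem_erase.2 ⟨hey, he⟩)
    by_cases h2 : s (X.src e) = s (X.tgt y)
    · have h4 : s (X.tgt e) = s (X.tgt y) := by omega
      simp only [if_pos h2, if_pos h4]
      rw [h3]
      group
    · have h4 : s (X.tgt e) ≠ s (X.tgt y) := by omega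
      simp only [if_neg h2, if_neg h4]
      exact h3

theorem stepSC [DecidableEq X.E] [DecidableEq C] {S : Finset X.E} {T : Finset C} {c : C} {y : X.E}
    (hS : Cl d S T) (hc : c ∈ T) (h : SC d (S.erase y) (T.erase c))
    (hn : (ex (d c) y).natAbs = 1) : SC d S T := by
  intro Γ _ φ hφ
  obtain ⟨g, hg⟩ := h Γ φ fun c' hc' => hφ c' (Finset.mem_of_mem_erase hc')
  refine ⟨g, ?_⟩
  set ζ : Γ := g (X.src y) * φ y * (g (X.tgt y))⁻¹ with hζ
  have h1 : Wd (fun e => g (X.src e) * φ e * (g (X.tgt e))⁻¹) (d c).w 0 (d c).len = 1 := by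
    rw [Wd_gauge, hφ c hc, Nat.zero_add, CP.vlen, mul_one, mul_inv_cancel]
  have h2 : Wd (fun e => g (X.src e) * φ e * (g (X.tgt e))⁻¹) (d c).w 0 (d c).len =
      ζ ^ ex (d c) y := by
    unfold ex
    rw [← Wd_zpow]
    refine Wd_congr fun i e b _ hu => ?_
    have he : e ∈ S := hS c hc e ⟨_, b, hu⟩
    by_cases hey : e = y
    · subst hey
      rw [dl_self, zpow_one]
    · rw [dl_ne hey, zpow_zero, hg e (Finset.mem_erase.2 ⟨hey, he⟩)]
      group
  have h3 : ζ = 1 := by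
    rw [h2] at h1
    rcases Int.natAbs_eq (ex (d c) y) with h4 | h4
    · rw [hn] at h4
      rw [h4] at h1
      simpa using h1
    · rw [hn] at h4
      rw [h4] at h1
      simpa using h1
  intro e he
  by_cases hey : e = y
  · subst hey
    have h4 : φ e = (g (X.src e))⁻¹ * ζ * g (X.tgt e) := by rw [hζ]; group
    rw [h4, h3, mul_one]
  · exact hg e (Finset.mem_erase.2 ⟨hey, he⟩)

theorem Sa_eq_sum {R : Type*} [CommRing R] (S : Finset X.E) (φ : X.E → R) (u : ℕ → Option (X.E × Bool))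
    (a k : ℕ) (h : ∀ i e b, i < k → u (a + i) = some (e, b) → e ∈ S) :
    Sa φ u a k = ∑ e ∈ S, ((Sa (dl ℤ e) u a k : ℤ) : R) * φ e := by
  have h1 : ∀ e, ((Sa (dl ℤ e) u a k : ℤ) : R) =
      ∑ i ∈ Finset.range k, ((La (dl ℤ e) (u (a + i)) : ℤ) : R) := fun e => by
    unfold Sa; push_cast; rfl
  simp_rw [h1, Finset.sum_mul]
  rw [Finset.sum_comm]
  unfold Sa
  refine Finset.sum_congr rfl fun i hi => ?_
  rcases hu : u (a + i) with _ | ⟨e, b⟩
  · simp [La]
  · have he := h i e b (Finset.mem_range.1 hi) hu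
    rw [Finset.sum_eq_single_of_mem e he]
    · cases b <;> simp [La, dl]
    · intro e' _ hne
      cases b <;> simp [La, dl, Ne.symm hne]

theorem unit_of [DecidableEq X.E] [DecidableEq C] {S : Finset X.E} {T : Finset C} {c : C} {y : X.E}
    (hS : Cl d S T) (hc : c ∈ T) (h : SC d (S.erase y) (T.erase c))
    (hind : ∀ (p : ℕ) [Fact p.Prime],
      LinearIndependent (ZMod p) (fun c : C => fun e : X.E => ((ex (d c) e : ℤ) : ZMod p))) :
    (ex (d c) y).natAbs = 1 := by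
  by_contra hcon
  obtain ⟨p, hp, hpd⟩ := Nat.exists_prime_and_dvd hcon
  have : Fact p.Prime := ⟨hp⟩
  have hp0 : ((ex (d c) y : ℤ) : ZMod p) = 0 := by
    rw [ZMod.intCast_zmod_eq_zero_iff_dvd]
    exact Int.natCast_dvd.2 hpd
  -- the restricted vectors
  let v : T → S → ZMod p := fun c' e => ((ex (d c'.1) e.1 : ℤ) : ZMod p)
  let F : (S → ZMod p) →ₗ[ZMod p] (X.E → ZMod p) :=
    { toFun := fun f e => if he : e ∈ S then f ⟨e, he⟩ else 0
      map_add' := fun f f' => by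
        funext e
        by_cases he : e ∈ S <;> simp [he]
      map_smul' := fun r f => by
        funext e
        by_cases he : e ∈ S <;> simp [he] }
  have hex0 : ∀ c' ∈ T, ∀ e, e ∉ S → ex (d c') e = 0 := by
    intro c' hc' e he
    refine Sa_eq_zero fun i e' b _ hu => dl_ne fun h1 => he ?_
    exact h1 ▸ hS c' hc' e' ⟨_, b, hu⟩
  have hv : LinearIndependent (ZMod p) v := by
    refine LinearIndependent.of_comp F ?_
    have h1 := (hind p).comp (fun c' : T => c'.1) Subtype.val_injective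
    have h2 : F ∘ v = (fun c : C => fun e : X.E => ((ex (d c) e : ℤ) : ZMod p)) ∘
        fun c' : T => c'.1 := by
      funext c' e
      show (if he : e ∈ S then v c' ⟨e, he⟩ else 0) = ((ex (d c'.1) e : ℤ) : ZMod p)
      by_cases he : e ∈ S
      · rw [dif_pos he]
      · rw [dif_neg he, hex0 c'.1 c'.2 e he, Int.cast_zero]
    rw [h2]
    exact h1
  have h1 : v ⟨c, hc⟩ ∉ Submodule.span (ZMod p) (v '' {c' | c' ≠ ⟨c, hc⟩}) :=
    hv.notMem_span_image (fun h => h rfl)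
  obtain ⟨f, hf1, hf2⟩ := Submodule.exists_le_ker_of_notMem h1
  let φ : X.E → ZMod p := fun e => if he : e ∈ S then f (Pi.single ⟨e, he⟩ 1) else 0
  have hφ : ∀ c' (hc' : c' ∈ T), Sa φ (d c').w 0 (d c').len = f (v ⟨c', hc'⟩) := by
    intro c' hc'
    rw [Sa_eq_sum S φ _ _ _ fun i e b _ hu => hS c' hc' e ⟨_, b, hu⟩]
    have h2 : v ⟨c', hc'⟩ = ∑ e : S, v ⟨c', hc'⟩ e • (Pi.single e 1 : S → ZMod p) := by
      funext e
      rw [Finset.sum_apply, Finset.sum_eq_single_of_mem e (Finset.mem_univ _)]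
      · simp
      · intro e' _ hne
        simp [Pi.single_eq_of_ne (Ne.symm hne)]
    rw [h2, map_sum, ← Finset.sum_coe_sort]
    refine Finset.sum_congr rfl fun e _ => ?_
    rw [map_smul, smul_eq_mul]
    show _ = ((ex (d c') e.1 : ℤ) : ZMod p) * _
    congr 1
    exact dif_pos e.2
  obtain ⟨b, hb⟩ := h.h1 (ZMod p) φ (by
    intro c' hc'
    rw [Finset.mem_erase] at hc'
    rw [hφ c' hc'.2]
    exact hf2 (Submodule.subset_span ⟨⟨c', hc'.2⟩, fun h2 => hc'.1 (congrArg Subtype.val h2), rfl⟩))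
  apply hf1
  rw [← hφ c hc]
  have h3 : Sa φ (d c).w 0 (d c).len = Sa (fun e => (1 : ZMod p) * (b (X.tgt e) - b (X.src e)) +
      (φ y - (b (X.tgt y) - b (X.src y))) * dl (ZMod p) y e) (d c).w 0 (d c).len := by
    refine Sa_congr fun i e b' _ hu => ?_
    have he : e ∈ S := hS c hc e ⟨_, b', hu⟩
    by_cases hey : e = y
    · subst hey
      rw [dl_self]
      ring
    · rw [dl_ne hey, hb e (Finset.mem_erase.2 ⟨hey, he⟩)]
      ring
  rw [h3, Sa_lin, Sa_cob (d c) (g := b) (fun i e b' _ _ => rfl), Nat.zero_add, CP.vlen]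
  have h4 : Sa (dl (ZMod p) y) (d c).w 0 (d c).len = 0 := by
    rw [← hp0]
    unfold ex
    rw [Sa_cast]
    refine Sa_congr fun i e b' _ _ => ?_
    by_cases hey : e = y
    · subst hey; rw [dl_self, dl_self, Int.cast_one]
    · rw [dl_ne hey, dl_ne hey, Int.cast_zero]
  rw [h4]
  ring

end Pool.Agent.K9h82.HT
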