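import Pool.Agent.K9h82.HT.MC

/-!
# The main induction
-/

set_option autoImplicit false

namespace Pool.Agent.K9h82.HT

variable {X : Gr} {C : Type} {d : C → CP X}

theorem some_not {E : Type} {y : E} {b : Bool} : (some (y, b) : Option (E × Bool)) ≠ some (y, !b) := by
  intro h
  rw [Option.some.injEq, Prod.mk.injEq] at h
  cases b <;> exact absurd h.2 (by decide)

theorem consec {E : Type} {u : ℕ → Option (E × Bool)} {y : E} {b : Bool} : ∀ (k p : ℕ), 0 < k →
    u p = some (y, b) → u (p + k) = some (y, !b) → ∃ p' k', 0 < k' ∧ u p' = some (y, b) ∧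
      u (p' + k') = some (y, !b) ∧ ∀ m, 0 < m → m < k' → ∀ b', u (p' + m) ≠ some (y, b') := by
  intro k
  induction k using Nat.strong_induction_on with
  | _ k ih =>
    intro p hk h1 h2
    by_cases h : ∀ m, 0 < m → m < k → ∀ b', u (p + m) ≠ some (y, b')
    · exact ⟨p, k, hk, h1, h2, h⟩
    · push Not at h
      obtain ⟨m, hm1, hm2, b', hb'⟩ := h
      by_cases hbb : b' = b
      · subst hbb
        refine ih (k - m) (by omega) (p + m) (by omega) hb' ?_
        rw [← h2]
        congr 1
        omega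
      · have h3 : b' = !b := by cases b <;> cases b' <;> simp_all
        subst h3
        exact ih m hm2 p hm1 h1 hb'

theorem consec' {γ : CP X} {y : X.E} {b : Bool} (h1 : ∃ i, γ.w i = some (y, b))
    (h2 : ∃ i, γ.w i = some (y, !b)) : ∃ p k, 0 < k ∧ k < γ.len ∧ γ.w p = some (y, b) ∧
      γ.w (p + k) = some (y, !b) ∧ ∀ m, 0 < m → m < k → ∀ b', γ.w (p + m) ≠ some (y, b') := by
  obtain ⟨i, hi⟩ := h1
  obtain ⟨j, hj⟩ := h2
  have h3 : γ.w (j + (i + 1) * γ.len) = some (y, !b) := by rw [per_mul γ.perw, hj]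
  have h4 : i + 1 ≤ (i + 1) * γ.len := Nat.le_mul_of_pos_right _ γ.pos
  obtain ⟨p, k, hk, h5, h6, h7⟩ := consec (j + (i + 1) * γ.len - i) i (by omega) hi
    (by rw [← h3]; congr 1; omega)
  refine ⟨p, k, hk, ?_, h5, h6, h7⟩
  by_contra hlen
  push Not at hlen
  rcases Nat.lt_or_eq_of_le hlen with h8 | h8
  · exact h7 γ.len γ.pos h8 b (by rw [γ.perw, h5])
  · rw [← h8, γ.perw, h5] at h6
    exact some_not h6

theorem const_on (γ : CP X) (s : X.V → ℤ) (p k : ℕ)
    (h : ∀ m, 0 < m → m < k → ∀ e b, γ.w (p + m) = some (e, b) → s (X.src e) = s (X.tgt e)) :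
    ∀ m, 0 < m → m ≤ k → s (γ.vx (p + m)) = s (γ.vx (p + 1)) := by
  intro m
  induction m with
  | zero => intro h0; exact absurd h0 (lt_irrefl _)
  | succ m ih =>
    intro _ hm
    rcases Nat.eq_zero_or_pos m with h0 | h0
    · rw [h0, Nat.zero_add]
    · rw [← ih h0 (by omega)]
      have h1 := γ.adj (p + m)
      rcases hu : γ.w (p + m) with _ | ⟨e, b⟩
      · rw [hu] at h1
        exact congrArg s (Eq.symm h1)
      · have h2 := h m h0 (by omega) e b hu
        rw [hu] at h1
        cases b
        · obtain ⟨h3, h4⟩ : γ.vx (p + m) = X.tgt e ∧ γ.vx (p + m + 1) = X.src e := h1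
          rw [← Nat.add_assoc, h4, h3, h2]
        · obtain ⟨h3, h4⟩ : γ.vx (p + m) = X.src e ∧ γ.vx (p + m + 1) = X.tgt e := h1
          rw [← Nat.add_assoc, h4, h3, h2]

theorem adj_src (γ : CP X) {i : ℕ} {e : X.E} {b : Bool} (h : γ.w i = some (e, b)) :
    X.src e = γ.vx i ∨ X.src e = γ.vx (i + 1) := by
  have h1 := γ.adj i
  rw [h] at h1
  cases b
  · exact Or.inr h1.2.symm
  · exact Or.inl h1.1.symm

/-- the inductive statement -/
def Good (K : Cls X C d) (S : Finset X.E) (T : Finset C) : Prop :=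
  (H1 ℤ d S T → SC d S T) ∧
  (SC d S T → ∀ c, c ∉ T → ∀ k p y b, 0 < k → k < (d c).len → (d c).w p = some (y, b) →
    (d c).w (p + k) = some (y, !b) → K.rkE y = K.rkC c →
    ¬ ∀ m, 0 < m → m < k → ∀ e b', (d c).w (p + m) = some (e, b') → e ∈ S)

theorem nz (K : Cls X C d) (N : ℕ) (IH : ∀ (S : Finset X.E) (T : Finset C), Cl d S T →
    S.card + T.card < N → Good K S T) (S : Finset X.E) (T : Finset C) (hS : Cl d S T)
    (hcard : S.card + T.card < N + 1) (h : H1 ℤ d S T) (c : C) (hc : c ∈ T) (y : X.E)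
    (hocc : Occ (d c) y) (hrk : K.rkE y = K.rkC c)
    (hy : ∀ c' ∈ T, c' ≠ c → ¬ Occ (d c') y) : ex (d c) y ≠ 0 := by
  classical
  intro hex
  have hyS : y ∈ S := hS c hc y hocc
  obtain ⟨s, hs⟩ := h (dl ℤ y) (by
    intro c' hc'
    by_cases hcc : c' = c
    · subst hcc; exact hex
    · refine Sa_eq_zero fun i e b _ hu => dl_ne fun he => hy c' hc' hcc ⟨_, b, he ▸ hu⟩)
  have hs0 : ∀ e ∈ S, e ≠ y → s (X.src e) = s (X.tgt e) := by
    intro e he hey
    have := hs e he
    rw [dl_ne hey] at this
    omega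
  have hs1 : s (X.src y) ≠ s (X.tgt y) := by
    have := hs y hyS
    rw [dl_self] at this
    omega
  -- constancy of `s` along the other cells
  have hcon : ∀ c' ∈ T, c' ≠ c → ∀ i, s ((d c').vx i) = s ((d c').vx 0) := by
    intro c' hc' hcc i
    have h1 : ∀ m, 0 < m → m < i + (d c').len + 1 → ∀ e b, (d c').w (0 + m) = some (e, b) →
        s (X.src e) = s (X.tgt e) := by
      intro m _ _ e b hu
      exact hs0 e (hS c' hc' e ⟨_, b, hu⟩) fun he => hy c' hc' hcc ⟨_, b, he ▸ hu⟩
    have h2 := const_on (d c') s 0 _ h1 (i + (d c').len) (by have := (d c').pos; omega) (by omega)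
    have h3 := const_on (d c') s 0 _ h1 (d c').len (d c').pos (by omega)
    rw [Nat.zero_add, (d c').perv] at h2
    rw [Nat.zero_add, CP.vlen] at h3
    rw [h2, h3]
  set σ := s (X.tgt y) with hσ
  set S1 := (S.erase y).filter (fun e => s (X.src e) = σ) with hS1
  set S2 := (S.erase y).filter (fun e => ¬ s (X.src e) = σ) with hS2
  set T1 := (T.erase c).filter (fun c' => s ((d c').vx 0) = σ) with hT1
  set T2 := (T.erase c).filter (fun c' => ¬ s ((d c').vx 0) = σ) with hT2
  have hsrc : ∀ c' ∈ T, c' ≠ c → ∀ e, Occ (d c') e → e ∈ S.erase y ∧ s (X.src e) = s ((d c').vx 0) := by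
    rintro c' hc' hcc e ⟨i, b, hu⟩
    refine ⟨Finset.mem_erase.2 ⟨fun he => hy c' hc' hcc ⟨i, b, he ▸ hu⟩, hS c' hc' e ⟨i, b, hu⟩⟩, ?_⟩
    rcases adj_src _ hu with h1 | h1 <;> rw [h1, hcon c' hc' hcc]
  have hcl1 : Cl d S1 T1 := by
    intro c' hc' e he
    rw [hT1, Finset.mem_filter, Finset.mem_erase] at hc'
    obtain ⟨h1, h2⟩ := hsrc c' hc'.1.2 hc'.1.1 e he
    exact Finset.mem_filter.2 ⟨h1, h2.trans hc'.2⟩
  have hcl2 : Cl d S2 T2 := by
    intro c' hc' e he
    rw [hT2, Finset.mem_filter, Finset.mem_erase] at hc'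
    obtain ⟨h1, h2⟩ := hsrc c' hc'.1.2 hc'.1.1 e he
    exact Finset.mem_filter.2 ⟨h1, fun h3 => hc'.2 (h2.symm.trans h3)⟩
  have hSy : (S.erase y).card < S.card := Finset.card_erase_lt_of_mem hyS
  have hTc : (T.erase c).card ≤ T.card := Finset.card_le_card (Finset.erase_subset _ _)
  have hc1 : S1.card + T1.card < N := by
    have h1 : S1.card ≤ (S.erase y).card := Finset.card_le_card (Finset.filter_subset _ _)
    have h2 : T1.card ≤ (T.erase c).card := Finset.card_le_card (Finset.filter_subset _ _)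
    omega
  have hc2 : S2.card + T2.card < N := by
    have h1 : S2.card ≤ (S.erase y).card := Finset.card_le_card (Finset.filter_subset _ _)
    have h2 : T2.card ≤ (T.erase c).card := Finset.card_le_card (Finset.filter_subset _ _)
    omega
  -- both signs occur
  have hboth : ∀ b, ∃ i, (d c).w i = some (y, b) := by
    obtain ⟨i, hi, b, hu⟩ := hocc.lt
    have h1 : (d c).w (0 + i) = some (y, b) := by rw [Nat.zero_add]; exact hu
    obtain ⟨m', _, hm'⟩ := opp hex hi h1
    intro b'
    by_cases hbb : b' = b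
    · subst hbb; exact ⟨i, hu⟩
    · have h3 : b' = !b := by cases b <;> cases b' <;> simp_all
      subst h3; exact ⟨_, hm'⟩
  have hcT1 : c ∉ T1 := fun h1 => by
    rw [hT1, Finset.mem_filter, Finset.mem_erase] at h1
    exact h1.1.1 rfl
  have hcT2 : c ∉ T2 := fun h1 => by
    rw [hT2, Finset.mem_filter, Finset.mem_erase] at h1
    exact h1.1.1 rfl
  by_cases hA : H1 ℤ d S1 T1
  · obtain ⟨p, k, hk, hkl, h1, h2, h3⟩ := consec' (hboth true) (hboth false)
    have hcst := const_on (d c) s p k (fun m hm hmk e b hu =>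
      hs0 e (hS c hc e ⟨_, b, hu⟩) fun he => h3 m hm hmk b (he ▸ hu))
    have hp1 : (d c).vx (p + 1) = X.tgt y := by
      have := (d c).adj p
      rw [h1] at this
      exact this.2
    refine (IH S1 T1 hcl1 hc1).2 ((IH S1 T1 hcl1 hc1).1 hA) c hcT1 k p y true hk hkl h1 h2 hrk ?_
    intro m hm hmk e b hu
    refine Finset.mem_filter.2 ⟨Finset.mem_erase.2 ⟨fun he => h3 m hm hmk b (he ▸ hu),
      hS c hc e ⟨_, b, hu⟩⟩, ?_⟩
    rcases adj_src _ hu with h4 | h4
    · rw [h4, hcst m hm (by omega), hp1]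
    · rw [h4, Nat.add_assoc, hcst (m + 1) (by omega) (by omega), hp1]
  by_cases hB : H1 ℤ d S2 T2
  · obtain ⟨p, k, hk, hkl, h1, h2, h3⟩ := consec' (hboth false) (hboth true)
    have hcst := const_on (d c) s p k (fun m hm hmk e b hu =>
      hs0 e (hS c hc e ⟨_, b, hu⟩) fun he => h3 m hm hmk b (he ▸ hu))
    have hp1 : (d c).vx (p + 1) = X.src y := by
      have := (d c).adj p
      rw [h1] at this
      exact this.2
    refine (IH S2 T2 hcl2 hc2).2 ((IH S2 T2 hcl2 hc2).1 hB) c hcT2 k p y false hk hkl h1 h2 hrk ?_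
    intro m hm hmk e b hu
    refine Finset.mem_filter.2 ⟨Finset.mem_erase.2 ⟨fun he => h3 m hm hmk b (he ▸ hu),
      hS c hc e ⟨_, b, hu⟩⟩, ?_⟩
    rcases adj_src _ hu with h4 | h4
    · rw [h4, hcst m hm (by omega), hp1]; exact hs1
    · rw [h4, Nat.add_assoc, hcst (m + 1) (by omega) (by omega), hp1]; exact hs1
  -- the last case
  unfold H1 at hA hB
  push Not at hA hB
  obtain ⟨φ1, hφ1, hn1⟩ := hA
  obtain ⟨φ2, hφ2, hn2⟩ := hB
  set ψ1 : X.E → ℤ := fun e => if e ∈ S1 then φ1 e else 0 with hψ1
  set ψ2 : X.E → ℤ := fun e => if e ∈ S2 then φ2 e else 0 with hψ2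
  have h12 : ∀ e, e ∈ S1 → e ∉ S2 := by
    intro e he he'
    exact (Finset.mem_filter.1 he').2 (Finset.mem_filter.1 he).2
  have hT12 : ∀ c' ∈ T, c' ≠ c → c' ∈ T1 ∨ c' ∈ T2 := by
    intro c' hc' hcc
    by_cases h1 : s ((d c').vx 0) = σ
    · exact Or.inl (Finset.mem_filter.2 ⟨Finset.mem_erase.2 ⟨hcc, hc'⟩, h1⟩)
    · exact Or.inr (Finset.mem_filter.2 ⟨Finset.mem_erase.2 ⟨hcc, hc'⟩, h1⟩)
  have hz1 : ∀ c' ∈ T, c' ≠ c → Sa ψ1 (d c').w 0 (d c').len = 0 := by
    intro c' hc' hcc
    rcases hT12 c' hc' hcc with h1 | h1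
    · rw [← hφ1 c' h1]
      exact Sa_congr fun i e b _ hu => if_pos (hcl1 c' h1 e ⟨_, b, hu⟩)
    · refine Sa_eq_zero fun i e b _ hu => if_neg fun h2 => h12 e h2 (hcl2 c' h1 e ⟨_, b, hu⟩)
  have hz2 : ∀ c' ∈ T, c' ≠ c → Sa ψ2 (d c').w 0 (d c').len = 0 := by
    intro c' hc' hcc
    rcases hT12 c' hc' hcc with h1 | h1
    · refine Sa_eq_zero fun i e b _ hu => if_neg fun h2 => h12 e (hcl1 c' h1 e ⟨_, b, hu⟩) h2
    · rw [← hφ2 c' h1]
      exact Sa_congr fun i e b _ hu => if_pos (hcl2 c' h1 e ⟨_, b, hu⟩)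
  have hS12 : ∀ e, (e ∈ S1 ∨ e ∈ S2) → e ∈ S := by
    rintro e (h1 | h1) <;> exact Finset.mem_of_mem_erase (Finset.mem_filter.1 h1).1
  have key : ∀ r t : ℤ, r * Sa ψ1 (d c).w 0 (d c).len + t * Sa ψ2 (d c).w 0 (d c).len = 0 →
      ∃ b : X.V → ℤ, ∀ e ∈ S, r * ψ1 e + t * ψ2 e = b (X.tgt e) - b (X.src e) := by
    intro r t hrt
    refine h (fun e => r * ψ1 e + t * ψ2 e) fun c' hc' => ?_
    rw [Sa_lin]
    by_cases hcc : c' = c
    · subst hcc; exact hrt
    · rw [hz1 c' hc' hcc, hz2 c' hc' hcc, mul_zero, mul_zero, add_zero]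
  by_cases hβ : Sa ψ2 (d c).w 0 (d c).len = 0
  · obtain ⟨b, hb⟩ := key 0 1 (by rw [hβ]; ring)
    obtain ⟨e, he, hne⟩ := hn2 b
    apply hne
    have h1 := hb e (hS12 e (Or.inr he))
    rw [zero_mul, one_mul, zero_add] at h1
    rw [← h1]
    exact (if_pos he).symm
  · set β := Sa ψ2 (d c).w 0 (d c).len with hβd
    obtain ⟨b, hb⟩ := key β (-Sa ψ1 (d c).w 0 (d c).len) (by ring)
    obtain ⟨e, he, hne⟩ := hn1 fun v => b v / β
    apply hne
    have h1 := hb e (hS12 e (Or.inl he))
    have h2 : ψ1 e = φ1 e := if_pos he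
    have h3 : ψ2 e = 0 := if_neg (h12 e he)
    rw [h2, h3, mul_zero, add_zero] at h1
    have h4 : b (X.tgt e) = b (X.src e) + β * φ1 e := by rw [h1]; ring
    show φ1 e = b (X.tgt e) / β - b (X.src e) / β
    rw [h4, Int.add_mul_ediv_left _ _ hβ]
    ring

theorem good (K : Cls X C d) : ∀ (N : ℕ) (S : Finset X.E) (T : Finset C), Cl d S T →
    S.card + T.card < N → Good K S T := by
  classical
  intro N
  induction N with
  | zero => intro S T _ h; exact absurd h (Nat.not_lt_zero _)
  | succ N IH =>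
    intro S T hS hcard
    have top : ∀ (D : Option C), T.Nonempty → (∀ c, D = some c → c ∉ T ∧ ∃ c' ∈ T, K.rkC c ≤ K.rkC c') →
        H1 ℤ d S T → ∃ c ∈ T, ∃ y, Occ (d c) y ∧ (∀ c', D = some c' → ¬ Occ (d c') y) ∧
          Cl d (S.erase y) (T.erase c) ∧ SC d (S.erase y) (T.erase c) := by
      intro D hT hD h
      obtain ⟨c0, hc0, hmax⟩ := Finset.exists_max_image T K.rkC hT
      obtain ⟨c, hc, y, hy1, hy2, hy3⟩ := K.upd (K.rkC c0) (T.filter fun c => K.rkC c = K.rkC c0) D
        ⟨c0, Finset.mem_filter.2 ⟨hc0, rfl⟩⟩ (fun c hc => (Finset.mem_filter.1 hc).2) (by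
          intro c hc
          obtain ⟨h1, c', h2, h3⟩ := hD c hc
          exact ⟨fun h4 => h1 (Finset.mem_filter.1 h4).1, h3.trans (hmax c' h2)⟩)
      rw [Finset.mem_filter] at hc
      have hy4 : ∀ c' ∈ T, c' ≠ c → ¬ Occ (d c') y := by
        intro c' hc' hne hocc
        by_cases h1 : K.rkC c' = K.rkC c0
        · exact hy3 c' (Or.inl (Finset.mem_filter.2 ⟨hc', h1⟩)) hne hocc
        · have h2 := K.le c' y hocc
          have h3 := hmax c' hc'
          rw [hy2] at h2
          exact h1 (le_antisymm h3 h2)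
      have h5 := nz K N IH S T hS hcard h c hc.1 y hy1 (hy2.trans hc.2.symm) hy4
      have h6 := stepH1 h hy4 h5
      have hyS : y ∈ S := hS c hc.1 y hy1
      have hcl : Cl d (S.erase y) (T.erase c) := by
        intro c' hc' e he
        rw [Finset.mem_erase] at hc'
        refine Finset.mem_erase.2 ⟨?_, hS c' hc'.2 e he⟩
        intro hey
        subst hey
        exact hy4 c' hc'.2 hc'.1 he
      have hlt : (S.erase y).card + (T.erase c).card < N := by
        have h7 := Finset.card_erase_lt_of_mem hyS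
        have h8 := Finset.card_erase_lt_of_mem hc.1
        omega
      refine ⟨c, hc.1, y, hy1, ?_, hcl, (IH _ _ hcl hlt).1 h6⟩
      intro c' hc' hocc
      refine hy3 c' (Or.inr hc') ?_ hocc
      intro h7
      subst h7
      exact (hD _ hc').1 hc.1
    constructor
    · intro h
      rcases T.eq_empty_or_nonempty with hT | hT
      · rcases S.eq_empty_or_nonempty with hS0 | ⟨y, hyS⟩
        · intro Γ _ φ _
          exact ⟨fun _ => 1, fun e he => absurd he (by rw [hS0]; exact Finset.notMem_empty _)⟩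
        · intro Γ _ φ hφ
          have h1 : H1 ℤ d (S.erase y) T := by
            intro φ' hφ'
            obtain ⟨g, hg⟩ := h φ' hφ'
            exact ⟨g, fun e he => hg e (Finset.mem_of_mem_erase he)⟩
          have hcl : Cl d (S.erase y) T := by
            intro c' hc'
            rw [hT] at hc'
            exact absurd hc' (Finset.notMem_empty _)
          have h7 := Finset.card_erase_lt_of_mem hyS
          obtain ⟨g, hg⟩ := (IH (S.erase y) T hcl (by omega)).1 h1 Γ φ hφ
          obtain ⟨s, hs⟩ := h (dl ℤ y) (by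
            intro c' hc'
            rw [hT] at hc'
            exact absurd hc' (Finset.notMem_empty _))
          exact bridge hs hg hyS
      · obtain ⟨c, hc, y, _, _, _, h3⟩ := top none hT (fun c hc => absurd hc (by simp)) h
        exact stepSC hS hc h3 (unit_of hS hc h3 K.ind)
    · intro hSC c hcT
      by_cases hhigh : ∃ c' ∈ T, K.rkC c ≤ K.rkC c'
      · intro k p y b hk hkl h1 h2 hrk hbt
        obtain ⟨c', hc', h3⟩ := hhigh
        obtain ⟨c1, hc1, y1, hy1, hy2, hcl, h4⟩ := top (some c) ⟨c', hc'⟩ (by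
          intro c2 hc2
          rw [Option.some.injEq] at hc2
          subst hc2
          exact ⟨hcT, c', hc', h3⟩) (hSC.h1 ℤ)
        have hyS : y1 ∈ S := hS c1 hc1 y1 hy1
        have hlt : (S.erase y1).card + (T.erase c1).card < N := by
          have h7 := Finset.card_erase_lt_of_mem hyS
          have h8 := Finset.card_erase_lt_of_mem hc1
          omega
        refine (IH _ _ hcl hlt).2 h4 c (fun h5 => hcT (Finset.mem_of_mem_erase h5)) k p y b hk hkl
          h1 h2 hrk ?_
        intro m hm hmk e b' hu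
        refine Finset.mem_erase.2 ⟨?_, hbt m hm hmk e b' hu⟩
        intro he
        subst he
        exact hy2 c rfl ⟨_, b', hu⟩
      · push Not at hhigh
        intro k
        induction k using Nat.strong_induction_on with
        | _ k ihk =>
          intro p y b hk hkl h1 h2 hrk hbt
          by_cases hin : ∀ m, 0 < m → m < k → ∀ e b', (d c).w (p + m) = some (e, b') →
              K.rkE e ≠ K.rkC c
          · obtain ⟨Γ, _, τ, hτ, hne⟩ := K.red c p k y b hk hkl h1 h2 hrk hin
            apply hne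
            obtain ⟨g, hg⟩ := hSC Γ τ fun c' hc' => hτ c' (hhigh c' hc')
            rw [Wd_cob (d c) (g := g)]
            · have h5 : (d c).vx (p + 1 + (k - 1)) = (d c).vx (p + 1) := by
                have h6 := (d c).adj p
                have h7 := (d c).adj (p + k)
                rw [h1] at h6
                rw [h2] at h7
                have h8 : p + 1 + (k - 1) = p + k := by omega
                rw [h8]
                cases b
                · exact h7.1.trans h6.2.symm
                · exact h7.1.trans h6.2.symm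
              rw [h5, inv_mul_cancel]
            · intro i e b' hi hu
              have h8 : p + 1 + i = p + (i + 1) := by omega
              rw [h8] at hu
              exact hg e (hbt (i + 1) (by omega) (by omega) e b' hu)
          · push Not at hin
            obtain ⟨m, hm, hmk, e, b', hu, hrke⟩ := hin
            have heS := hbt m hm hmk e b' hu
            obtain ⟨s, hs⟩ := hSC.h1 ℤ (dl ℤ e) (by
              intro c' hc'
              refine Sa_eq_zero fun i e' b'' _ hu' => dl_ne fun he => ?_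
              have h5 := K.le c' e ⟨_, b'', he ▸ hu'⟩
              have h6 := hhigh c' hc'
              omega)
            have hz : Sa (dl ℤ e) (d c).w (p + 1) (k - 1) = 0 := by
              rw [Sa_cob (d c) (g := s)]
              · have h5 : (d c).vx (p + 1 + (k - 1)) = (d c).vx (p + 1) := by
                  have h6 := (d c).adj p
                  have h7 := (d c).adj (p + k)
                  rw [h1] at h6
                  rw [h2] at h7
                  have h8 : p + 1 + (k - 1) = p + k := by omega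
                  rw [h8]
                  cases b
                  · exact h7.1.trans h6.2.symm
                  · exact h7.1.trans h6.2.symm
                rw [h5, sub_self]
              · intro i e1 b1 hi hu1
                have h8 : p + 1 + i = p + (i + 1) := by omega
                rw [h8] at hu1
                exact hs e1 (hbt (i + 1) (by omega) (by omega) e1 b1 hu1)
            have hu2 : (d c).w (p + 1 + (m - 1)) = some (e, b') := by
              rw [← hu]; congr 1; omega
            obtain ⟨m', hm', hu3⟩ := opp hz (show m - 1 < k - 1 by omega) hu2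
            have hu4 : (d c).w (p + (m' + 1)) = some (e, !b') := by
              rw [← hu3]; congr 1; omega
            have hmm : m ≠ m' + 1 := by
              intro h5
              rw [← h5, hu] at hu4
              exact some_not hu4
            rcases Nat.lt_or_gt_of_ne hmm with h5 | h5
            · refine ihk (m' + 1 - m) (by omega) (p + m) e b' (by omega) (by omega) hu ?_ hrke ?_
              · rw [← hu4]; congr 1; omega
              · intro t ht1 ht2 e2 b2 hu5
                refine hbt (m + t) (by omega) (by omega) e2 b2 ?_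
                rw [← hu5]; congr 1; omega
            · refine ihk (m - (m' + 1)) (by omega) (p + (m' + 1)) e (!b') (by omega) (by omega)
                hu4 ?_ hrke ?_
              · rw [Bool.not_not, ← hu]; congr 1; omega
              · intro t ht1 ht2 e2 b2 hu5
                refine hbt (m' + 1 + t) (by omega) (by omega) e2 b2 ?_
                rw [← hu5]; congr 1; omega

/-- acyclic finite subcomplexes are simply connected -/
theorem mc (K : Cls X C d) (S : Finset X.E) (T : Finset C) (hS : Cl d S T) (h : H1 ℤ d S T) :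
    SC d S T :=
  (good K (S.card + T.card + 1) S T hS (Nat.lt_succ_self _)).1 h

end Pool.Agent.K9h82.HT
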