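import Pool.Agent.K9h82.HT.Tow

/-!
# Reduction of the special cells
-/

set_option autoImplicit false

namespace Pool.Agent.K9h82.HT

variable {X : Gr}

/-- a closed path from finite data -/
def CP.ofFin (l : ℕ) (hl : 0 < l) (v : ℕ → X.V) (u : ℕ → Option (X.E × Bool))
    (h1 : ∀ i, i + 1 < l → Adj X (v i) (u i) (v (i + 1))) (h2 : Adj X (v (l - 1)) (u (l - 1)) (v 0)) :
    CP X where
  vx i := v (i % l)
  w i := u (i % l)
  len := l
  pos := hl
  perw i := by rw [Nat.add_mod_right]
  perv i := by rw [Nat.add_mod_right]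
  adj i := by
    have h3 := Nat.mod_lt i hl
    rcases Nat.lt_or_ge (i % l + 1) l with h4 | h4
    · have h5 : (i + 1) % l = i % l + 1 := by
        rw [Nat.add_mod, Nat.mod_eq_of_lt (show 1 < l by omega), Nat.mod_eq_of_lt h4]
      rw [h5]
      exact h1 _ h4
    · have h5 : i % l = l - 1 := by omega
      have h6 : (i + 1) % l = 0 := by
        have h7 : i = l * (i / l) + (l - 1) := by
          rw [← h5]; exact (Nat.div_add_mod i l).symm
        have h8 : i + 1 = l * (i / l + 1) := by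
          rw [Nat.mul_add, Nat.mul_one]; omega
        rw [h8, Nat.mul_mod_right]
      rw [h5, h6]
      exact h2

theorem Wd_seq {E : Type} {Γ : Type*} [Group Γ] (φ : E → Γ) {u u' : ℕ → Option (E × Bool)} {a k : ℕ}
    (h : ∀ i < k, u (a + i) = u' (a + i)) : Wd φ u a k = Wd φ u' a k := by
  induction k with
  | zero => rfl
  | succ k ih => rw [Wd_succ, Wd_succ, ih fun i hi => h i (by omega), h k (by omega)]

theorem ofFin_Wd {Γ : Type*} [Group Γ] (φ : X.E → Γ) (l : ℕ) (hl : 0 < l) (v : ℕ → X.V)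
    (u : ℕ → Option (X.E × Bool)) (h1 : ∀ i, i + 1 < l → Adj X (v i) (u i) (v (i + 1)))
    (h2 : Adj X (v (l - 1)) (u (l - 1)) (v 0)) (k : ℕ) (hk : k ≤ l) :
    Wd φ (CP.ofFin l hl v u h1 h2).w 0 k = Wd φ u 0 k := by
  refine Wd_seq φ fun i hi => ?_
  show u ((0 + i) % l) = u (0 + i)
  rw [Nat.mod_eq_of_lt (by omega)]

open Classical in
/-- the number of occurrences of `y` -/
noncomputable def cnt (γ : CP X) (y : X.E) : ℕ :=
  ∑ i ∈ Finset.range γ.len, if ∃ b, γ.w i = some (y, b) then 1 else 0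

theorem sum_per (f : ℕ → ℕ) (l : ℕ) (h : ∀ i, f (i + l) = f i) (a : ℕ) :
    ∑ i ∈ Finset.range l, f (a + i) = ∑ i ∈ Finset.range l, f i := by
  induction a with
  | zero => simp
  | succ a ih =>
    rw [← ih]
    have h1 := Finset.sum_range_succ (fun i => f (a + i)) l
    have h2 := Finset.sum_range_succ' (fun i => f (a + i)) l
    rw [h1, h a, Nat.add_zero] at h2
    have h3 : ∀ i, f (a + 1 + i) = f (a + (i + 1)) := fun i => by congr 1; omega
    simp_rw [h3]
    omega

section cut

variable (γ : CP X) (p k : ℕ) (hcl : γ.vx (p + k + 1) = γ.vx p)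

/-- delete the letters at the positions `p, …, p + k` -/
def CP.cut : CP X :=
  CP.ofFin γ.len γ.pos (fun i => if i ≤ k then γ.vx p else γ.vx (p + i))
    (fun i => if i ≤ k then none else γ.w (p + i)) (by
      intro i hi
      by_cases h1 : i ≤ k
      · rw [if_pos h1, if_pos h1]
        by_cases h2 : i + 1 ≤ k
        · rw [if_pos h2]; rfl
        · have h3 : i = k := by omega
          subst h3
          rw [if_neg h2]
          exact hcl.symm
      · rw [if_neg h1, if_neg h1, if_neg (by omega)]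
        exact γ.adj (p + i)) (by
      have hp := γ.pos
      by_cases h1 : γ.len - 1 ≤ k
      · rw [if_pos h1, if_pos h1, if_pos (Nat.zero_le _)]; rfl
      · rw [if_neg h1, if_neg h1, if_pos (Nat.zero_le _)]
        have h2 := γ.adj (p + (γ.len - 1))
        have h3 : p + (γ.len - 1) + 1 = p + γ.len := by omega
        rw [h3, γ.perv] at h2
        exact h2)

theorem cut_occ {e : X.E} (h : Occ (γ.cut p k hcl) e) : Occ γ e := by
  obtain ⟨i, b, hu⟩ := h
  have hu' : (if i % γ.len ≤ k then none else γ.w (p + i % γ.len)) = some (e, b) := hu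
  by_cases h1 : i % γ.len ≤ k
  · rw [if_pos h1] at hu'
    exact absurd hu' (by simp)
  · rw [if_neg h1] at hu'
    exact ⟨_, b, hu'⟩

theorem cut_cnt {y : X.E} {b : Bool} (hy : γ.w p = some (y, b)) :
    cnt (γ.cut p k hcl) y < cnt γ y := by
  classical
  have h1 : cnt γ y = ∑ i ∈ Finset.range γ.len, if ∃ b, γ.w (p + i) = some (y, b) then 1 else 0 :=
    (sum_per (fun i => if ∃ b, γ.w i = some (y, b) then 1 else 0) γ.len
      (fun i => by simp only [γ.perw]) p).symm
  rw [h1]
  unfold cnt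
  refine Finset.sum_lt_sum ?_ ⟨0, Finset.mem_range.2 γ.pos, ?_⟩
  · intro i hi
    have hi' : i < γ.len := Finset.mem_range.1 hi
    have h2 : (γ.cut p k hcl).w i = if i ≤ k then none else γ.w (p + i) := by
      show (if i % γ.len ≤ k then none else γ.w (p + i % γ.len)) = _
      rw [Nat.mod_eq_of_lt hi']
    rw [h2]
    by_cases h3 : i ≤ k
    · rw [if_pos h3, if_neg (by simp)]
      exact Nat.zero_le _
    · rw [if_neg h3]
  · have h2 : (γ.cut p k hcl).w 0 = none := by
      show (if 0 % γ.len ≤ k then none else γ.w (p + 0 % γ.len)) = _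
      rw [Nat.zero_mod, if_pos (Nat.zero_le _)]
    rw [h2, if_neg (by simp), Nat.add_zero, if_pos ⟨b, hy⟩]
    exact Nat.one_pos

theorem Wd_none {E : Type} {Γ : Type*} [Group Γ] (φ : E → Γ) (u : ℕ → Option (E × Bool)) (a k : ℕ)
    (h : ∀ i < k, u (a + i) = none) : Wd φ u a k = 1 := by
  induction k with
  | zero => rfl
  | succ k ih => rw [Wd_succ, ih fun i hi => h i (by omega), h k (by omega), one_mul]; rfl

theorem Wd_shift {E : Type} {Γ : Type*} [Group Γ] (φ : E → Γ) {u : ℕ → Option (E × Bool)} {l : ℕ}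
    (h : ∀ i, u (i + l) = u i) (a k : ℕ) : Wd φ u (a + l) k = Wd φ u a k := by
  induction k with
  | zero => rfl
  | succ k ih =>
    rw [Wd_succ, Wd_succ, ih]
    have h1 : a + l + k = a + k + l := by omega
    rw [h1, h]

theorem Wd_rot {E : Type} {Γ : Type*} [Group Γ] (φ : E → Γ) {u : ℕ → Option (E × Bool)} {l : ℕ}
    (h : ∀ i, u (i + l) = u i) (p : ℕ) :
    Wd φ u p l = (Wd φ u 0 p)⁻¹ * Wd φ u 0 l * Wd φ u 0 p := by
  have h1 := Wd_add φ u 0 p l
  have h2 := Wd_add φ u 0 l p
  rw [Nat.zero_add] at h1 h2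
  rw [Nat.add_comm l p, h1] at h2
  have h3 : Wd φ u l p = Wd φ u 0 p := by
    have := Wd_shift φ h 0 p
    rwa [Nat.zero_add] at this
  rw [h3] at h2
  rw [mul_assoc, ← h2, inv_mul_cancel_left]

theorem cut_conj (hk : k < γ.len) {y : X.E} {b : Bool} (hy : γ.w p = some (y, b)) (hk0 : 0 < k)
    (hy' : γ.w (p + k) = some (y, !b)) (N : Subgroup (FreeGroup X.E)) [N.Normal]
    (hN : Wd FreeGroup.of γ.w (p + 1) (k - 1) ∈ N) :
    IsConj (QuotientGroup.mk' N (word (γ.cut p k hcl))) (QuotientGroup.mk' N (word γ)) := by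
  have h1 : word (γ.cut p k hcl) = Wd FreeGroup.of γ.w (p + k + 1) (γ.len - (k + 1)) := by
    unfold word
    have h2 : Wd FreeGroup.of (γ.cut p k hcl).w 0 (γ.cut p k hcl).len =
        Wd FreeGroup.of (fun i => if i ≤ k then none else γ.w (p + i)) 0 γ.len :=
      ofFin_Wd _ _ _ _ _ _ _ _ le_rfl
    rw [h2]
    have h3 : γ.len = (k + 1) + (γ.len - (k + 1)) := by omega
    conv_lhs => rw [h3]
    rw [Wd_add, Wd_none, one_mul]
    · have h4 : ∀ m, Wd FreeGroup.of (fun i => if i ≤ k then none else γ.w (p + i)) (0 + (k + 1)) m =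
          Wd FreeGroup.of γ.w (p + k + 1) m := by
        intro m
        induction m with
        | zero => rfl
        | succ m ih =>
          rw [Wd_succ, Wd_succ, ih]
          have h5 : ¬ (0 + (k + 1) + m ≤ k) := by omega
          have h6 : p + (0 + (k + 1) + m) = p + k + 1 + m := by omega
          simp only [if_neg h5, h6]
      exact h4 _
    · intro i hi
      show (if 0 + i ≤ k then none else _) = none
      rw [if_pos (by omega)]
  have h2 : Wd FreeGroup.of γ.w p (k + 1) ∈ N := by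
    have h3 : k + 1 = 1 + (k - 1) + 1 := by omega
    rw [h3, Wd_succ, Wd_add]
    have h4 : p + (1 + (k - 1)) = p + k := by omega
    have h5 : Wd FreeGroup.of γ.w p 1 = Lt FreeGroup.of (some (y, b)) := by
      have := Wd_succ FreeGroup.of γ.w p 0
      rw [Wd_zero, one_mul] at this
      rw [← hy]
      exact this
    rw [h4, hy', h5]
    have h6 : (Lt FreeGroup.of (some (y, !b)) : FreeGroup X.E) = (Lt FreeGroup.of (some (y, b)))⁻¹ := by
      cases b
      · exact (inv_inv _).symm
      · rfl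
    rw [h6]
    exact Subgroup.Normal.conj_mem inferInstance _ hN _
  have h3 : Wd FreeGroup.of γ.w p γ.len =
      Wd FreeGroup.of γ.w p (k + 1) * Wd FreeGroup.of γ.w (p + k + 1) (γ.len - (k + 1)) := by
    rw [Nat.add_assoc p k 1, ← Wd_add]
    congr 1
    omega
  rw [isConj_iff]
  refine ⟨QuotientGroup.mk' N (Wd FreeGroup.of γ.w 0 p), ?_⟩
  have h4 : QuotientGroup.mk' N (word (γ.cut p k hcl)) =
      QuotientGroup.mk' N (Wd FreeGroup.of γ.w p γ.len) := by
    rw [h3, map_mul, h1]
    have h5 : QuotientGroup.mk' N (Wd FreeGroup.of γ.w p (k + 1)) = 1 :=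
      (QuotientGroup.eq_one_iff _).2 h2
    rw [h5, one_mul]
  rw [h4, Wd_rot _ γ.perw, map_mul, map_mul, map_inv]
  show _ = QuotientGroup.mk' N (Wd FreeGroup.of γ.w 0 γ.len)
  group

end cut

/-- conjugate modulo a normal subgroup -/
theorem mem_of_conj {F : Type} [Group F] (N M : Subgroup F) [N.Normal] [M.Normal] (hNM : N ≤ M)
    {a b : F} (h : IsConj (QuotientGroup.mk' N a) (QuotientGroup.mk' N b)) (ha : a ∈ M) : b ∈ M := by
  obtain ⟨q, hq⟩ := isConj_iff.1 h
  obtain ⟨g, rfl⟩ := QuotientGroup.mk'_surjective N q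
  rw [← map_inv, ← map_mul, ← map_mul] at hq
  have h1 : (g * a * g⁻¹)⁻¹ * b ∈ N := QuotientGroup.eq.1 hq
  have h2 : g * a * g⁻¹ ∈ M := Subgroup.Normal.conj_mem inferInstance _ ha _
  have h3 := M.mul_mem h2 (hNM h1)
  rwa [mul_inv_cancel_left] at h3

theorem conj_map {F A : Type} [Group F] [Group A] (N : Subgroup F) [N.Normal] (Ψ : F →* A)
    (hN : N ≤ Ψ.ker) {a b : F} (h : IsConj (QuotientGroup.mk' N a) (QuotientGroup.mk' N b)) :
    IsConj (Ψ a) (Ψ b) := by
  have h1 := (QuotientGroup.lift N Ψ hN).map_isConj h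
  exact h1

end Pool.Agent.K9h82.HT
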