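import Pool.Agent.K9h82.HT.Red

/-!
# The reduced complex
-/

set_option autoImplicit false

namespace Pool.Agent.K9h82.HT

open Multiplicative

variable {X : Gr} {C : Type}

/-- the normal subgroup generated by the cells of rank less than `ρ` -/
def NN (d : C → CP X) (rkC : C → ℤ) (ρ : ℤ) : Subgroup (FreeGroup X.E) :=
  Subgroup.normalClosure ((fun c => word (d c)) '' {c | rkC c < ρ})

instance NN_normal (d : C → CP X) (rkC : C → ℤ) (ρ : ℤ) : (NN d rkC ρ).Normal :=
  Subgroup.normalClosure_normal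

theorem NN_mono (d : C → CP X) (rkC : C → ℤ) {ρ σ : ℤ} (h : ρ ≤ σ) : NN d rkC ρ ≤ NN d rkC σ := by
  refine Subgroup.normalClosure_mono (Set.image_mono ?_)
  intro c hc
  exact lt_of_lt_of_le hc h

/-- the word of `γ` is conjugate to the boundary word of `c` modulo the cells of smaller rank -/
def CJ (d : C → CP X) (rkC : C → ℤ) (c : C) (γ : CP X) : Prop :=
  IsConj (QuotientGroup.mk' (NN d rkC (rkC c)) (word γ))
    (QuotientGroup.mk' (NN d rkC (rkC c)) (word (d c)))

theorem CJ_refl (d : C → CP X) (rkC : C → ℤ) (c : C) : CJ d rkC c (d c) := IsConj.refl _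

/-- complexes with special cells -/
structure Pre (X : Gr) (C : Type) (d : C → CP X) where
  rkE : X.E → ℤ
  rkC : C → ℤ
  yc : C → X.E
  Sp : C → Prop
  le : ∀ c e, Occ (d c) e → rkE e ≤ rkC c
  top : ∀ c, Occ (d c) (yc c)
  rky : ∀ c, rkE (yc c) = rkC c
  fresh : ∀ c c', c' ≠ c → rkC c' ≤ rkC c → ¬ Occ (d c') (yc c)
  only : ∀ c, Sp c → ∀ e, Occ (d c) e → rkE e = rkC c → e = yc c
  ind : ∀ (p : ℕ) [Fact p.Prime],
    LinearIndependent (ZMod p) (fun c : C => fun e : X.E => ((ex (d c) e : ℤ) : ZMod p))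
  spec : ∀ c, Sp c → 0 ≤ rkC c
  nred : ∀ c, ¬ Sp c → ∀ i j y b, (d c).w i = some (y, b) → (d c).w j = some (y, !b) →
    rkE y = rkC c → False
  fox : ∀ c, Sp c → ∀ γ : CP X, (∀ e, Occ γ e → Occ (d c) e) → CJ d rkC c γ → Occ γ (yc c)

/-- admissible replacements -/
def Adm (d : C → CP X) (rkC : C → ℤ) (c : C) (γ : CP X) : Prop :=
  (∀ e, Occ γ e → Occ (d c) e) ∧ IsConj (QuotientGroup.mk' (NN d rkC (rkC c)) (word γ))
    (QuotientGroup.mk' (NN d rkC (rkC c)) (word (d c)))

theorem exists_min (d : C → CP X) (rkC : C → ℤ) (yc : C → X.E) (c : C) :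
    ∃ γ, Adm d rkC c γ ∧ ∀ γ', Adm d rkC c γ' → cnt γ (yc c) ≤ cnt γ' (yc c) := by
  classical
  have h : ∃ n, ∃ γ, Adm d rkC c γ ∧ cnt γ (yc c) = n := ⟨_, d c, ⟨fun _ h => h, IsConj.refl _⟩, rfl⟩
  obtain ⟨γ, h1, h2⟩ := Nat.find_spec h
  refine ⟨γ, h1, fun γ' hγ' => ?_⟩
  rw [h2]
  exact Nat.find_min' h ⟨γ', hγ', rfl⟩

theorem vec_word (p : ℕ) (γ : CP X) :
    FreeGroup.lift (fun e : X.E => ofAdd (fun e' : X.E => ((dl ℤ e' e : ℤ) : ZMod p))) (word γ) =
      ofAdd (fun e' => ((ex γ e' : ℤ) : ZMod p)) := by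
  unfold word
  rw [Wd_hom]
  have h1 : (fun e : X.E => FreeGroup.lift
      (fun e : X.E => ofAdd (fun e' : X.E => ((dl ℤ e' e : ℤ) : ZMod p))) (FreeGroup.of e)) =
      fun e => ofAdd (fun e' : X.E => ((dl ℤ e' e : ℤ) : ZMod p)) := by
    funext e
    exact FreeGroup.lift_apply_of
  rw [h1, Wd_mult]
  congr 1
  funext e'
  unfold ex
  rw [Sa_cast]
  unfold Sa
  rw [Finset.sum_apply]
  refine Finset.sum_congr rfl fun i _ => ?_
  rcases γ.w (0 + i) with _ | ⟨e, b⟩
  · rfl
  · cases b <;> rfl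

theorem lift_word {Γ : Type} [Group Γ] (τ : X.E → Γ) (γ : CP X) :
    FreeGroup.lift τ (word γ) = Wd τ γ.w 0 γ.len := by
  unfold word
  rw [Wd_hom]
  congr 1
  funext e
  exact FreeGroup.lift_apply_of

variable {d : C → CP X}

open Classical in
/-- the reduced cells -/
noncomputable def rd (K : Pre X C d) (c : C) : CP X :=
  if K.Sp c then (exists_min d K.rkC K.yc c).choose else d c

theorem rd_adm (K : Pre X C d) (c : C) : Adm d K.rkC c (rd K c) := by
  unfold rd
  by_cases h : K.Sp c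
  · rw [if_pos h]
    exact (exists_min d K.rkC K.yc c).choose_spec.1
  · rw [if_neg h]
    exact ⟨fun _ h => h, IsConj.refl _⟩

theorem rd_min (K : Pre X C d) (c : C) (hc : K.Sp c) (γ' : CP X) (h : Adm d K.rkC c γ') :
    cnt (rd K c) (K.yc c) ≤ cnt γ' (K.yc c) := by
  have h6 := (exists_min d K.rkC K.yc c).choose_spec.2 _ h
  unfold rd
  rw [if_pos hc]
  exact h6

theorem rd_top (K : Pre X C d) (c : C) : Occ (rd K c) (K.yc c) := by
  by_cases h : K.Sp c
  · exact K.fox c h _ (rd_adm K c).1 (rd_adm K c).2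
  · unfold rd
    rw [if_neg h]
    exact K.top c

theorem rd_mem (K : Pre X C d) (c : C) (ρ : ℤ) (h : K.rkC c < ρ) :
    word (rd K c) ∈ NN d K.rkC ρ := by
  refine mem_of_conj (NN d K.rkC (K.rkC c)) (NN d K.rkC ρ) (NN_mono _ _ h.le) (rd_adm K c).2.symm ?_
  exact Subgroup.subset_normalClosure ⟨c, h, rfl⟩

theorem rd_ncl (K : Pre X C d) (c : C) :
    word (rd K c) ∈ Subgroup.normalClosure (Set.range fun c => word (d c)) := by
  refine mem_of_conj (NN d K.rkC (K.rkC c)) _ ?_ (rd_adm K c).2.symm ?_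
  · refine Subgroup.normalClosure_mono ?_
    rintro _ ⟨c', -, rfl⟩
    exact ⟨c', rfl⟩
  · exact Subgroup.subset_normalClosure ⟨c, rfl⟩

theorem rd_ncl' (K : Pre X C d) (c : C) :
    word (d c) ∈ Subgroup.normalClosure (Set.range fun c => word (rd K c)) := by
  have key : ∀ (n : ℕ) (c : C), K.Sp c → (K.rkC c).toNat < n →
      word (d c) ∈ Subgroup.normalClosure (Set.range fun c => word (rd K c)) := by
    intro n
    induction n with
    | zero => intro c _ h; exact absurd h (Nat.not_lt_zero _)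
    | succ n ih =>
      intro c hc hn
      refine mem_of_conj (NN d K.rkC (K.rkC c)) _ ?_ (rd_adm K c).2 ?_
      · refine Subgroup.normalClosure_le_normal ?_
        rintro _ ⟨c', hc', rfl⟩
        have hc'' : K.rkC c' < K.rkC c := hc'
        by_cases h : K.Sp c'
        · refine ih c' h ?_
          have := K.spec c' h
          omega
        · refine Subgroup.subset_normalClosure ⟨c', ?_⟩
          show word (rd K c') = word (d c')
          unfold rd
          rw [if_neg h]
      · exact Subgroup.subset_normalClosure ⟨c, rfl⟩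
  by_cases h : K.Sp c
  · exact key _ c h (Nat.lt_succ_self _)
  · refine Subgroup.subset_normalClosure ⟨c, ?_⟩
    show word (rd K c) = word (d c)
    unfold rd
    rw [if_neg h]

theorem rd_coc (K : Pre X C d) {Γ : Type} [Group Γ] (τ : X.E → Γ)
    (h : ∀ c, Wd τ (d c).w 0 (d c).len = 1) (c : C) : Wd τ (rd K c).w 0 (rd K c).len = 1 := by
  rw [← lift_word]
  have h1 : Subgroup.normalClosure (Set.range fun c => word (d c)) ≤ (FreeGroup.lift τ).ker := by
    refine Subgroup.normalClosure_le_normal ?_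
    rintro _ ⟨c', rfl⟩
    show FreeGroup.lift τ (word (d c')) = 1
    rw [lift_word, h]
  exact h1 (rd_ncl K c)

theorem rd_ind (K : Pre X C d) (p : ℕ) [Fact p.Prime] :
    LinearIndependent (ZMod p) (fun c : C => fun e : X.E => ((ex (rd K c) e : ℤ) : ZMod p)) := by
  classical
  have hi := K.ind p
  rw [linearIndependent_iff']
  intro s g hg
  by_cases hsp : ∃ c ∈ s, K.Sp c ∧ g c ≠ 0
  · exfalso
    obtain ⟨c0, hc0, hmax⟩ := Finset.exists_max_image (s.filter fun c => K.Sp c ∧ g c ≠ 0) K.rkC (by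
      obtain ⟨c, hc, h⟩ := hsp
      exact ⟨c, Finset.mem_filter.2 ⟨hc, h⟩⟩)
    rw [Finset.mem_filter] at hc0
    have h1 := hi.notMem_span_image (s := {c | c ≠ c0}) (x := c0) (fun h => h rfl)
    obtain ⟨f, hf1, hf2⟩ := Submodule.exists_le_ker_of_notMem h1
    have hf3 : ∀ c, c ≠ c0 → f (fun e : X.E => ((ex (d c) e : ℤ) : ZMod p)) = 0 := fun c hc =>
      hf2 (Submodule.subset_span ⟨c, hc, rfl⟩)
    have hf4 : ∀ c, K.rkC c ≤ K.rkC c0 → f (fun e : X.E => ((ex (rd K c) e : ℤ) : ZMod p)) =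
        f (fun e : X.E => ((ex (d c) e : ℤ) : ZMod p)) := by
      intro c hc
      let Ψ : FreeGroup X.E →* Multiplicative (ZMod p) :=
        (AddMonoidHom.toMultiplicative f.toAddMonoidHom).comp
          (FreeGroup.lift (fun e : X.E => ofAdd (fun e' : X.E => ((dl ℤ e' e : ℤ) : ZMod p))))
      have hΨ : ∀ γ : CP X, Ψ (word γ) = ofAdd (f (fun e : X.E => ((ex γ e : ℤ) : ZMod p))) := by
        intro γ
        show (AddMonoidHom.toMultiplicative f.toAddMonoidHom) (FreeGroup.lift _ (word γ)) = _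
        rw [vec_word]
        rfl
      have h2 := conj_map (NN d K.rkC (K.rkC c)) Ψ (by
        refine Subgroup.normalClosure_le_normal ?_
        rintro _ ⟨c', hc', rfl⟩
        show Ψ (word (d c')) = 1
        rw [hΨ, hf3 c']
        · rfl
        · intro h3
          have h4 : K.rkC c' < K.rkC c := hc'
          rw [h3] at h4
          omega) (rd_adm K c).2
      rw [isConj_iff_eq, hΨ, hΨ] at h2
      exact ofAdd.injective h2
    have h2 := congrArg f hg
    rw [map_sum, map_zero, Finset.sum_eq_single_of_mem c0 hc0.1] at h2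
    · rw [map_smul, smul_eq_mul, hf4 c0 le_rfl] at h2
      exact (mul_ne_zero hc0.2.2 hf1) h2
    · intro c hc hne
      rw [map_smul, smul_eq_mul]
      by_cases h3 : g c = 0
      · rw [h3, zero_mul]
      · by_cases h4 : K.Sp c
        · rw [hf4 c (hmax c (Finset.mem_filter.2 ⟨hc, h4, h3⟩)), hf3 c hne, mul_zero]
        · have h5 : rd K c = d c := by unfold rd; rw [if_neg h4]
          rw [h5, hf3 c hne, mul_zero]
  · push Not at hsp
    rw [linearIndependent_iff'] at hi
    refine hi s g ?_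
    rw [← hg]
    refine Finset.sum_congr rfl fun c hc => ?_
    by_cases h4 : K.Sp c
    · rw [hsp c hc h4, zero_smul, zero_smul]
    · have h5 : rd K c = d c := by unfold rd; rw [if_neg h4]
      rw [h5]

/-- the reduced complex belongs to the class -/
noncomputable def Pre.cls (K : Pre X C d) : Cls X C (rd K) where
  rkE := K.rkE
  rkC := K.rkC
  le c e h := K.le c e ((rd_adm K c).1 e h)
  upd j T D hT hTj hD := by
    obtain ⟨c, hc⟩ := hT
    refine ⟨c, hc, K.yc c, rd_top K c, (K.rky c).trans (hTj c hc), ?_⟩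
    intro c' hc' hne hocc
    refine K.fresh c c' hne ?_ ((rd_adm K c').1 _ hocc)
    rcases hc' with h | h
    · rw [hTj c' h, hTj c hc]
    · rw [hTj c hc]
      exact (hD c' h).2
  ind p _ := rd_ind K p
  red c i k y b hk hkl h1 h2 hrk _ := by
    by_cases hc : K.Sp c
    · have hy : y = K.yc c := K.only c hc y ((rd_adm K c).1 y ⟨i, b, h1⟩) hrk
      have hcl : (rd K c).vx (i + k + 1) = (rd K c).vx i := by
        have h6 := (rd K c).adj i
        have h7 := (rd K c).adj (i + k)
        rw [h1] at h6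
        rw [h2] at h7
        cases b
        · exact h7.2.trans h6.1.symm
        · exact h7.2.trans h6.1.symm
      have hseg : Wd FreeGroup.of (rd K c).w (i + 1) (k - 1) ∉ NN d K.rkC (K.rkC c) := by
        intro hN
        have h3 := cut_conj (rd K c) i k hcl hkl h1 hk h2 (NN d K.rkC (K.rkC c)) hN
        have h4 : Adm d K.rkC c ((rd K c).cut i k hcl) :=
          ⟨fun e he => (rd_adm K c).1 e (cut_occ _ _ _ _ he), h3.trans (rd_adm K c).2⟩
        have h5 := rd_min K c hc _ h4
        have h6 := cut_cnt (rd K c) i k hcl h1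
        rw [hy] at h6
        omega
      refine ⟨FreeGroup X.E ⧸ NN d K.rkC (K.rkC c), inferInstance,
        fun e => QuotientGroup.mk' _ (FreeGroup.of e), ?_, ?_⟩
      · intro c' hc'
        rw [← Wd_hom]
        exact (QuotientGroup.eq_one_iff _).2 (rd_mem K c' _ hc')
      · rw [← Wd_hom]
        intro h
        exact hseg ((QuotientGroup.eq_one_iff _).1 h)
    · exfalso
      have h5 : rd K c = d c := by unfold rd; rw [if_neg hc]
      rw [h5] at h1 h2
      exact K.nred c hc i (i + k) y b h1 h2 hrk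

end Pool.Agent.K9h82.HT
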