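import Pool.Agent.K9h82.HT.Base
import Pool.Agent.K9h82.HT.LI
import Pool.Agent.K9h82.UC.Perf
import Pool.Agent.N819.LT.Defs

/-!
# Schemes
-/

set_option autoImplicit false

namespace Pool.Agent.K9h82.HT

open Pool.Agent.TH625.LOG

variable {V E : Type}

/-- the higher endpoint of `{ini e, lab e}` -/
def ch (L : LOG V E) (r : V → ℕ) (e : E) : V := if r (L.ini e) < r (L.lab e) then L.lab e else L.ini e

open Classical in
/-- the coefficient of the crossing element at `g` -/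
noncomputable def cross (L : LOG V E) (κ : V → ℕ) (j n : ℕ) (P : ℕ → V) (f : ℕ → E) (s : ℕ → ℤ)
    (g : L.G) : ℤ :=
  ∑ i ∈ Finset.range n, if L.gen (L.lab (f i)) = g then
    s i * ((if κ (L.ter (f i)) = j + 1 then 1 else 0) - (if κ (P 0) = j + 1 then 1 else 0)) else 0

/-- A scheme for the set `S'` of edges. -/
structure Sch (L : LOG V E) (S' : Set E) (κ r : V → ℕ) (F : Set E) (β : ℕ) (J : Set ℕ) (n : ℕ → ℕ)
    (P : ℕ → ℕ → V) (f : ℕ → ℕ → E) (s : ℕ → ℕ → ℤ) : Prop where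
  bd : ∀ v, κ v ≤ β
  comp : ∀ e ∈ S', κ (L.ini e) = κ (L.lab e)
  FS : F ⊆ S'
  rne : ∀ e ∈ F, r (L.ini e) ≠ r (L.lab e)
  inj : ∀ e ∈ F, ∀ e' ∈ F, ch L r e = ch L r e' → e = e'
  Jlt : ∀ j ∈ J, j < β
  pos : ∀ j ∈ J, 0 < n j
  closed : ∀ j ∈ J, P j (n j) = P j 0
  step : ∀ j ∈ J, ∀ i < n j, (s j i = 1 ∧ L.ini (f j i) = P j i ∧ L.lab (f j i) = P j (i + 1)) ∨
    (s j i = -1 ∧ L.lab (f j i) = P j i ∧ L.ini (f j i) = P j (i + 1))
  first : ∀ j ∈ J, f j 0 ∈ S' ∧ f j 0 ∉ F ∧ ∀ j' ∈ J, j' < j → f j' 0 ≠ f j 0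
  rest : ∀ j ∈ J, ∀ i, 0 < i → i < n j → f j i ∈ F ∨ ∃ j' ∈ J, j' < j ∧ f j i = f j' 0
  cover : ∀ e ∈ S', e ∈ F ∨ ∃ j ∈ J, e = f j 0
  tri : ∀ j ∈ J, κ (P j 0) ≤ j + 1 ∧ ∀ i < n j, κ (L.ter (f j i)) ≤ j + 1
  cr : ∀ j ∈ J, ∃ g : L.G, cross L κ j (n j) (P j) (f j) (s j) g ≠ 0

variable {L : LOG V E} {S' : Set E} {κ r : V → ℕ} {F : Set E} {β : ℕ} {J : Set ℕ} {n : ℕ → ℕ}
  {P : ℕ → ℕ → V} {f : ℕ → ℕ → E} {s : ℕ → ℕ → ℤ}

theorem Sch.fS (h : Sch L S' κ r F β J n P f s) (j : ℕ) (hj : j ∈ J) (i : ℕ) (hi : i < n j) :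
    f j i ∈ S' := by
  rcases Nat.eq_zero_or_pos i with h0 | h0
  · rw [h0]; exact (h.first j hj).1
  · rcases h.rest j hj i h0 hi with h1 | ⟨j', hj', _, h1⟩
    · exact h.FS h1
    · rw [h1]; exact (h.first j' hj').1

theorem Sch.kP (h : Sch L S' κ r F β J n P f s) (j : ℕ) (hj : j ∈ J) : ∀ i, i ≤ n j →
    κ (P j i) = κ (P j 0) := by
  intro i
  induction i with
  | zero => intro _; rfl
  | succ i ih =>
    intro hi
    have h1 := h.comp _ (h.fS j hj i (by omega))
    rcases h.step j hj i (by omega) with ⟨-, h2, h3⟩ | ⟨-, h2, h3⟩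
    · rw [← h3, ← h1, h2]; exact ih (by omega)
    · rw [← h3, h1, h2]; exact ih (by omega)

theorem Sch.kl (h : Sch L S' κ r F β J n P f s) (j : ℕ) (hj : j ∈ J) (i : ℕ) (hi : i < n j) :
    κ (L.lab (f j i)) = κ (P j 0) := by
  rcases h.step j hj i hi with ⟨-, h2, h3⟩ | ⟨-, h2, h3⟩
  · rw [h3]; exact h.kP j hj _ (by omega)
  · rw [h2]; exact h.kP j hj _ (by omega)

/-- the cells -/
abbrev C0 (F : Set E) (J : Set ℕ) : Type := {e // e ∈ F} ⊕ {j // j ∈ J}

/-- the boundaries of the cells -/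
noncomputable def d0 (h : Sch L S' κ r F β J n P f s) : C0 F J → CP (X0 κ)
  | Sum.inl e => Tc κ (L.ini e.1) (L.lab e.1) (L.ter e.1) (h.comp e.1 (h.FS e.2))
  | Sum.inr j => Dc κ (κ (P j.1 0)) (n j.1) (h.pos j.1 j.2) (fun i => L.lab (f j.1 i))
      (fun i => L.ter (f j.1 i)) (fun i => decide (s j.1 i = 1)) (h.kl j.1 j.2)

theorem d0_del (h : Sch L S' κ r F β J n P f s) (c : C0 F J) :
    Sa del (d0 h c).w 0 (d0 h c).len = 0 := by
  rcases c with e | j
  · exact del_Tc κ _ _ _ (h.comp e.1 (h.FS e.2))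
  · exact del_Dc _ _ _ _ _ _ _ (h.kl j.1 j.2)

section coc

variable {Γ : Type} [Group Γ] (x : V → Γ)

/-- the cochain of a family of elements -/
def xc (x : V → Γ) : V ⊕ ℕ → Γ := Sum.elim x fun _ => 1

/-- the relations -/
def Rl (L : LOG V E) (S' : Set E) (x : V → Γ) : Prop :=
  ∀ e ∈ S', x (L.ini e) * x (L.lab e) = x (L.lab e) * x (L.ter e)

theorem xc_Tc (hx : Rl L S' x) (e : E) (he : e ∈ S') (hk : κ (L.ini e) = κ (L.lab e)) :
    Wd (xc x) (Tc κ (L.ini e) (L.lab e) (L.ter e) hk).w 0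
      (Tc κ (L.ini e) (L.lab e) (L.ter e) hk).len = 1 := by
  rw [Tc_Wd, Lt_yl (xc x) _ _ fun _ => rfl, Lt_yl (xc x) _ _ fun _ => rfl]
  show x (L.ini e) * 1 * x (L.lab e) * (x (L.ter e))⁻¹ * 1⁻¹ * (x (L.lab e))⁻¹ = 1
  rw [mul_one, hx e he]
  group

theorem xc_du (h : Sch L S' κ r F β J n P f s) (hx : Rl L S' x) (j : ℕ) (hj : j ∈ J) (m : ℕ) :
    ∀ a, a ≤ n j → Wd (xc x) (du κ m (fun i => L.lab (f j i)) (fun i => L.ter (f j i))
      (fun i => decide (s j i = 1))) 0 (4 * a) = (x (P j 0))⁻¹ * x (P j a) := by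
  intro a
  induction a with
  | zero => intro _; rw [inv_mul_cancel]; rfl
  | succ a ih =>
    intro ha
    have h1 : 4 * (a + 1) = 4 * a + 4 := by ring
    rw [h1, Wd_add, ih (by omega), Nat.zero_add, du_block, Lt_yl (xc x) _ _ fun _ => rfl,
      Lt_yl (xc x) _ _ fun _ => rfl]
    have h2 := hx _ (h.fS j hj a (by omega))
    rcases h.step j hj a (by omega) with ⟨h3, h4, h5⟩ | ⟨h3, h4, h5⟩
    · rw [if_pos (by simp [h3])]
      show _ * (x (L.lab (f j a)) * (x (L.ter (f j a)))⁻¹ * 1⁻¹ * 1) = _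
      rw [h4] at h2
      rw [← h5]
      have h6 : x (L.lab (f j a)) * (x (L.ter (f j a)))⁻¹ = (x (P j a))⁻¹ * x (L.lab (f j a)) := by
        rw [eq_inv_mul_iff_mul_eq, ← mul_assoc, h2, mul_inv_cancel_right]
      rw [h6]
      group
    · rw [if_neg (by simp [h3])]
      show _ * (1⁻¹ * 1 * x (L.ter (f j a)) * (x (L.lab (f j a)))⁻¹) = _
      rw [h5] at h2
      have h6 : x (L.ter (f j a)) * (x (L.lab (f j a)))⁻¹ = (x (P j a))⁻¹ * x (P j (a + 1)) := by
        rw [← h4, eq_inv_mul_iff_mul_eq, ← mul_assoc, ← h2, mul_inv_cancel_right]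
      rw [inv_one, one_mul, one_mul, h6]
      group

theorem xc_d0 (h : Sch L S' κ r F β J n P f s) (hx : Rl L S' x) (c : C0 F J) :
    Wd (xc x) (d0 h c).w 0 (d0 h c).len = 1 := by
  rcases c with e | j
  · exact xc_Tc x hx e.1 (h.FS e.2) (h.comp e.1 (h.FS e.2))
  · have h1 : Wd (xc x) (d0 h (Sum.inr j)).w 0 (d0 h (Sum.inr j)).len =
        Wd (xc x) (du κ (κ (P j.1 0)) (fun i => L.lab (f j.1 i)) (fun i => L.ter (f j.1 i))
          (fun i => decide (s j.1 i = 1))) 0 (4 * n j.1) := Dc_Wd _ _ _ _ _ _ _ _ _ _ le_rfl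
    rw [h1, xc_du x h hx j.1 j.2 _ _ le_rfl, h.closed j.1 j.2, inv_mul_cancel]

end coc

section theta

/-- the homomorphism to the words of the split graph -/
noncomputable def tht (κ : V → ℕ) : FreeGroup V →* FreeGroup (X0 κ).E :=
  FreeGroup.lift fun v => Lt FreeGroup.of (yl V (κ v) true) * FreeGroup.of (Sum.inl v)

/-- a letter as two letters -/
def pu (κ : V → ℕ) (o : Option (V × Bool)) (q : ℕ) : Option ((V ⊕ ℕ) × Bool) :=
  match o, q with
  | none, _ => none
  | some (v, true), 0 => yl V (κ v) true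
  | some (v, true), _ => some (Sum.inl v, true)
  | some (v, false), 0 => some (Sum.inl v, false)
  | some (v, false), _ => yl V (κ v) false

/-- the vertices -/
def pv (κ : V → ℕ) (o : Option (V × Bool)) (q : ℕ) : ℕ :=
  match o, q with
  | none, _ => 0
  | some _, 0 => 0
  | some (v, _), _ => κ v

/-- the closed path of a list of letters -/
def pc (κ : V → ℕ) (l : List (V × Bool)) : CP (X0 κ) :=
  CP.ofFin (2 * (l.length + 1)) (by omega) (fun x => pv κ l[x / 2]? (x % 2))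
    (fun x => pu κ l[x / 2]? (x % 2)) (by
    intro x _
    by_cases h : x % 2 = 0
    · have h1 : (x + 1) % 2 = 1 := by omega
      have h2 : (x + 1) / 2 = x / 2 := by omega
      rw [h, h1, h2]
      rcases l[x / 2]? with _ | ⟨v, b⟩
      · rfl
      · cases b
        · exact adj_v_f κ v
        · exact adj_yl_t κ (κ v)
    · have h0 : x % 2 = 1 := by omega
      have h1 : (x + 1) % 2 = 0 := by omega
      rw [h0, h1]
      have h3 : ∀ o : Option (V × Bool), pv κ o 0 = 0 := by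
        intro o
        rcases o with _ | ⟨v, b⟩ <;> rfl
      rw [h3]
      rcases l[x / 2]? with _ | ⟨v, b⟩
      · rfl
      · cases b
        · exact adj_yl_f κ (κ v)
        · exact adj_v_t κ v) (by
    have h0 : (2 * (l.length + 1) - 1) % 2 = 1 := by omega
    have h1 : (2 * (l.length + 1) - 1) / 2 = l.length := by omega
    have h2 : l[l.length]? = none := List.getElem?_eq_none le_rfl
    have h3 : ∀ o : Option (V × Bool), pv κ o 0 = 0 := by
      intro o
      rcases o with _ | ⟨v, b⟩ <;> rfl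
    rw [h0, h1, h2, Nat.zero_mod, h3]
    rfl)

theorem pc_Wd {Γ : Type} [Group Γ] (κ : V → ℕ) (l : List (V × Bool)) (φ : V ⊕ ℕ → Γ) :
    Wd φ (pc κ l).w 0 (pc κ l).len =
      FreeGroup.lift (fun v => Lt φ (yl V (κ v) true) * φ (Sum.inl v)) (FreeGroup.mk l) := by
  have h1 : Wd φ (pc κ l).w 0 (pc κ l).len =
      Wd φ (fun x => pu κ l[x / 2]? (x % 2)) 0 (2 * (l.length + 1)) :=
    Wd_seq φ fun x hx => by
      show pu κ l[(0 + x) % (2 * (l.length + 1)) / 2]? ((0 + x) % (2 * (l.length + 1)) % 2) = _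
      have hx' : x < 2 * (l.length + 1) := hx
      rw [Nat.mod_eq_of_lt (by omega)]
  have key : ∀ k, k ≤ l.length + 1 → Wd φ (fun x => pu κ l[x / 2]? (x % 2)) 0 (2 * k) =
      FreeGroup.lift (fun v => Lt φ (yl V (κ v) true) * φ (Sum.inl v)) (FreeGroup.mk (l.take k)) := by
    intro k
    induction k with
    | zero =>
      intro _
      rw [List.take_zero]
      exact (map_one (FreeGroup.lift (fun v => Lt φ (yl V (κ v) true) * φ (Sum.inl v)))).symm
    | succ k ih =>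
      intro hk
      have h2 : 2 * (k + 1) = 2 * k + 1 + 1 := by ring
      have h3 : (0 + 2 * k) / 2 = k := by omega
      have h4 : (0 + 2 * k) % 2 = 0 := by omega
      have h5 : (0 + (2 * k + 1)) / 2 = k := by omega
      have h6 : (0 + (2 * k + 1)) % 2 = 1 := by omega
      rw [h2, Wd_succ, Wd_succ, ih (by omega), h3, h4, h5, h6]
      rcases Nat.lt_or_ge k l.length with h7 | h7
      · rw [List.getElem?_eq_getElem h7, List.take_add_one, List.getElem?_eq_getElem h7]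
        have h8 : FreeGroup.mk (l.take k ++ (some l[k]).toList) =
            FreeGroup.mk (l.take k) * FreeGroup.mk [l[k]] := by
          rw [FreeGroup.mul_mk]; rfl
        rw [h8, map_mul, mul_assoc]
        congr 1
        rcases l[k] with ⟨v, b⟩
        cases b
        · rw [FreeGroup.lift_mk]
          show (φ (Sum.inl v))⁻¹ * Lt φ (yl V (κ v) false) =
            (List.map (fun x : V × Bool => cond x.2 (Lt φ (yl V (κ x.1) true) * φ (Sum.inl x.1))
              (Lt φ (yl V (κ x.1) true) * φ (Sum.inl x.1))⁻¹) [(v, false)]).prod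
          rw [Lt_yl_inv]
          simp
        · rw [FreeGroup.lift_mk]
          show Lt φ (yl V (κ v) true) * φ (Sum.inl v) =
            (List.map (fun x : V × Bool => cond x.2 (Lt φ (yl V (κ x.1) true) * φ (Sum.inl x.1))
              (Lt φ (yl V (κ x.1) true) * φ (Sum.inl x.1))⁻¹) [(v, true)]).prod
          simp
      · rw [List.getElem?_eq_none h7, List.take_of_length_le (by omega), List.take_of_length_le (by omega)]
        show _ * 1 * 1 = _
        rw [mul_one, mul_one]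
  rw [h1, key _ le_rfl, List.take_of_length_le (by omega)]

end theta

end Pool.Agent.K9h82.HT
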