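import Pool.Agent.K9h82.HT.Cov2

/-!
# Towers
-/

set_option autoImplicit false

namespace Pool.Agent.K9h82.HT

open Multiplicative

/-- translation action on functions -/
def trn (Z : Type) [Group Z] : Multiplicative ℤ →* MulAut (ℤ → Z) where
  toFun q :=
    { toFun := fun f v => f (v + toAdd q)
      invFun := fun f v => f (v - toAdd q)
      left_inv := fun f => by funext v; simp
      right_inv := fun f => by funext v; simp
      map_mul' := fun f f' => rfl }
  map_one' := by
    ext f v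
    show f (v + 0) = f v
    rw [add_zero]
  map_mul' q q' := by
    ext f v
    show f (v + (toAdd q + toAdd q')) = f (v + toAdd q + toAdd q')
    rw [add_assoc]

section

variable {E : Type} (φ : E → ℤ)

/-- the wreath homomorphism -/
noncomputable def TT : FreeGroup E →* (ℤ → FreeGroup (E × ℤ)) ⋊[trn _] Multiplicative ℤ :=
  FreeGroup.lift fun e => ⟨fun v => FreeGroup.of (e, v), ofAdd (φ e)⟩

/-- the lift of a word to the height `m` -/
noncomputable def tl (c : FreeGroup E) (m : ℤ) : FreeGroup (E × ℤ) := (TT φ c).left m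

/-- the height difference -/
noncomputable def hg (c : FreeGroup E) : ℤ := toAdd (TT φ c).right

theorem hg_mul (a b : FreeGroup E) : hg φ (a * b) = hg φ a + hg φ b := by
  unfold hg
  rw [map_mul, SemidirectProduct.mul_right, toAdd_mul]

theorem hg_one : hg φ 1 = 0 := by
  unfold hg
  rw [map_one]
  rfl

theorem hg_inv (a : FreeGroup E) : hg φ a⁻¹ = -hg φ a := by
  have := hg_mul φ a a⁻¹
  rw [mul_inv_cancel, hg_one] at this
  omega

theorem tl_mul (a b : FreeGroup E) (m : ℤ) : tl φ (a * b) m = tl φ a m * tl φ b (m + hg φ a) := by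
  unfold tl hg
  rw [map_mul, SemidirectProduct.mul_left]
  rfl

theorem tl_one (m : ℤ) : tl φ 1 m = 1 := by
  unfold tl
  rw [map_one]
  rfl

theorem tl_inv (a : FreeGroup E) (m : ℤ) : tl φ a⁻¹ m = (tl φ a (m - hg φ a))⁻¹ := by
  have := tl_mul φ a a⁻¹ (m - hg φ a)
  rw [mul_inv_cancel, tl_one, sub_add_cancel] at this
  exact eq_inv_of_mul_eq_one_right this.symm

theorem tl_of (e : E) (m : ℤ) : tl φ (FreeGroup.of e) m = FreeGroup.of (e, m) := by
  unfold tl TT
  rw [FreeGroup.lift_apply_of]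

theorem hg_of (e : E) : hg φ (FreeGroup.of e) = φ e := by
  unfold hg TT
  rw [FreeGroup.lift_apply_of]
  rfl

theorem hg_Lt (o : Option (E × Bool)) : hg φ (Lt FreeGroup.of o) = La φ o := by
  rcases o with _ | ⟨e, b⟩
  · exact hg_one φ
  · cases b
    · show hg φ (FreeGroup.of e)⁻¹ = -φ e
      rw [hg_inv, hg_of]
    · exact hg_of φ e

theorem tl_Lt (o : Option (E × Bool)) (m : ℤ) :
    tl φ (Lt FreeGroup.of o) m = Lt FreeGroup.of (liftL φ o m) := by
  rcases o with _ | ⟨e, b⟩
  · exact tl_one φ m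
  · cases b
    · show tl φ (FreeGroup.of e)⁻¹ m = (FreeGroup.of (e, m - φ e))⁻¹
      rw [tl_inv, hg_of, tl_of]
    · exact tl_of φ e m

end

variable {X : Gr}

/-- the word of a closed path -/
def word (γ : CP X) : FreeGroup X.E := Wd FreeGroup.of γ.w 0 γ.len

theorem hg_Wd (φ : X.E → ℤ) (u : ℕ → Option (X.E × Bool)) (a k : ℕ) :
    hg φ (Wd FreeGroup.of u a k) = Sa φ u a k := by
  induction k with
  | zero => exact hg_one φ
  | succ k ih => rw [Wd_succ, Sa_succ, hg_mul, ih, hg_Lt]

theorem tl_Wd (γ : CP X) (φ : X.E → ℤ) (h0 : Sa φ γ.w 0 γ.len = 0) (m : ℤ) (k : ℕ) :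
    tl φ (Wd FreeGroup.of γ.w 0 k) m = Wd FreeGroup.of (γ.lift φ h0 m).w 0 k := by
  induction k with
  | zero => exact tl_one φ m
  | succ k ih =>
    rw [Wd_succ, Wd_succ, tl_mul, ih, hg_Wd, tl_Lt, lift_w, ht, Nat.zero_add]

theorem hg_word (γ : CP X) (φ : X.E → ℤ) : hg φ (word γ) = Sa φ γ.w 0 γ.len := hg_Wd φ _ _ _

theorem tl_word (γ : CP X) (φ : X.E → ℤ) (h0 : Sa φ γ.w 0 γ.len = 0) (m : ℤ) :
    tl φ (word γ) m = word (γ.lift φ h0 m) := tl_Wd γ φ h0 m _

section

variable {C : Type} {d : C → CP X} {J I D : Type}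

/-- a conjugate of a boundary word -/
def cj (d : C → CP X) (g : D → FreeGroup X.E) (c : D → C) (ε : D → Bool) (k : D) : FreeGroup X.E :=
  g k * (if ε k = true then word (d (c k)) else (word (d (c k)))⁻¹) * (g k)⁻¹

/-- the relations `R` between the closed paths `P` and derivations of them -/
def Der (d : C → CP X) (P : J → CP X) (R : I → FreeGroup J) (Ls : I → List D)
    (g : D → FreeGroup X.E) (c : D → C) (ε : D → Bool) : Prop :=
  ∀ i, FreeGroup.lift (fun j => word (P j)) (R i) = ((Ls i).map (cj d g c ε)).prod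

theorem hg_list (φ : X.E → ℤ) (l : List (FreeGroup X.E)) (h : ∀ a ∈ l, hg φ a = 0) :
    hg φ l.prod = 0 := by
  induction l with
  | nil => exact hg_one φ
  | cons a l ih =>
    rw [List.prod_cons, hg_mul, h a (List.mem_cons_self ..), ih fun b hb => h b (List.mem_cons_of_mem _ hb),
      add_zero]

theorem hg_cj (φ : X.E → ℤ) {g : D → FreeGroup X.E} {c : D → C} {ε : D → Bool} {k : D}
    (h : Sa φ (d (c k)).w 0 (d (c k)).len = 0) : hg φ (cj d g c ε k) = 0 := by
  unfold cj
  rw [hg_mul, hg_mul, hg_inv]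
  cases ε k
  · rw [if_neg (by decide), hg_inv, hg_word, h]; ring
  · rw [if_pos rfl, hg_word, h]; ring

/-- the height homomorphism -/
noncomputable def hgH (φ : X.E → ℤ) : FreeGroup X.E →* Multiplicative ℤ where
  toFun a := ofAdd (hg φ a)
  map_one' := by rw [hg_one]; rfl
  map_mul' a b := by rw [hg_mul]; rfl

theorem van {P : J → CP X} {R : I → FreeGroup J} {Ls : I → List D}
    {g : D → FreeGroup X.E} {c : D → C} {ε : D → Bool} (hder : Der d P R Ls g c ε)
    (hR : ∀ z : J → ℤ, (∀ i, FreeGroup.lift (fun j => ofAdd (z j)) (R i) = 1) → ∀ j, z j = 0)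
    (φ : X.E → ℤ) (h : ∀ k, Sa φ (d (c k)).w 0 (d (c k)).len = 0) (j : J) :
    Sa φ (P j).w 0 (P j).len = 0 := by
  refine hR (fun j => Sa φ (P j).w 0 (P j).len) (fun i => ?_) j
  have h1 : (hgH φ).comp (FreeGroup.lift (fun j => word (P j))) =
      FreeGroup.lift (fun j => ofAdd (Sa φ (P j).w 0 (P j).len)) := by
    apply FreeGroup.ext_hom
    intro j
    show hgH φ (FreeGroup.lift (fun j => word (P j)) (FreeGroup.of j)) = _
    rw [FreeGroup.lift_apply_of, FreeGroup.lift_apply_of]
    show ofAdd (hg φ (word (P j))) = _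
    rw [hg_word]
  rw [← h1]
  show hgH φ (FreeGroup.lift (fun j => word (P j)) (R i)) = 1
  rw [hder i]
  show ofAdd (hg φ _) = 1
  rw [hg_list]
  · rfl
  · intro a ha
    obtain ⟨k, -, rfl⟩ := List.mem_map.1 ha
    exact hg_cj φ (h k)

theorem tl_list (φ : X.E → ℤ) (l : List (FreeGroup X.E)) (h : ∀ a ∈ l, hg φ a = 0) :
    tl φ l.prod 0 = (l.map fun a => tl φ a 0).prod := by
  induction l with
  | nil => exact tl_one φ 0
  | cons a l ih =>
    rw [List.prod_cons, tl_mul, h a (List.mem_cons_self ..),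
      List.map_cons, List.prod_cons, add_zero, ih fun b hb => h b (List.mem_cons_of_mem _ hb)]

theorem der_lift {P : J → CP X} {R : I → FreeGroup J} {Ls : I → List D}
    {g : D → FreeGroup X.E} {c : D → C} {ε : D → Bool} (hder : Der d P R Ls g c ε)
    (φ : X.E → ℤ) (h : ∀ k, Sa φ (d (c k)).w 0 (d (c k)).len = 0)
    (hP : ∀ j, Sa φ (P j).w 0 (P j).len = 0) :
    Der (dc d φ) (fun j => (P j).lift φ (hP j) 0) R Ls (fun k => tl φ (g k) 0)
      (fun k => ((⟨c k, h k⟩, hg φ (g k)) : CC d φ)) ε := by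
  intro i
  have h0 : ∀ r, hg φ (FreeGroup.lift (fun j => word (P j)) r) = 0 := by
    intro r
    have h1 : (hgH φ).comp (FreeGroup.lift (fun j => word (P j))) = 1 := by
      apply FreeGroup.ext_hom
      intro j
      show ofAdd (hg φ (FreeGroup.lift (fun j => word (P j)) (FreeGroup.of j))) = 1
      rw [FreeGroup.lift_apply_of, hg_word, hP]
      rfl
    have h2 := DFunLike.congr_fun h1 r
    exact ofAdd.injective h2
  let Ψ : FreeGroup J →* FreeGroup (cov X φ).E :=
    { toFun := fun r => tl φ (FreeGroup.lift (fun j => word (P j)) r) 0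
      map_one' := by rw [map_one, tl_one]
      map_mul' := fun a b => by rw [map_mul, tl_mul, h0, add_zero] }
  have h1 : Ψ = FreeGroup.lift (fun j => word ((P j).lift φ (hP j) 0)) := by
    apply FreeGroup.ext_hom
    intro j
    show tl φ (FreeGroup.lift (fun j => word (P j)) (FreeGroup.of j)) 0 = _
    rw [FreeGroup.lift_apply_of, FreeGroup.lift_apply_of]
    exact tl_word _ _ _ _
  have h2 := DFunLike.congr_fun h1 (R i)
  refine h2.symm.trans ?_
  show tl φ (FreeGroup.lift (fun j => word (P j)) (R i)) 0 = _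
  rw [hder i, tl_list, List.map_map]
  · congr 1
    refine List.map_congr_left fun k _ => ?_
    show tl φ (cj d g c ε k) 0 = cj (dc d φ) _ _ ε k
    unfold cj
    rw [tl_mul, tl_mul, tl_inv]
    cases ε k
    · simp only [Bool.false_eq_true, if_false]
      rw [hg_mul, hg_inv, hg_word, h k, tl_inv, hg_word, h k, tl_word (d (c k)) φ (h k)]
      have e1 : (0 : ℤ) + (hg φ (g k) + -0) - hg φ (g k) = 0 := by ring
      have e2 : (0 : ℤ) + hg φ (g k) - 0 = hg φ (g k) := by ring
      rw [e1, e2]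
      rfl
    · simp only [if_true]
      rw [hg_mul, hg_word, h k, tl_word (d (c k)) φ (h k)]
      have e1 : (0 : ℤ) + (hg φ (g k) + 0) - hg φ (g k) = 0 := by ring
      have e2 : (0 : ℤ) + hg φ (g k) = hg φ (g k) := by ring
      rw [e1, e2]
      rfl
  · intro a ha
    obtain ⟨k, -, rfl⟩ := List.mem_map.1 ha
    exact hg_cj φ (h k)

end

section

variable {K : Type} [Fintype K]

open Classical in
/-- the vertices of finitely many closed paths -/
noncomputable def Vu (L : K → CP X) : Finset X.V :=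
  Finset.univ.biUnion fun k => (Finset.range (L k).len).image (L k).vx

open Classical in
/-- the edges of finitely many closed paths -/
noncomputable def Su (L : K → CP X) : Finset X.E :=
  Finset.univ.biUnion fun k => (Finset.range (L k).len).biUnion fun i =>
    ((L k).w i).elim ∅ fun x => {x.1}

theorem mem_Su {L : K → CP X} {e : X.E} (k : K) (h : Occ (L k) e) : e ∈ Su L := by
  classical
  obtain ⟨i, hi, b, hu⟩ := h.lt
  refine Finset.mem_biUnion.2 ⟨k, Finset.mem_univ _, Finset.mem_biUnion.2 ⟨i, Finset.mem_range.2 hi, ?_⟩⟩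
  rw [hu]
  exact Finset.mem_singleton_self _

theorem of_mem_Su {L : K → CP X} {e : X.E} (h : e ∈ Su L) : ∃ k, Occ (L k) e := by
  classical
  obtain ⟨k, -, h1⟩ := Finset.mem_biUnion.1 h
  obtain ⟨i, -, h2⟩ := Finset.mem_biUnion.1 h1
  refine ⟨k, i, ?_⟩
  rcases hu : (L k).w i with _ | ⟨e', b⟩
  · rw [hu] at h2
    exact absurd h2 (Finset.notMem_empty _)
  · rw [hu] at h2
    have h3 : e = e' := Finset.mem_singleton.1 h2
    exact ⟨b, by rw [h3]⟩

theorem card_Vu (L : K → CP X) : (Vu L).card ≤ ∑ k, (L k).len := by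
  classical
  refine Finset.card_biUnion_le.trans (Finset.sum_le_sum fun k _ => ?_)
  exact Finset.card_image_le.trans (Finset.card_range _).le

theorem mem_Vu (L : K → CP X) (k : K) (i : ℕ) : (L k).vx i ∈ Vu L := by
  classical
  refine Finset.mem_biUnion.2 ⟨k, Finset.mem_univ _, Finset.mem_image.2 ⟨i % (L k).len,
    Finset.mem_range.2 (Nat.mod_lt _ (L k).pos), ?_⟩⟩
  rw [← per_mul (L k).perv (i / (L k).len) (i % (L k).len), Nat.mul_comm, Nat.mod_add_div]

theorem of_mem_Vu {L : K → CP X} {v : X.V} (h : v ∈ Vu L) : ∃ k i, (L k).vx i = v := by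
  classical
  obtain ⟨k, -, h1⟩ := Finset.mem_biUnion.1 h
  obtain ⟨i, -, h2⟩ := Finset.mem_image.1 h1
  exact ⟨k, i, h2⟩

theorem Vu_lt (L : K → CP X) (φ : X.E → ℤ) (h : ∀ k, Sa φ (L k).w 0 (L k).len = 0) (m : K → ℤ)
    (hφ : ¬ ∃ b : X.V → ℤ, ∀ e ∈ Su L, φ e = b (X.tgt e) - b (X.src e)) :
    (Vu L).card < (Vu fun k => (L k).lift φ (h k) (m k)).card := by
  classical
  by_contra hcon
  push Not at hcon
  apply hφ
  set L' : K → CP (cov X φ) := fun k => (L k).lift φ (h k) (m k) with hL'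
  let pr : (cov X φ).V → X.V := fun x => x.1
  have him : (Vu L').image pr = Vu L := by
    ext v
    constructor
    · intro hv
      obtain ⟨x, hx, rfl⟩ := Finset.mem_image.1 hv
      obtain ⟨k, i, rfl⟩ := of_mem_Vu hx
      exact mem_Vu L k i
    · intro hv
      obtain ⟨k, i, rfl⟩ := of_mem_Vu hv
      exact Finset.mem_image.2 ⟨(L' k).vx i, mem_Vu L' k i, rfl⟩
  have hinj : Set.InjOn pr (↑(Vu L') : Set (cov X φ).V) := by
    refine Finset.injOn_of_card_image_eq (le_antisymm Finset.card_image_le ?_)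
    rw [him]
    exact hcon
  have hex : ∀ v : X.V, ∃ n : ℤ, ∀ k i, (L k).vx i = v → ht (L k) φ (m k) i = n := by
    intro v
    by_cases hv : ∃ k i, (L k).vx i = v
    · obtain ⟨k, i, hki⟩ := hv
      refine ⟨ht (L k) φ (m k) i, fun k' i' hki' => ?_⟩
      have h2 := hinj (mem_Vu L' k' i') (mem_Vu L' k i) (hki'.trans hki.symm)
      exact (Prod.mk.inj h2).2
    · exact ⟨0, fun k i hki => absurd ⟨k, i, hki⟩ hv⟩
  choose b hb using hex
  refine ⟨b, ?_⟩
  intro e he
  obtain ⟨k, i, b', hu⟩ := of_mem_Su he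
  have h1 := (L k).adj i
  have h2 := ht_succ (L k) φ (m k) i
  rw [hu] at h1 h2
  cases b'
  · obtain ⟨h3, h4⟩ : (L k).vx i = X.tgt e ∧ (L k).vx (i + 1) = X.src e := h1
    rw [← hb _ k i h3, ← hb _ k (i + 1) h4, h2]
    show φ e = _ - (_ + -φ e)
    ring
  · obtain ⟨h3, h4⟩ : (L k).vx i = X.src e ∧ (L k).vx (i + 1) = X.tgt e := h1
    rw [← hb _ k i h3, ← hb _ k (i + 1) h4, h2]
    show φ e = (_ + φ e) - _
    ring

end

/-- **The tower theorem.** -/
theorem tower {J I D : Type} [Fintype J] [Fintype D] {G : Type} [Group G] {R : I → FreeGroup J}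
    {Ls : I → List D} {ε : D → Bool}
    (hR : ∀ z : J → ℤ, (∀ i, FreeGroup.lift (fun j => ofAdd (z j)) (R i) = 1) → ∀ j, z j = 0)
    (B : ℕ) : ∀ (N : ℕ) (X : Gr) (C : Type) (d : C → CP X) (_ : Cls X C d) (τ : X.E → G)
    (_ : ∀ c, Wd τ (d c).w 0 (d c).len = 1) (P : J → CP X)
    (g : D → FreeGroup X.E) (c : D → C), Der d P R Ls g c ε →
    ∑ k, (Sum.elim P (fun k => d (c k)) k).len = B →
    B < (Vu (Sum.elim P fun k => d (c k))).card + N →
    ∀ j, Wd τ (P j).w 0 (P j).len = 1 := by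
  classical
  intro N
  induction N with
  | zero =>
    intro X C d K τ hτ P g c _ hB hN
    have := card_Vu (Sum.elim P fun k => d (c k))
    omega
  | succ N ih =>
    intro X C d K τ hτ P g c hder hB hN j
    set L := Sum.elim P fun k => d (c k) with hL
    set T : Finset C := Finset.univ.image c with hT
    have hcl : Cl d (Su L) T := by
      intro c' hc' e he
      obtain ⟨k, -, rfl⟩ := Finset.mem_image.1 hc'
      exact mem_Su (L := L) (Sum.inr k) he
    by_cases hH : H1 ℤ d (Su L) T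
    · obtain ⟨b, hb⟩ := mc K (Su L) T hcl hH G τ fun c' _ => hτ c'
      rw [Wd_cob (P j) (g := b) fun i e b' _ hu => hb e (mem_Su (L := L) (Sum.inl j) ⟨_, b', hu⟩),
        Nat.zero_add, CP.vlen, inv_mul_cancel]
    · unfold H1 at hH
      push Not at hH
      obtain ⟨φ, hφ, hn⟩ := hH
      have h1 : ∀ k, Sa φ (d (c k)).w 0 (d (c k)).len = 0 := fun k =>
        hφ (c k) (Finset.mem_image_of_mem _ (Finset.mem_univ _))
      have h2 := van hder hR φ h1
      have h3 : ∀ k, Sa φ (L k).w 0 (L k).len = 0 := by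
        rintro (k | k)
        · exact h2 k
        · exact h1 k
      have h4 := ih (cov X φ) (CC d φ) (dc d φ) (K.cover φ) (fun e : X.E × ℤ => τ e.1)
        (fun c => (Wd_lift τ (d c.1.1) φ c.1.2 c.2 0 _).trans (hτ c.1.1)) (fun j => (P j).lift φ (h2 j) 0)
        (fun k => tl φ (g k) 0) (fun k => (⟨c k, h1 k⟩, hg φ (g k))) (der_lift hder φ h1 h2) ?_ ?_ j
      · rw [← h4]
        exact (Wd_lift τ (P j) φ (h2 j) 0 0 _).symm
      · rw [← hB]
        refine Finset.sum_congr rfl ?_
        rintro (k | k) _ <;> rfl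
      · have h5 := Vu_lt L φ h3 (Sum.elim (fun _ => 0) fun k => hg φ (g k)) (by
          push Not
          exact hn)
        have h6 : (fun k => (L k).lift φ (h3 k) ((Sum.elim (fun _ => 0) fun k => hg φ (g k)) k)) =
            Sum.elim (fun j => (P j).lift φ (h2 j) 0)
              (fun k => dc d φ ((⟨c k, h1 k⟩, hg φ (g k)) : CC d φ)) := by
          funext k
          rcases k with k | k <;> rfl
        rw [h6] at h5
        omega

end Pool.Agent.K9h82.HT
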